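import Mathlib

/-! # Polynomials in two variables over `ℤ` -/

open MvPolynomial

namespace Pool.Agent.Helper11.LC.Two

theorem exists_bezout {B : Type*} [CommRing B] [IsDomain B] [IsGCDMonoid B] {P Q : Polynomial B}
    (hP : Irreducible P) (hdeg : P.natDegree ≠ 0) (hPQ : ¬ P ∣ Q) :
    ∃ (U V : Polynomial B) (d : B), d ≠ 0 ∧ U * P + V * Q = Polynomial.C d := by
  have hprim := hP.isPrimitive hdeg
  have h1 : Irreducible (P.map (algebraMap B (FractionRing B))) :=
    hprim.irreducible_iff_irreducible_map_fraction_map.1 hP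
  have h2 : ¬ P.map (algebraMap B (FractionRing B)) ∣ Q.map (algebraMap B (FractionRing B)) :=
    fun h => hPQ ((hprim.dvd_iff_fraction_map_dvd_fraction_map (FractionRing B)).2 h)
  obtain ⟨u, w, huw⟩ := (h1.coprime_iff_not_dvd).2 h2
  obtain ⟨b, hb, hbu⟩ := IsLocalization.integerNormalization_spec (nonZeroDivisors B) u
  obtain ⟨c, hc, hcw⟩ := IsLocalization.integerNormalization_spec (nonZeroDivisors B) w
  refine ⟨Polynomial.C c * IsLocalization.integerNormalization (nonZeroDivisors B) u,
    Polynomial.C b * IsLocalization.integerNormalization (nonZeroDivisors B) w, b * c,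
    mul_ne_zero (nonZeroDivisors.ne_zero hb) (nonZeroDivisors.ne_zero hc), ?_⟩
  apply Polynomial.map_injective (algebraMap B (FractionRing B)) (IsFractionRing.injective B _)
  rw [Polynomial.map_add, Polynomial.map_mul, Polynomial.map_mul, Polynomial.map_mul, Polynomial.map_mul,
    Polynomial.map_C, Polynomial.map_C, Polynomial.map_C, hbu, hcw, Algebra.smul_def, Algebra.smul_def]
  have h3 : ∀ x : B, algebraMap B (Polynomial (FractionRing B)) x =
      Polynomial.C (algebraMap B (FractionRing B) x) := fun x => rfl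
  rw [h3, h3, map_mul, Polynomial.C_mul]
  linear_combination (Polynomial.C (algebraMap B (FractionRing B) b) *
    Polynomial.C (algebraMap B (FractionRing B) c)) * huw

/-- polynomials in two variables as polynomials in the variable `k` over the polynomials in the other -/
noncomputable def toP (k : Fin 2) : MvPolynomial (Fin 2) ℤ →+* Polynomial (Polynomial ℤ) :=
  eval₂Hom (Int.castRingHom _) fun i => if i = k then Polynomial.X else Polynomial.C Polynomial.X

noncomputable def ofP (k : Fin 2) : Polynomial (Polynomial ℤ) →+* MvPolynomial (Fin 2) ℤ :=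
  Polynomial.eval₂RingHom (Polynomial.aeval (X (k + 1))).toRingHom (X k)

lemma other_ne (k : Fin 2) : k + 1 ≠ k := by
  fin_cases k <;> decide

lemma eq_or (i k : Fin 2) : i = k ∨ i = k + 1 := by
  fin_cases i <;> fin_cases k <;> decide

lemma ofP_toP (k : Fin 2) (H : MvPolynomial (Fin 2) ℤ) : ofP k (toP k H) = H := by
  have h : (ofP k).comp (toP k) = RingHom.id _ := by
    apply MvPolynomial.ringHom_ext
    · intro r
      simp [toP, ofP]
    · intro i
      rcases eq_or i k with rfl | rfl
      · simp [toP, ofP]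
      · simp [toP, ofP, other_ne]
  exact RingHom.congr_fun h H

lemma toP_ofP (k : Fin 2) (P : Polynomial (Polynomial ℤ)) : toP k (ofP k P) = P := by
  have h : (toP k).comp (ofP k) = RingHom.id _ := by
    apply Polynomial.ringHom_ext'
    · apply Polynomial.ringHom_ext'
      · exact RingHom.ext_int _ _
      · simp [toP, ofP, other_ne]
    · simp [toP, ofP]
  exact RingHom.congr_fun h P

noncomputable def eqv (k : Fin 2) : MvPolynomial (Fin 2) ℤ ≃+* Polynomial (Polynomial ℤ) :=
  { toP k with
    invFun := ofP k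
    left_inv := ofP_toP k
    right_inv := toP_ofP k }

lemma eqv_apply (k : Fin 2) (H : MvPolynomial (Fin 2) ℤ) : eqv k H = toP k H := rfl

lemma irr_toP {k : Fin 2} {H : MvPolynomial (Fin 2) ℤ} (hH : Irreducible H) : Irreducible (toP k H) := by
  have h := (MulEquiv.irreducible_iff (eqv k)).2 hH
  rwa [eqv_apply] at h

lemma dvd_of_toP {k : Fin 2} {H G : MvPolynomial (Fin 2) ℤ} (h : toP k H ∣ toP k G) : H ∣ G := by
  obtain ⟨c, hc⟩ := h
  refine ⟨ofP k c, ?_⟩
  rw [← ofP_toP k G, hc, map_mul, ofP_toP]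

lemma aeval_eq {A : Type*} [CommRing A] (k : Fin 2) (H : MvPolynomial (Fin 2) ℤ) (x : Fin 2 → A) :
    aeval x H = Polynomial.eval₂ (Polynomial.aeval (x (k + 1))).toRingHom (x k) (toP k H) := by
  have h : (aeval x : MvPolynomial (Fin 2) ℤ →ₐ[ℤ] A).toRingHom =
      (Polynomial.eval₂RingHom (Polynomial.aeval (R := ℤ) (x (k + 1))).toRingHom (x k)).comp (toP k) := by
    apply MvPolynomial.ringHom_ext
    · intro r
      simp [toP]
    · intro i
      rcases eq_or i k with rfl | rfl
      · simp [toP]
      · simp [toP, other_ne]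
  exact RingHom.congr_fun h H

lemma toP_pderiv (k : Fin 2) (H : MvPolynomial (Fin 2) ℤ) :
    toP k (pderiv k H) = Polynomial.derivative (toP k H) := by
  induction H using MvPolynomial.induction_on with
  | C r => simp [toP]
  | add p q hp hq => rw [map_add, map_add, map_add, map_add, hp, hq]
  | mul_X p i hp =>
    rw [Derivation.leibniz, map_add, smul_eq_mul, smul_eq_mul, map_mul, map_mul, map_mul,
      Polynomial.derivative_mul, hp, pderiv_X]
    rcases eq_or i k with rfl | rfl
    · simp [toP]
      ring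
    · simp [toP, other_ne, Pi.single_apply, (other_ne k).symm]
      ring

/-- a polynomial in the variable `k + 1` -/
lemma ofP_C (k : Fin 2) (d : Polynomial ℤ) : ofP k (Polynomial.C d) = Polynomial.aeval (X (k + 1)) d := by
  simp [ofP]

section
variable {A : Type*} [CommRing A] {k : Fin 2} {H : MvPolynomial (Fin 2) ℤ} {x : Fin 2 → A}

lemma deg_ne_zero (hH : Irreducible H) (hx : Transcendental ℤ (x (k + 1))) (h0 : aeval x H = 0) :
    (toP k H).natDegree ≠ 0 := by
  intro h
  have h1 := Polynomial.eq_C_of_natDegree_eq_zero h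
  rw [aeval_eq k, h1, Polynomial.eval₂_C] at h0
  have h2 : (toP k H).coeff 0 = 0 := by
    by_contra h3
    exact hx ⟨_, h3, h0⟩
  rw [h2, map_zero] at h1
  exact (irr_toP hH).ne_zero h1

/-- the ideal of a generic point is generated by `H` -/
theorem dvd_of_vanish (hH : Irreducible H) (hx : Transcendental ℤ (x (k + 1))) (h0 : aeval x H = 0)
    {G : MvPolynomial (Fin 2) ℤ} (hG : aeval x G = 0) : H ∣ G := by
  by_contra hcon
  obtain ⟨U, V, d, hd, h⟩ := exists_bezout (irr_toP (k := k) hH) (deg_ne_zero hH hx h0)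
    (fun h => hcon (dvd_of_toP h))
  apply hx
  refine ⟨d, hd, ?_⟩
  have h1 := congrArg (Polynomial.eval₂ (Polynomial.aeval (R := ℤ) (x (k + 1))).toRingHom (x k)) h
  rw [Polynomial.eval₂_add, Polynomial.eval₂_mul, Polynomial.eval₂_mul, Polynomial.eval₂_C,
    ← aeval_eq, ← aeval_eq, h0, hG, mul_zero, mul_zero, add_zero] at h1
  exact h1.symm

/-- the discriminant -/
theorem exists_disc (hH : Irreducible H) (hx : Transcendental ℤ (x (k + 1))) (h0 : aeval x H = 0) :
    ∃ (U V : MvPolynomial (Fin 2) ℤ) (d : Polynomial ℤ), d ≠ 0 ∧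
      U * H + V * pderiv k H = Polynomial.aeval (X (k + 1) : MvPolynomial (Fin 2) ℤ) d := by
  have hdeg := deg_ne_zero hH hx h0
  obtain ⟨U, V, d, hd, h⟩ := exists_bezout (irr_toP (k := k) hH) hdeg
    (Q := Polynomial.derivative (toP k H)) (fun h => by
      have h1 : Polynomial.derivative (toP k H) ≠ 0 := fun h2 =>
        hdeg (Polynomial.derivative_eq_zero.1 h2)
      have h2 := Polynomial.natDegree_le_of_dvd h h1
      have h3 := Polynomial.natDegree_derivative_lt hdeg
      omega)
  refine ⟨ofP k U, ofP k V, d, hd, ?_⟩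
  have h1 := congrArg (ofP k) h
  rw [map_add, map_mul, map_mul, ofP_toP, ← toP_pderiv, ofP_toP, ofP_C] at h1
  exact h1

end

/-- `X_k` does not divide `H` -/
theorem exists_bot {H : MvPolynomial (Fin 2) ℤ} (hH : Irreducible H) {A : Type*} [CommRing A] [IsDomain A]
    {x : Fin 2 → A} (h0 : aeval x H = 0) {k : Fin 2} (hk : x k ≠ 0) : ∃ m : Fin 2 →₀ ℕ, m k = 0 ∧ H.coeff m ≠ 0 := by
  by_contra hcon
  push Not at hcon
  have h1 : (X k : MvPolynomial (Fin 2) ℤ) ∣ H := by
    rw [X_dvd_iff_modMonomial_eq_zero]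
    ext m
    rw [coeff_zero]
    by_cases h : Finsupp.single k 1 ≤ m
    · exact coeff_modMonomial_of_le _ h
    · rw [coeff_modMonomial_of_not_le _ h]
      apply hcon
      by_contra h2
      apply h
      rw [Finsupp.single_le_iff]
      omega
  have h2 : Associated (X k : MvPolynomial (Fin 2) ℤ) H :=
    (X_prime (R := ℤ) (i := k)).irreducible.associated_of_dvd hH h1
  obtain ⟨c, hc⟩ := h2.symm.dvd
  have h3 := congrArg (aeval x) hc
  rw [map_mul, h0, zero_mul, aeval_X] at h3
  exact hk h3

theorem exists_top {H : MvPolynomial (Fin 2) ℤ} (hH : H ≠ 0) (k : Fin 2) :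
    ∃ m : Fin 2 →₀ ℕ, m k = H.degreeOf k ∧ H.coeff m ≠ 0 := by
  have h1 := degreeOf_eq_sup k H
  obtain ⟨m, hm, h2⟩ := Finset.exists_mem_eq_sup H.support (support_nonempty.2 hH) fun m => m k
  exact ⟨m, by rw [h1, h2], mem_support_iff.1 hm⟩

end Pool.Agent.Helper11.LC.Two
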