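import Pool.Agent.Helper11.LC.Pts

/-! # Dilates -/

open MvPolynomial Finset

namespace Pool.Agent.Helper11.LC
open Pool.Agent.Helper11.ZP Pool.Agent.Helper11.ZU Pool.Agent.Helper20.ZT Pool.Agent.Helper20.ZT.Prim
  Pool.Agent.Helper20.ZD

variable {n : ℕ} {v : AbsoluteValue ℂ ℝ}

lemma v_int_le (hv : IsNonarchimedean v) {x : ℂ} (hx : IsIntegral ℤ x) : v x ≤ 1 :=
  mem_vring.1 (mem_of_isIntegral_int (vring v hv) hx)

lemma v_nat_le (hv : IsNonarchimedean v) (m : ℕ) : v (m : ℂ) ≤ 1 :=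
  v_int_le hv (by exact_mod_cast (isIntegral_algebraMap (R := ℤ) (A := ℂ) (x := (m : ℤ))))

lemma v_nat_factor (hv : IsNonarchimedean v) {a b : ℕ} (h : v ((a * b : ℕ) : ℂ) = 1) :
    v (a : ℂ) = 1 ∧ v (b : ℂ) = 1 := by
  rw [Nat.cast_mul, map_mul] at h
  have ha := v_nat_le hv a
  have hb := v_nat_le hv b
  have ha0 := AbsoluteValue.nonneg v (a : ℂ)
  have hb0 := AbsoluteValue.nonneg v (b : ℂ)
  constructor <;> nlinarith

lemma v_prod_nat (hv : IsNonarchimedean v) {ι : Type*} (s : Finset ι) (m : ι → ℕ)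
    (h : v ((∏ i ∈ s, m i : ℕ) : ℂ) = 1) : ∀ i ∈ s, v (m i : ℂ) = 1 := by
  classical
  intro i hi
  rw [← mul_prod_erase s m hi] at h
  exact (v_nat_factor hv h).1

/-- half of the next lemma -/
lemma alg_le {c : ℂ} (halg : IsAlgebraic ℚ c) :
    ∃ m : ℕ, 0 < m ∧ ∀ v : AbsoluteValue ℂ ℝ, IsNonarchimedean v → v (m : ℂ) = 1 → v c ≤ 1 := by
  have h1 : IsAlgebraic ℤ c := (IsFractionRing.isAlgebraic_iff ℤ ℚ ℂ).2 halg
  obtain ⟨y, hy, hint⟩ := h1.exists_integral_multiple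
  refine ⟨y.natAbs, Int.natAbs_pos.2 hy, fun v hv hm => ?_⟩
  have h2 := v_int_le hv hint
  rw [zsmul_eq_mul, map_mul] at h2
  have h3 : v (y : ℂ) = 1 := by
    rcases Int.natAbs_eq y with h | h
    · rw [h, Int.cast_natCast]; exact hm
    · rw [h, Int.cast_neg, Int.cast_natCast, map_neg_eq_map]; exact hm
  rwa [h3, one_mul] at h2

/-- a nonzero algebraic number is a unit outside finitely many residue characteristics -/
lemma alg_unit {c : ℂ} (halg : IsAlgebraic ℚ c) :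
    ∃ m : ℕ, 0 < m ∧ ∀ v : AbsoluteValue ℂ ℝ, IsNonarchimedean v → v (m : ℂ) = 1 →
      v c ≤ 1 ∧ (c ≠ 0 → v c = 1) := by
  obtain ⟨a, ha, h1⟩ := alg_le halg
  obtain ⟨b, hb, h2⟩ := alg_le halg.inv
  refine ⟨a * b, Nat.mul_pos ha hb, fun v hv hm => ?_⟩
  obtain ⟨hma, hmb⟩ := v_nat_factor hv hm
  have h3 := h1 v hv hma
  refine ⟨h3, fun hc => le_antisymm h3 ?_⟩
  have h4 := h2 v hv hmb
  rw [map_inv₀] at h4
  exact (inv_le_one₀ ((AbsoluteValue.pos_iff v).2 hc)).1 h4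

/-- `Z` is in general position with respect to `0` and `∞` for the dimension `d`: for all `d + 1`
coordinates some polynomial in them, with algebraic coefficients, which contains its corner monomials
`∏_{i ∈ I} T_i ^ (deg_i f)`, vanishes on `Z` -/
def CornerPos (d : ℕ) (Z : Set (Fin n → ℂ)) : Prop :=
  ∀ J : Finset (Fin n), J.card = d + 1 → ∃ f : MvPolynomial (Fin n) ℂ, f.vars ⊆ J ∧
    (∀ m, IsAlgebraic ℚ (f.coeff m)) ∧ (∀ I ⊆ J, f.coeff (corner f I) ≠ 0) ∧ ∀ z ∈ Z, eval z f = 0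

/-- **dilates** -/
theorem corners_dilate {d : ℕ} {Z : Set (Fin n → ℂ)} (hZ : CornerPos d Z) :
    ∃ m : ℕ, 0 < m ∧ ∀ v : AbsoluteValue ℂ ℝ, IsNonarchimedean v → v (m : ℂ) = 1 →
      ∀ s : Fin n → ℂ, Corners v d s {x | (fun i => x i / s i) ∈ Z} := by
  classical
  have hZ' : ∀ J : Finset (Fin n), ∃ f : MvPolynomial (Fin n) ℂ, J.card = d + 1 → f.vars ⊆ J ∧
      (∀ m, IsAlgebraic ℚ (f.coeff m)) ∧ (∀ I ⊆ J, f.coeff (corner f I) ≠ 0) ∧ ∀ z ∈ Z, eval z f = 0 := by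
    intro J
    by_cases h : J.card = d + 1
    · obtain ⟨f, hf⟩ := hZ J h
      exact ⟨f, fun _ => hf⟩
    · exact ⟨0, fun h' => absurd h' h⟩
  choose f hf using hZ'
  have hm : ∀ (J : Finset (Fin n)) (k : Fin n →₀ ℕ), ∃ m : ℕ, 0 < m ∧ (J.card = d + 1 →
      ∀ v : AbsoluteValue ℂ ℝ, IsNonarchimedean v → v (m : ℂ) = 1 →
        v ((f J).coeff k) ≤ 1 ∧ ((f J).coeff k ≠ 0 → v ((f J).coeff k) = 1)) := by
    intro J k
    by_cases h : J.card = d + 1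
    · obtain ⟨m, h1, h2⟩ := alg_unit ((hf J h).2.1 k)
      exact ⟨m, h1, fun _ => h2⟩
    · exact ⟨1, one_pos, fun h' => absurd h' h⟩
  choose m hm0 hm using hm
  refine ⟨∏ J : Finset (Fin n), ∏ k ∈ (f J).support, m J k,
    prod_pos fun J _ => prod_pos fun k _ => hm0 J k, fun v hv hvm s J hJ => ?_⟩
  obtain ⟨h1, h2, h3, h4⟩ := hf J hJ
  have h5 := v_prod_nat hv _ _ hvm J (mem_univ J)
  have h6 := v_prod_nat hv _ _ h5
  refine ⟨f J, ⟨h1, fun k => ?_, fun I hI => ?_⟩, fun x hx => h4 _ hx⟩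
  · by_cases hk : k ∈ (f J).support
    · exact (hm J k hJ v hv (h6 k hk)).1
    · rw [notMem_support_iff.1 hk, map_zero]
      exact zero_le_one
  · have hk := h3 I hI
    exact (hm J _ hJ v hv (h6 _ (mem_support_iff.2 hk))).2 hk

end Pool.Agent.Helper11.LC
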