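import Pool.Agent.Helper11.LC.Gen
import Pool.Agent.Helper11.LC.Two
import Pool.Agent.Helper69.DL.Defs

/-! # Conjugate points -/

open MvPolynomial Finset

namespace Pool.Agent.Helper11.LC
open Pool.Agent.Helper11.ZP Pool.Agent.Helper11.ZU Pool.Agent.Helper20.ZD Pool.Agent.Helper20.ZT

variable {n : ℕ}

/-- a nonzero algebraic number and its conjugates are units outside finitely many residue characteristics -/
lemma conj_unit {c : ℂ} (halg : IsAlgebraic ℚ c) :
    ∃ m : ℕ, 0 < m ∧ ∀ v : AbsoluteValue ℂ ℝ, IsNonarchimedean v → v (m : ℂ) = 1 →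
      ∀ c' : ℂ, (∀ P : Polynomial ℤ, Polynomial.aeval c P = 0 → Polynomial.aeval c' P = 0) →
        v c' ≤ 1 ∧ (c ≠ 0 → v c' = 1) := by
  by_cases hc : c = 0
  · refine ⟨1, one_pos, fun v _ _ c' h => ?_⟩
    have h1 := h Polynomial.X (by rw [Polynomial.aeval_X]; exact hc)
    rw [Polynomial.aeval_X] at h1
    exact ⟨by rw [h1, map_zero]; exact zero_le_one, fun h => absurd hc h⟩
  have h1 : IsAlgebraic ℤ c := (IsFractionRing.isAlgebraic_iff ℤ ℚ ℂ).2 halg
  obtain ⟨P, hP0, hP⟩ := h1.exists_nonzero_coeff_and_aeval_eq_zero (mem_nonZeroDivisors_of_ne_zero hc)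
  have hne : P ≠ 0 := by
    rintro rfl
    exact hP0 (Polynomial.coeff_zero 0)
  refine ⟨(P.coeff 0).natAbs * P.leadingCoeff.natAbs, Nat.mul_pos (Int.natAbs_pos.2 hP0)
    (Int.natAbs_pos.2 (Polynomial.leadingCoeff_ne_zero.2 hne)), fun v hv hm c' h => ?_⟩
  obtain ⟨ha, hb⟩ := v_nat_factor hv hm
  have key : ∀ k : ℤ, v (k.natAbs : ℂ) = 1 → v (k : ℂ) = 1 := by
    intro k hk
    rcases Int.natAbs_eq k with h | h
    · rw [h, Int.cast_natCast]; exact hk
    · rw [h, Int.cast_neg, Int.cast_natCast, map_neg_eq_map]; exact hk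
  have h2 := h P hP
  have hinj : Function.Injective (algebraMap ℤ ℂ) := (algebraMap ℤ ℂ).injective_int
  have h3 : v c' = 1 := by
    refine val_root_eq hv (P := P.map (algebraMap ℤ ℂ)) (fun k => ?_) ?_ ?_ c' ?_
    · rw [Polynomial.coeff_map]
      exact hv.apply_intCast_le_one
    · rw [Polynomial.leadingCoeff_map_of_injective hinj]
      exact key _ hb
    · rw [Polynomial.coeff_map]
      exact key _ ha
    · rw [Polynomial.mem_roots (Polynomial.map_ne_zero_iff hinj |>.2 hne), Polynomial.IsRoot.def,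
        Polynomial.eval_map]
      exact h2
  exact ⟨h3.le, fun _ => h3⟩

/-- a lift of an embedding -/
lemma exists_lift {S E M : Type*} [CommRing S] [IsDomain S] [Field E] [Field M] [IsAlgClosed M]
    [Algebra S E] [Module.IsTorsionFree S E] (ψ : S →+* M) (hψ : Function.Injective ψ) :
    ∃ σ : Subalgebra.algebraicClosure S E →+* M, ∀ s : S, σ (algebraMap S _ s) = ψ s := by
  letI := ψ.toAlgebra
  have h1 : Module.IsTorsionFree S M := by
    have h2 : FaithfulSMul S M := (faithfulSMul_iff_algebraMap_injective S M).2 hψ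
    infer_instance
  exact ⟨(IsAlgClosed.lift (R := S) (S := Subalgebra.algebraicClosure S E) (M := M)).toRingHom,
    fun s => (IsAlgClosed.lift (R := S) (S := Subalgebra.algebraicClosure S E) (M := M)).commutes s⟩

open AlgebraicIndependent in
/-- the exchange property -/
theorem exchange {x t : ℂ} (h : IsAlgebraic (Algebra.adjoin ℤ {x}) t) (ht : Transcendental ℤ t) :
    IsAlgebraic (Algebra.adjoin ℤ {t}) x := by
  have hcl : ∀ (s : Set ℂ) (y : ℂ), y ∈ (matroid ℤ ℂ).closure s ↔ IsAlgebraic (Algebra.adjoin ℤ s) y := by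
    intro s y
    rw [matroid_closure_eq]
    exact Subalgebra.mem_algebraicClosure _ _
  rw [← hcl]
  have h1 : t ∈ (matroid ℤ ℂ).closure (insert x ∅) := by
    rw [hcl, LawfulSingleton.insert_empty_eq]; exact h
  have h2 : t ∉ (matroid ℤ ℂ).closure ∅ := by
    rw [hcl]
    intro h3
    apply ht
    rw [Algebra.adjoin_empty] at h3
    exact h3.restrictScalars ℤ
  have h3 := Matroid.mem_closure_insert h2 h1
  rwa [LawfulSingleton.insert_empty_eq] at h3

lemma alg_over {c : ℂ} (hc : IsAlgebraic ℚ c) (S : Subalgebra ℤ ℂ) : IsAlgebraic S c := by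
  have h1 : IsAlgebraic ℤ c := (IsFractionRing.isAlgebraic_iff ℤ ℚ ℂ).2 hc
  exact h1.extendScalars (algebraMap ℤ S).injective_int

/-- a transcendental coordinate generates the others up to algebraic extensions -/
theorem alg_of_pair {i j : Fin n} (hij : i ≠ j) {f : MvPolynomial (Fin n) ℂ} (hvars : f.vars ⊆ {i, j})
    (halg : ∀ m, IsAlgebraic ℚ (f.coeff m)) (hcor : f.coeff (corner f {i, j}) ≠ 0) {z : Fin n → ℂ}
    (hz : eval z f = 0) (hi : Transcendental ℤ (z i)) : IsAlgebraic (Algebra.adjoin ℤ {z i}) (z j) := by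
  classical
  set S := Algebra.adjoin ℤ {z i} with hS
  set A := Subalgebra.algebraicClosure S ℂ with hA
  have hcA : ∀ m, f.coeff m ∈ A := fun m => (Subalgebra.mem_algebraicClosure _ _).2 (alg_over (halg m) S)
  have hziA : z i ∈ A := (Subalgebra.mem_algebraicClosure _ _).2
    (isAlgebraic_algebraMap (⟨z i, Algebra.subset_adjoin rfl⟩ : S))
  have hdeg : ∀ k, k ≠ i → k ≠ j → ∀ m ∈ f.support, m k = 0 := by
    intro k hki hkj m hm
    by_contra h
    have h1 := hvars ((mem_vars_iff_mem_support k).2 ⟨m, hm, Finsupp.mem_support_iff.2 h⟩)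
    rw [Finset.mem_insert, Finset.mem_singleton] at h1
    exact h1.elim hki hkj
  have hprod : ∀ m ∈ f.support, ∏ k, z k ^ m k = z i ^ m i * z j ^ m j := by
    intro m hm
    rw [← mul_prod_erase univ _ (mem_univ i), ← mul_prod_erase (univ.erase i) _
      (mem_erase.2 ⟨hij.symm, mem_univ j⟩)]
    rw [prod_eq_one (s := (univ.erase i).erase j), mul_one]
    intro k hk
    rw [mem_erase, mem_erase] at hk
    rw [hdeg k hk.2.1 hk.1 m hm, pow_zero]
  set P : Polynomial A := ∑ m ∈ f.support, Polynomial.monomial (m j)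
    (⟨f.coeff m, hcA m⟩ * (⟨z i, hziA⟩ : A) ^ m i) with hP
  have hPz : Polynomial.aeval (z j) P = 0 := by
    rw [hP, map_sum, ← hz, eval_eq']
    refine sum_congr rfl fun m hm => ?_
    rw [Polynomial.aeval_monomial, hprod m hm, ← mul_assoc]
    rfl
  have hP0 : P ≠ 0 := by
    intro hP0
    have h1 : P.coeff (f.degreeOf j) = 0 := by rw [hP0, Polynomial.coeff_zero]
    rw [hP, Polynomial.finsetSum_coeff] at h1
    set Q : Polynomial (algebraicClosure ℚ ℂ) := ∑ m ∈ f.support, if m j = f.degreeOf j then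
      Polynomial.monomial (m i) (⟨f.coeff m, mem_algebraicClosure_iff.2 (halg m)⟩ : algebraicClosure ℚ ℂ)
      else 0 with hQ
    have hQz : Polynomial.aeval (z i) Q = 0 := by
      rw [hQ, map_sum]
      have h2 := congrArg (fun x : A => (x : ℂ)) h1
      simp only [AddSubmonoidClass.coe_finsetSum, ZeroMemClass.coe_zero] at h2
      rw [← h2]
      refine sum_congr rfl fun m hm => ?_
      rw [Polynomial.coeff_monomial]
      split_ifs with h3
      · rw [Polynomial.aeval_monomial]
        rfl
      · rw [map_zero]; rfl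
    have hQ0 : Q ≠ 0 := by
      intro hQ0
      have h2 : Q.coeff (f.degreeOf i) = 0 := by rw [hQ0, Polynomial.coeff_zero]
      rw [hQ, Polynomial.finsetSum_coeff] at h2
      have h3 : corner f {i, j} ∈ f.support := mem_support_iff.2 hcor
      have hci : corner f {i, j} i = f.degreeOf i := by simp [corner]
      have hcj : corner f {i, j} j = f.degreeOf j := by simp [corner]
      rw [sum_eq_single (corner f {i, j})] at h2
      · rw [if_pos hcj, Polynomial.coeff_monomial, if_pos hci] at h2
        exact hcor (congrArg (fun x : algebraicClosure ℚ ℂ => (x : ℂ)) h2)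
      · intro m hm hne
        split_ifs with h4
        · rw [Polynomial.coeff_monomial, if_neg]
          intro h5
          apply hne
          ext k
          by_cases hki : k = i
          · rw [hki, hci, h5]
          · by_cases hkj : k = j
            · rw [hkj, hcj, h4]
            · rw [hdeg k hki hkj m hm, hdeg k hki hkj _ h3]
        · rw [Polynomial.coeff_zero]
      · intro h; exact absurd h3 h
    have hiQ : Transcendental ℚ (z i) := fun h => hi ((IsFractionRing.isAlgebraic_iff ℤ ℚ ℂ).2 h)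
    exact hiQ.algebraicClosure ⟨Q, hQ0, hQz⟩
  have h5 : IsAlgebraic A (z j) := ⟨P, hP0, hPz⟩
  exact h5.restrictScalars S

end Pool.Agent.Helper11.LC
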