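import Pool.Agent.Helper11.LC.Places

/-! # The archimedean places of the field of definition of a point -/

open MvPolynomial Finset

namespace Pool.Agent.Helper11.LC
open Pool.Agent.Helper11.ZP Pool.Agent.Helper11.ZU Pool.Agent.Helper20.ZD

variable {n : ℕ}

/-- the top monomial dominates if the coordinates are large -/
theorem arch_dom {S : Finset (Fin n →₀ ℕ)} {c : (Fin n →₀ ℕ) → ℂ} {t : Fin n →₀ ℕ} (ht : t ∈ S)
    (hle : ∀ m ∈ S, ∀ i, m i ≤ t i) {J : Finset (Fin n)} (hJ : ∀ i ∉ J, t i = 0) {R : ℝ} (hR1 : 1 ≤ R)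
    (hR : ∑ m ∈ S.erase t, ‖c m‖ < R * ‖c t‖) {z : Fin n → ℂ} (h : ∑ m ∈ S, c m * ∏ i, z i ^ m i = 0) :
    ∃ i ∈ J, ‖z i‖ ≤ R := by
  classical
  by_contra hcon
  push Not at hcon
  have hR0 : 0 < R := zero_lt_one.trans_le hR1
  set P : ℝ := ∏ i, ‖z i‖ ^ t i with hP
  have hpos : ∀ i, 0 < ‖z i‖ ^ t i := by
    intro i
    by_cases hi : i ∈ J
    · exact pow_pos (hR0.trans (hcon i hi)) _
    · rw [hJ i hi, pow_zero]; exact one_pos
  have hP0 : 0 < P := prod_pos fun i _ => hpos i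
  have hmon : ∀ m ∈ S.erase t, ‖c m * ∏ i, z i ^ m i‖ ≤ ‖c m‖ * (P / R) := by
    intro m hm
    obtain ⟨hmt, hmS⟩ := mem_erase.1 hm
    obtain ⟨j, hj⟩ : ∃ j, m j < t j := by
      by_contra h2
      push Not at h2
      exact hmt (Finsupp.ext fun i => le_antisymm (hle m hmS i) (h2 i))
    have hjJ : j ∈ J := by
      by_contra h2
      rw [hJ j h2] at hj
      exact absurd hj (Nat.not_lt_zero _)
    have hle' : ∀ i, ‖z i‖ ^ m i ≤ ‖z i‖ ^ t i := by
      intro i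
      by_cases hi : i ∈ J
      · exact pow_le_pow_right₀ (hR1.trans (hcon i hi).le) (hle m hmS i)
      · have h2 := hle m hmS i
        rw [hJ i hi] at h2 ⊢
        rw [Nat.le_zero.1 h2]
    have hzj : ‖z j‖ ^ m j * R ≤ ‖z j‖ ^ t j := by
      calc ‖z j‖ ^ m j * R ≤ ‖z j‖ ^ m j * ‖z j‖ :=
            mul_le_mul_of_nonneg_left (hcon j hjJ).le (pow_nonneg (norm_nonneg _) _)
        _ = ‖z j‖ ^ (m j + 1) := (pow_succ _ _).symm
        _ ≤ ‖z j‖ ^ t j := pow_le_pow_right₀ (hR1.trans (hcon j hjJ).le) hj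
    rw [norm_mul, norm_prod]
    simp only [norm_pow]
    refine mul_le_mul_of_nonneg_left ?_ (norm_nonneg _)
    rw [le_div_iff₀ hR0, hP, ← mul_prod_erase univ _ (mem_univ j),
      ← mul_prod_erase univ (fun i => ‖z i‖ ^ t i) (mem_univ j), mul_right_comm]
    exact mul_le_mul hzj (prod_le_prod (fun i _ => pow_nonneg (norm_nonneg _) _) fun i _ => hle' i)
      (prod_nonneg fun i _ => pow_nonneg (norm_nonneg _) _) (pow_nonneg (norm_nonneg _) _)
  have h1 : c t * ∏ i, z i ^ t i = -∑ m ∈ S.erase t, c m * ∏ i, z i ^ m i := by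
    rw [eq_neg_iff_add_eq_zero, ← h]
    exact add_sum_erase S (fun m => c m * ∏ i, z i ^ m i) ht
  have h2 : ‖c t‖ * P ≤ (∑ m ∈ S.erase t, ‖c m‖) * (P / R) := by
    calc ‖c t‖ * P = ‖c t * ∏ i, z i ^ t i‖ := by
          rw [norm_mul, norm_prod]
          simp only [norm_pow]
          rfl
      _ = ‖∑ m ∈ S.erase t, c m * ∏ i, z i ^ m i‖ := by rw [h1, norm_neg]
      _ ≤ ∑ m ∈ S.erase t, ‖c m * ∏ i, z i ^ m i‖ := norm_sum_le _ _
      _ ≤ ∑ m ∈ S.erase t, ‖c m‖ * (P / R) := sum_le_sum hmon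
      _ = (∑ m ∈ S.erase t, ‖c m‖) * (P / R) := (sum_mul _ _ _).symm
  have h3 : (∑ m ∈ S.erase t, ‖c m‖) * (P / R) < ‖c t‖ * P := by
    calc (∑ m ∈ S.erase t, ‖c m‖) * (P / R) < (R * ‖c t‖) * (P / R) :=
          mul_lt_mul_of_pos_right hR (div_pos hP0 hR0)
      _ = ‖c t‖ * P := by field_simp
  exact absurd h2 (not_le.2 h3)

/-- **a bound for the conjugates**: two coordinates in a number field `L` containing the number field of
the coefficients are not both large at an embedding of `L` -/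
theorem exists_R {K : IntermediateField ℚ ℂ} [FiniteDimensional ℚ K] {f : MvPolynomial (Fin n) ℂ}
    {J : Finset (Fin n)} (hf1 : f.vars ⊆ J) (hf2 : ∀ m, f.coeff m ∈ K)
    (hf3 : f.coeff (Finsupp.equivFunOnFinite.symm fun i => f.degreeOf i) ≠ 0) :
    ∃ R : ℝ, 1 ≤ R ∧ ∀ L : IntermediateField ℚ ℂ, K ≤ L → ∀ (σ : L →+* ℂ) (z : Fin n → ℂ),
      eval z f = 0 → ∀ hz : ∀ i ∈ J, z i ∈ L, ∃ (i : Fin n) (hi : i ∈ J), ‖σ ⟨z i, hz i hi⟩‖ ≤ R := by
  classical
  have hNF : NumberField K := ⟨⟩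
  set t : Fin n →₀ ℕ := Finsupp.equivFunOnFinite.symm fun i => f.degreeOf i with ht
  have hti : ∀ i, t i = f.degreeOf i := fun i => rfl
  set cK : (Fin n →₀ ℕ) → K := fun m => ⟨f.coeff m, hf2 m⟩ with hcK
  have hct : cK t ≠ 0 := fun h => hf3 (congrArg Subtype.val h)
  have hnn : ∀ (τ : K →+* ℂ) (m : Fin n →₀ ℕ), 0 ≤ ‖τ (cK m)‖ / ‖τ (cK t)‖ := fun τ m =>
    div_nonneg (norm_nonneg _) (norm_nonneg _)
  set R : ℝ := 1 + ∑ τ : K →+* ℂ, ∑ m ∈ f.support.erase t, ‖τ (cK m)‖ / ‖τ (cK t)‖ with hR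
  have hR1 : 1 ≤ R := by
    rw [hR, le_add_iff_nonneg_right]
    exact sum_nonneg fun τ _ => sum_nonneg fun m _ => hnn τ m
  refine ⟨R, hR1, fun L hKL σ z hz0 hz => ?_⟩
  have hzero : ∀ i ∉ J, f.degreeOf i = 0 := fun i hi => by
    by_contra h
    exact hi (hf1 (mem_vars_iff_degreeOf_ne_zero.2 h))
  set τ : K →+* ℂ := σ.comp (IntermediateField.inclusion hKL).toRingHom with hτ
  set zL : Fin n → L := fun l => if h : z l ∈ L then ⟨z l, h⟩ else 0 with hzL
  have hzL' : ∀ (i : Fin n) (hi : i ∈ J), zL i = ⟨z i, hz i hi⟩ := fun i hi => by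
    rw [hzL]
    simp only
    rw [dif_pos (hz i hi)]
  set s : L := ∑ m ∈ f.support, (IntermediateField.inclusion hKL (cK m)) * ∏ l, zL l ^ m l with hs
  have hs0 : s = 0 := by
    apply Subtype.coe_injective
    change (s : ℂ) = 0
    rw [eval_eq'] at hz0
    rw [← hz0, hs]
    push_cast
    refine sum_congr rfl fun m hm => ?_
    congr 1
    refine prod_congr rfl fun l _ => ?_
    by_cases hl : l ∈ J
    · rw [hzL' l hl]
    · have h1 := monomial_le_degreeOf l hm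
      rw [hzero l hl] at h1
      rw [Nat.le_zero.1 h1, pow_zero, pow_zero]
  have hσ : ∑ m ∈ f.support, τ (cK m) * ∏ l, (σ (zL l)) ^ m l = 0 := by
    have h1 := congrArg σ hs0
    rw [map_zero, hs, map_sum] at h1
    rw [← h1]
    refine sum_congr rfl fun m _ => ?_
    rw [map_mul, map_prod]
    simp only [map_pow]
    rfl
  have hτt : 0 < ‖τ (cK t)‖ := norm_pos_iff.2 ((map_ne_zero τ).2 hct)
  obtain ⟨i, hi, hle⟩ := arch_dom (S := f.support) (c := fun m => τ (cK m)) (t := t)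
    (mem_support_iff.2 hf3) (fun m hm i => monomial_le_degreeOf i hm) (J := J)
    (fun i hi => by rw [hti, hzero i hi]) hR1 (by
      rw [← div_lt_iff₀ hτt, sum_div, hR]
      have h1 : ∑ m ∈ f.support.erase t, ‖τ (cK m)‖ / ‖τ (cK t)‖ ≤
          ∑ τ : K →+* ℂ, ∑ m ∈ f.support.erase t, ‖τ (cK m)‖ / ‖τ (cK t)‖ :=
        single_le_sum (f := fun τ : K →+* ℂ => ∑ m ∈ f.support.erase t, ‖τ (cK m)‖ / ‖τ (cK t)‖)
          (fun τ _ => sum_nonneg fun m _ => hnn τ m) (mem_univ τ)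
      linarith) hσ
  refine ⟨i, hi, ?_⟩
  rw [hzL' i hi] at hle
  exact hle

/-- **algebraic integers with bounded conjugates** in fields of bounded degree -/
theorem northcott (D : ℕ) (R : ℝ) : ∃ F : Set ℂ, F.Finite ∧ ∀ L : IntermediateField ℚ ℂ,
    FiniteDimensional ℚ L → Module.finrank ℚ L ≤ D → ∀ x : L, IsIntegral ℤ (x : ℂ) →
      (∀ σ : L →+* ℂ, ‖σ x‖ ≤ R) → (x : ℂ) ∈ F := by
  classical
  let C := Nat.ceil (max R 1 ^ D * 2 ^ D)
  refine ⟨_, Polynomial.bUnion_roots_finite (algebraMap ℤ ℂ) D (Set.finite_Icc (-C : ℤ) C), ?_⟩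
  intro L hL hLD x hx hxR
  have hNF : NumberField L := ⟨⟩
  have hxL : IsIntegral ℤ x := (isIntegral_algebraMap_iff (A := L) (B := ℂ) (algebraMap L ℂ).injective).1 hx
  have h_map := minpoly.isIntegrallyClosed_eq_field_fractions' ℚ hxL
  simp_rw [Set.mem_iUnion]
  refine ⟨minpoly ℤ x, ⟨?_, fun i => ?_⟩, ?_⟩
  · rw [← (minpoly.monic hxL).natDegree_map (algebraMap ℤ ℚ), ← h_map]
    exact (minpoly.natDegree_le x).trans hLD
  · rw [Set.mem_Icc, ← abs_le, ← @Int.cast_le ℝ]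
    have h1 := NumberField.Embeddings.coeff_bdd_of_norm_le (A := ℂ) hxR i
    have h2 : ‖(minpoly ℚ x).coeff i‖ = ((|(minpoly ℤ x).coeff i| : ℤ) : ℝ) := by
      rw [h_map, Polynomial.coeff_map, eq_intCast, Int.norm_cast_rat, Int.norm_eq_abs, Int.cast_abs]
    rw [h2] at h1
    refine (h1.trans ?_).trans (Nat.le_ceil _)
    have h3 : ((Module.finrank ℚ L).choose (Module.finrank ℚ L / 2) : ℝ) ≤ 2 ^ D := by
      have h4 : (Module.finrank ℚ L).choose (Module.finrank ℚ L / 2) ≤ 2 ^ D :=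
        (Nat.choose_le_two_pow _ _).trans (Nat.pow_le_pow_right (by norm_num) hLD)
      exact_mod_cast h4
    exact mul_le_mul (pow_le_pow_right₀ (le_max_right _ _) hLD) h3 (Nat.cast_nonneg _)
      (pow_nonneg (zero_le_one.trans (le_max_right _ _)) _)
  · rw [Finset.mem_coe, Multiset.mem_toFinset, Polynomial.mem_roots
      ((minpoly.monic hxL).map (algebraMap ℤ ℂ)).ne_zero, Polynomial.IsRoot.def, Polynomial.eval_map_algebraMap]
    have h5 : Polynomial.aeval (algebraMap L ℂ x) (minpoly ℤ x) = algebraMap L ℂ (Polynomial.aeval x (minpoly ℤ x)) :=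
      Polynomial.aeval_algebraMap_apply _ _ _
    rw [minpoly.aeval, map_zero] at h5
    exact h5

/-- the coordinates `i ∈ I` of `z` are special or isogenous to at least two others of them -/
def Linked (I : Finset (Fin n)) (z : Fin n → ℂ) : Prop :=
  ∀ i ∈ I, IsSpecialPoint (z i) ∨ ∃ T ⊆ I, i ∈ T ∧ 3 ≤ T.card ∧ ∀ a ∈ T, ∀ b ∈ T, a ≠ b → Related (z a) (z b)

lemma finite_const {C : Set (Fin n → ℂ)} (hC : IsSubvariety C) (h1 : dim C = 1)
    (hconst : ∀ (i : Fin n) (c : ℂ), ∃ x ∈ C, x i ≠ c) (i : Fin n) (c : ℂ) : {z ∈ C | z i = c}.Finite := by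
  classical
  have hf : (X i - MvPolynomial.C c : MvPolynomial (Fin n) ℂ) ∉ vanishingIdeal ℂ C := by
    intro hcon
    obtain ⟨x, hx, hxc⟩ := hconst i c
    have h2 := mem_van.1 hcon x hx
    rw [map_sub, eval_X, eval_C, sub_eq_zero] at h2
    exact hxc h2
  refine (finite_section hC h1.le hf).subset ?_
  rintro z ⟨hz, hzc⟩
  refine ⟨hz, ?_⟩
  change eval z _ = 0
  rw [map_sub, eval_X, eval_C, hzc, sub_self]

/-- **the places theorem** -/
theorem finite_places {C : Set (Fin n → ℂ)} (hC : IsSubvariety C) (h1 : dim C = 1)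
    (hCS : ∀ S : SpecialData n, dim S.carrier < n → ¬ C ⊆ S.carrier)
    (hconst : ∀ (i : Fin n) (c : ℂ), ∃ x ∈ C, x i ≠ c) {K : IntermediateField ℚ ℂ} [FiniteDimensional ℚ K]
    (hCK : PairPos K C) :
    {z ∈ C | ∃ (L : IntermediateField ℚ ℂ) (I : Finset (Fin n)), K ≤ L ∧ FiniteDimensional ℚ L ∧
      Nat.card (NumberField.InfinitePlace L) < I.card ∧ (∀ i ∈ I, z i ∈ L) ∧ Linked I z}.Finite := by
  classical
  have hKalg : ∀ x ∈ (K : Set ℂ), IsAlgebraic ℚ x := fun x hx =>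
    (IsIntegral.of_finite ℚ (⟨x, hx⟩ : K)).isAlgebraic.algebraMap (A := ℂ)
  -- the bound
  have hR' : ∀ ij : Fin n × Fin n, ∃ R : ℝ, 1 ≤ R ∧ (ij.1 ≠ ij.2 → ∀ L : IntermediateField ℚ ℂ, K ≤ L →
      ∀ (σ : L →+* ℂ) (z : Fin n → ℂ), z ∈ C → ∀ (hi : z ij.1 ∈ L) (hj : z ij.2 ∈ L),
        ‖σ ⟨z ij.1, hi⟩‖ ≤ R ∨ ‖σ ⟨z ij.2, hj⟩‖ ≤ R) := by
    rintro ⟨i, j⟩
    by_cases hij : i = j
    · exact ⟨1, le_rfl, fun h => absurd hij h⟩
    obtain ⟨f, hf1, hf2, hf3, hf4⟩ := hCK i j hij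
    obtain ⟨R, hR1, hR⟩ := exists_R (K := K) hf1 hf2 hf3
    refine ⟨R, hR1, fun _ L hKL σ z hz hi hj => ?_⟩
    obtain ⟨k, hk, hle⟩ := hR L hKL σ z (hf4 z hz) (by
      intro k hk
      rw [mem_insert, mem_singleton] at hk
      rcases hk with rfl | rfl
      · exact hi
      · exact hj)
    rcases mem_insert.1 hk with rfl | hk'
    · exact Or.inl hle
    · rw [mem_singleton] at hk'
      subst hk'
      exact Or.inr hle
  choose R' hR1 hR' using hR'
  set R : ℝ := ∑ ij : Fin n × Fin n, R' ij with hR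
  have hRle : ∀ ij, R' ij ≤ R := fun ij =>
    single_le_sum (f := R') (fun ij _ => zero_le_one.trans (hR1 ij)) (mem_univ ij)
  obtain ⟨F, hF, hnorth⟩ := northcott (2 * n) R
  refine ((finite_nonintegral hC h1 hCS hKalg hCK (2 * n)).union
    (Set.finite_iUnion fun i : Fin n => hF.biUnion fun c _ => finite_const hC h1 hconst i c)).subset ?_
  rintro z ⟨hz, L, I, hKL, hL, hcard, hzL, hlink⟩
  by_cases hz1 : z ∈ {z ∈ C | ∃ T : Finset (Fin n), 3 ≤ T.card ∧
      (∀ a ∈ T, ∀ b ∈ T, a ≠ b → Related (z a) (z b)) ∧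
      (∀ a ∈ T, IsAlgebraic ℚ (z a) ∧ (minpoly ℚ (z a)).natDegree ≤ 2 * n) ∧
      ∃ a ∈ T, ¬ IsIntegral ℤ (z a)}
  · exact Or.inl hz1
  right
  have hNF : NumberField L := ⟨⟩
  have hIn : I.card ≤ n := by
    have := card_le_univ I
    rwa [Fintype.card_fin] at this
  rw [Nat.card_eq_fintype_card] at hcard
  have hdeg : Module.finrank ℚ L ≤ 2 * n := by
    have h2 := NumberField.InfinitePlace.card_add_two_mul_card_eq_rank L
    have h3 := NumberField.InfinitePlace.card_eq_nrRealPlaces_add_nrComplexPlaces L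
    omega
  have hmin : ∀ i ∈ I, IsAlgebraic ℚ (z i) ∧ (minpoly ℚ (z i)).natDegree ≤ 2 * n := by
    intro i hi
    have h2 : IsIntegral ℚ (⟨z i, hzL i hi⟩ : L) := IsIntegral.of_finite ℚ _
    have h3 : minpoly ℚ (z i) = minpoly ℚ (⟨z i, hzL i hi⟩ : L) := by
      rw [← minpoly.algebraMap_eq (algebraMap L ℂ).injective (⟨z i, hzL i hi⟩ : L)]
      rfl
    refine ⟨h2.isAlgebraic.algebraMap (A := ℂ), ?_⟩
    rw [h3]
    exact (minpoly.natDegree_le _).trans hdeg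
  have hint : ∀ i ∈ I, IsIntegral ℤ (z i) := by
    intro i hi
    rcases hlink i hi with hsp | ⟨T, hTI, hiT, hT3, hrel⟩
    · exact hsp.isIntegral
    · by_contra hcon
      exact hz1 ⟨hz, T, hT3, hrel, fun a ha => hmin a (hTI ha), i, hiT, hcon⟩
  -- a bounded coordinate
  obtain ⟨i, hi, hbd⟩ : ∃ (i : Fin n) (hi : i ∈ I), ∀ σ : L →+* ℂ, ‖σ ⟨z i, hzL i hi⟩‖ ≤ R := by
    by_contra hcon
    push Not at hcon
    choose σ hσ using fun i : I => hcon i.1 i.2
    obtain ⟨i, -, j, -, hij, hw⟩ := Finset.exists_ne_map_eq_of_card_lt_of_maps_to (s := (univ : Finset I))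
      (t := (univ : Finset (NumberField.InfinitePlace L)))
      (by rw [card_univ, card_univ, Fintype.card_coe]; exact hcard)
      (f := fun i => NumberField.InfinitePlace.mk (σ i)) (fun i _ => mem_coe.2 (mem_univ _))
    have hij' : i.1 ≠ j.1 := fun h => hij (Subtype.ext h)
    have h2 : ‖σ i ⟨z j.1, hzL j.1 j.2⟩‖ = ‖σ j ⟨z j.1, hzL j.1 j.2⟩‖ := by
      rw [← NumberField.InfinitePlace.apply, ← NumberField.InfinitePlace.apply]
      exact congrArg (fun w : NumberField.InfinitePlace L => w ⟨z j.1, hzL j.1 j.2⟩) hw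
    rcases hR' (i.1, j.1) hij' L hKL (σ i) z hz (hzL i.1 i.2) (hzL j.1 j.2) with h | h
    · exact absurd (h.trans (hRle _)) (not_le.2 (hσ i))
    · simp only at h
      rw [h2] at h
      exact absurd (h.trans (hRle _)) (not_le.2 (hσ j))
  rw [Set.mem_iUnion]
  refine ⟨i, ?_⟩
  rw [Set.mem_iUnion₂]
  exact ⟨z i, hnorth L hL hdeg ⟨z i, hzL i hi⟩ (hint i hi) hbd, hz, rfl⟩

end Pool.Agent.Helper11.LC
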