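import Pool.Agent.Helper11.LC.Emb

/-! # Conjugates of the points of a curve in general position -/

open MvPolynomial Finset

namespace Pool.Agent.Helper11.LC
open Pool.Agent.Helper11.ZP Pool.Agent.Helper11.ZU Pool.Agent.Helper20.ZD Pool.Agent.Helper20.ZT
  Pool.Agent.Helper20.DL

variable {n : ℕ}

/-- the conjugate points of the points of `Z` have at most one coordinate which is not a unit -/
theorem corners_conj {Z : Set (Fin n → ℂ)} (hcor : CornerPos 1 Z) :
    ∃ M : ℕ, 0 < M ∧ ∀ v : AbsoluteValue ℂ ℝ, IsNonarchimedean v → v (M : ℂ) = 1 →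
      ∀ (A : Subring ℂ) (σ : A →+* ℂ), (∀ c, IsAlgebraic ℚ c → c ∈ A) → ∀ z ∈ Z, ∀ hz : ∀ i, z i ∈ A,
        ∀ i j, i ≠ j → v (σ ⟨z i, hz i⟩) = 1 ∨ v (σ ⟨z j, hz j⟩) = 1 := by
  classical
  have hZ' : ∀ J : Finset (Fin n), ∃ f : MvPolynomial (Fin n) ℂ, J.card = 1 + 1 → f.vars ⊆ J ∧
      (∀ m, IsAlgebraic ℚ (f.coeff m)) ∧ (∀ I ⊆ J, f.coeff (corner f I) ≠ 0) ∧ ∀ z ∈ Z, eval z f = 0 := by
    intro J
    by_cases h : J.card = 1 + 1
    · obtain ⟨f, hf⟩ := hcor J h
      exact ⟨f, fun _ => hf⟩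
    · exact ⟨0, fun h' => absurd h' h⟩
  choose f hf using hZ'
  have hm : ∀ (J : Finset (Fin n)) (k : Fin n →₀ ℕ), ∃ m : ℕ, 0 < m ∧ (J.card = 1 + 1 →
      ∀ v : AbsoluteValue ℂ ℝ, IsNonarchimedean v → v (m : ℂ) = 1 → ∀ c' : ℂ,
        (∀ P : Polynomial ℤ, Polynomial.aeval ((f J).coeff k) P = 0 → Polynomial.aeval c' P = 0) →
        v c' ≤ 1 ∧ ((f J).coeff k ≠ 0 → v c' = 1)) := by
    intro J k
    by_cases h : J.card = 1 + 1
    · obtain ⟨m, h1, h2⟩ := conj_unit ((hf J h).2.1 k)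
      exact ⟨m, h1, fun _ => h2⟩
    · exact ⟨1, one_pos, fun h' => absurd h' h⟩
  choose m hm0 hm using hm
  refine ⟨∏ J : Finset (Fin n), ∏ k ∈ (f J).support, m J k,
    prod_pos fun J _ => prod_pos fun k _ => hm0 J k, fun v hv hvm A σ hA z hz hzA i j hij => ?_⟩
  set J : Finset (Fin n) := {i, j} with hJdef
  have hJ : J.card = 1 + 1 := card_pair hij
  obtain ⟨h1, h2, h3, h4⟩ := hf J hJ
  have h5 := v_prod_nat hv _ _ hvm J (mem_univ J)
  have h6 := v_prod_nat hv _ _ h5
  have hconj : ∀ (c : ℂ) (hc : c ∈ A) (P : Polynomial ℤ), Polynomial.aeval c P = 0 →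
      Polynomial.aeval (σ ⟨c, hc⟩) P = 0 := by
    intro c hc P hP
    have h7 : Polynomial.aeval (⟨c, hc⟩ : A) P = 0 := by
      apply Subtype.ext
      have h8 := Polynomial.aeval_algebraMap_apply ℂ (⟨c, hc⟩ : A) P
      change _ = ((Polynomial.aeval (⟨c, hc⟩ : A) P : A) : ℂ) at h8
      rw [← h8]
      exact hP
    have h9 := congrArg σ h7
    rw [map_zero, Polynomial.aeval_def, Polynomial.hom_eval₂] at h9
    rw [Polynomial.aeval_def]
    convert h9 using 2
    exact RingHom.ext_int _ _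
  have hcA : ∀ k, (f J).coeff k ∈ A := fun k => hA _ (h2 k)
  set g : MvPolynomial (Fin n) ℂ := ∑ k ∈ (f J).support, monomial k (σ ⟨(f J).coeff k, hcA k⟩) with hg
  have hgc : ∀ k ∈ (f J).support, g.coeff k = σ ⟨(f J).coeff k, hcA k⟩ := by
    intro k hk
    rw [hg, coeff_sum, sum_eq_single k]
    · rw [coeff_monomial, if_pos rfl]
    · intro l _ hl
      rw [coeff_monomial, if_neg hl]
    · intro h; exact absurd hk h
  have hgc0 : ∀ k ∉ (f J).support, g.coeff k = 0 := by
    intro k hk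
    rw [hg, coeff_sum]
    refine sum_eq_zero fun l hl => ?_
    rw [coeff_monomial, if_neg]
    rintro rfl
    exact hk hl
  have hun : ∀ k ∈ (f J).support, v (g.coeff k) ≤ 1 ∧ ((f J).coeff k ≠ 0 → v (g.coeff k) = 1) := by
    intro k hk
    rw [hgc k hk]
    exact hm J k hJ v hv (h6 k hk) _ (hconj _ (hcA k))
  have hsupp : g.support = (f J).support := by
    ext k
    constructor
    · intro hk
      by_contra h
      exact mem_support_iff.1 hk (hgc0 k h)
    · intro hk
      rw [mem_support_iff]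
      intro h
      have h7 := (hun k hk).2 (mem_support_iff.1 hk)
      rw [h, map_zero] at h7
      exact zero_ne_one h7
  have hdeg : ∀ k, g.degreeOf k = (f J).degreeOf k := fun k => by
    rw [degreeOf_eq_sup, degreeOf_eq_sup, hsupp]
  have hcorner : ∀ I, corner g I = corner (f J) I := by
    intro I
    ext k
    simp only [corner, Finsupp.equivFunOnFinite_symm_apply_apply]
    rw [hdeg]
  have hUC : UnitCorners v J g := by
    refine ⟨fun k hk => h1 ?_, fun k => ?_, fun I hI => ?_⟩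
    · rw [mem_vars_iff_mem_support] at hk ⊢
      rw [hsupp] at hk
      exact hk
    · by_cases hk : k ∈ (f J).support
      · exact (hun k hk).1
      · rw [hgc0 k hk, map_zero]
        exact zero_le_one
    · have hk := h3 I hI
      rw [hcorner]
      exact (hun _ (mem_support_iff.2 hk)).2 hk
  have hev : eval (fun i => σ ⟨z i, hzA i⟩) g = 0 := by
    have h7 := h4 z hz
    rw [eval_eq'] at h7
    have h8 : (∑ k ∈ (f J).support, (⟨(f J).coeff k, hcA k⟩ : A) * ∏ i, (⟨z i, hzA i⟩ : A) ^ k i) = 0 := by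
      apply Subtype.ext
      push_cast
      exact h7
    have h9 := congrArg σ h8
    rw [map_zero, map_sum] at h9
    rw [← h9, hg, map_sum]
    refine sum_congr rfl fun k _ => ?_
    rw [eval_monomial, map_mul, map_prod, Finsupp.prod_fintype _ _ (by simp)]
    simp only [map_pow]
  obtain ⟨k, hk, hk2⟩ := exists_unit_coord hv hUC hev
  rw [hJdef, Finset.mem_insert, Finset.mem_singleton] at hk
  rcases hk with rfl | rfl
  · exact Or.inl hk2
  · exact Or.inr hk2

/-- the points of `Z` have at most one coordinate which is not a unit -/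
theorem corners_unit {Z : Set (Fin n → ℂ)} (hcor : CornerPos 1 Z) :
    ∃ M : ℕ, 0 < M ∧ ∀ v : AbsoluteValue ℂ ℝ, IsNonarchimedean v → v (M : ℂ) = 1 →
      ∀ z ∈ Z, ∀ i j, i ≠ j → v (z i) = 1 ∨ v (z j) = 1 := by
  obtain ⟨M, hM, h⟩ := corners_conj hcor
  exact ⟨M, hM, fun v hv hvM z hz i j hij => h v hv hvM ⊤ (Subring.subtype ⊤) (fun _ _ => Subring.mem_top _) z hz
    (fun _ => Subring.mem_top _) i j hij⟩

end Pool.Agent.Helper11.LC
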