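import Pool.Agent.Helper20.ZD.Bdd
import Pool.Agent.Helper36.ZU.Alg

/-! # Algebraic numbers of bounded degree near the cusp are isogeny-bounded -/

open UpperHalfPlane

namespace Pool.Agent.Helper11.LC
open Pool.Agent.Helper11.ZP Pool.Agent.Helper11.ZU Pool.Agent.Helper20.ZT Pool.Agent.Helper20.ZT.Prim
  Pool.Agent.Helper20.ZD

variable {v : AbsoluteValue ℂ ℝ}

lemma vring_val_eq (hv : IsNonarchimedean v) {x y : ℂ}
    (h : (vring v hv).valuation x = (vring v hv).valuation y) : v x = v y := by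
  have key : ∀ {x y : ℂ}, (vring v hv).valuation x = (vring v hv).valuation y → v x ≤ v y := by
    intro x y h
    by_cases hy : y = 0
    · rw [hy, map_zero, Valuation.zero_iff] at h
      rw [h, hy]
    · have h1 : x / y ∈ vring v hv := by
        rw [val_mem, map_div₀, h, div_self ((Valuation.ne_zero_iff _).2 hy)]
      have h2 := mem_vring.1 h1
      rwa [map_div₀, div_le_one ((AbsoluteValue.pos_iff v).2 hy)] at h2
  exact le_antisymm (key h) (key h.symm)

lemma v_rat (hv : IsNonarchimedean v) {p : ℕ} (hp : p.Prime) (hvp : v (p : ℂ) < 1) {r : ℚ} (hr : r ≠ 0) :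
    ∃ k : ℤ, v ((r : ℚ) : ℂ) = v (p : ℂ) ^ k := by
  have hpO : (p : ℂ) ∈ (vring v hv).nonunits := by
    rw [val_non]
    have h0 : (p : ℂ) ≠ 0 := by exact_mod_cast hp.ne_zero
    have h1 : (p : ℂ)⁻¹ ∉ vring v hv := by
      intro h
      have h2 := mem_vring.1 h
      rw [map_inv₀] at h2
      exact absurd h2 (not_le.2 ((one_lt_inv₀ ((AbsoluteValue.pos_iff v).2 h0)).2 hvp))
    rw [val_mem, map_inv₀, not_le] at h1
    exact (one_lt_inv₀ (zero_lt_iff.2 ((Valuation.ne_zero_iff _).2 h0))).1 h1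
  obtain ⟨k, hk⟩ := Helper36.ZU.rat_val (vring v hv) hp hpO hr
  refine ⟨k, ?_⟩
  rw [← map_zpow₀] at hk ⊢
  exact vring_val_eq hv hk

/-- **the absolute value of an algebraic number of bounded degree** -/
theorem v_alg (hv : IsNonarchimedean v) {p : ℕ} (hp : p.Prime) (hvp : v (p : ℂ) < 1) {x : ℂ}
    (hx : x ≠ 0) (halg : IsAlgebraic ℚ x) {D : ℕ} (hD : (minpoly ℚ x).natDegree ≤ D) :
    ∃ (k : ℕ) (l : ℤ), 0 < k ∧ k ≤ D ∧ v x ^ k = v (p : ℂ) ^ l := by
  have hint : IsIntegral ℚ x := halg.isIntegral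
  have hroot := minpoly.aeval ℚ x
  rw [Polynomial.aeval_eq_sum_range] at hroot
  have hp0 : v (p : ℂ) ≠ 0 := (AbsoluteValue.ne_zero_iff v).2 (by exact_mod_cast hp.ne_zero)
  obtain ⟨i, hi, j, hj, hij, hval, hne⟩ := Helper36.ZU.exists_two (vring v hv) hroot
    ⟨(minpoly ℚ x).natDegree, by simp, by
      rw [(minpoly.monic hint).coeff_natDegree, one_smul]
      exact pow_ne_zero _ hx⟩
  wlog hlt : i < j generalizing i j
  · refine this j hj i hi hij.symm hval.symm ?_ (by omega)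
    rw [← Valuation.ne_zero_iff (vring v hv).valuation, ← hval, Valuation.ne_zero_iff]
    exact hne
  have hnej : (minpoly ℚ x).coeff j • x ^ j ≠ 0 := by
    rw [← Valuation.ne_zero_iff (vring v hv).valuation, ← hval, Valuation.ne_zero_iff]
    exact hne
  have hcoi : (minpoly ℚ x).coeff i ≠ 0 := fun h => hne (by rw [h, zero_smul])
  have hcoj : (minpoly ℚ x).coeff j ≠ 0 := fun h => hnej (by rw [h, zero_smul])
  have h1 := vring_val_eq hv hval
  rw [Rat.smul_def, Rat.smul_def, map_mul, map_mul, map_pow, map_pow] at h1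
  obtain ⟨k, hk⟩ := v_rat hv hp hvp hcoi
  obtain ⟨l, hl⟩ := v_rat hv hp hvp hcoj
  rw [hk, hl] at h1
  have hv0 : v x ≠ 0 := (AbsoluteValue.ne_zero_iff v).2 hx
  have hjD : j ≤ (minpoly ℚ x).natDegree := by
    have := Finset.mem_range.1 hj
    omega
  refine ⟨j - i, k - l, by omega, by omega, ?_⟩
  rw [zpow_sub₀ hp0, eq_div_iff (zpow_ne_zero _ hp0)]
  apply mul_left_cancel₀ (pow_ne_zero i hv0)
  rw [← mul_assoc, ← pow_add, show i + (j - i) = j by omega, mul_comm, ← h1, mul_comm]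

/-- algebraic numbers of degree at most `D` are not too close to the unit circle -/
theorem v_alg_gap (hv : IsNonarchimedean v) {p : ℕ} (hp : p.Prime) (hvp : v (p : ℂ) < 1) {x : ℂ}
    (halg : IsAlgebraic ℚ x) {D : ℕ} (hD : (minpoly ℚ x).natDegree ≤ D) (hx : v x < 1) :
    v x ^ D ≤ v (p : ℂ) := by
  by_cases hx0 : x = 0
  · rw [hx0, map_zero]
    have hD0 : D ≠ 0 := by
      have := minpoly.natDegree_pos halg.isIntegral
      omega
    rw [zero_pow hD0]
    exact AbsoluteValue.nonneg v _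
  have hv0 : 0 < v x := (AbsoluteValue.pos_iff v).2 hx0
  have hp0 : 0 < v (p : ℂ) := (AbsoluteValue.pos_iff v).2 (by exact_mod_cast hp.ne_zero)
  obtain ⟨k, l, hk, hkD, h⟩ := v_alg hv hp hvp hx0 halg hD
  have hlt : v x ^ k < 1 := pow_lt_one₀ hv0.le hx hk.ne'
  have hl : 0 < l := by
    by_contra hcon
    push Not at hcon
    have h1 : 1 ≤ v (p : ℂ) ^ l := by
      obtain ⟨m, hm⟩ := Int.eq_ofNat_of_zero_le (neg_nonneg.2 hcon)
      rw [show l = -(m : ℤ) by omega, zpow_neg, zpow_natCast]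
      exact (one_le_inv₀ (pow_pos hp0 _)).2 (pow_le_one₀ hp0.le hvp.le)
    rw [h] at hlt
    exact absurd hlt (not_lt.2 h1)
  obtain ⟨m, hm⟩ := Int.eq_ofNat_of_zero_le hl.le
  rw [hm, zpow_natCast] at h
  calc v x ^ D ≤ v x ^ k := pow_le_pow_of_le_one hv0.le hx.le hkD
    _ = v (p : ℂ) ^ m := h
    _ ≤ v (p : ℂ) ^ 1 := pow_le_pow_of_le_one hp0.le hvp.le (by omega)
    _ = v (p : ℂ) := pow_one _

/-- a number less than one whose powers are not too small -/
lemma exists_rho {a : ℝ} (ha0 : 0 ≤ a) (ha : a < 1) (D : ℕ) : ∃ ρ : ℝ, 0 ≤ ρ ∧ ρ < 1 ∧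
    ∀ t : ℝ, 0 ≤ t → t ^ D ≤ a → t ≤ ρ := by
  rcases Nat.eq_zero_or_pos D with hD | hD
  · refine ⟨0, le_rfl, one_pos, fun t _ h => ?_⟩
    rw [hD, pow_zero] at h
    exact absurd h (not_le.2 ha)
  · have hD' : (0 : ℝ) < D := by exact_mod_cast hD
    have hD1 : (1 : ℝ) ≤ D := by exact_mod_cast hD
    set s : ℝ := (1 - a) / D with hs
    have hs0 : 0 < s := div_pos (by linarith) hD'
    have hs1 : s ≤ 1 := by
      rw [hs, div_le_one hD']
      linarith
    refine ⟨1 - s, by linarith, by linarith, fun t ht h => ?_⟩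
    by_contra hcon
    push Not at hcon
    have h1 : a ≤ (1 - s) ^ D := by
      have h2 := one_add_mul_le_pow (a := -s) (by linarith) D
      have h3 : 1 + (D : ℝ) * -s = a := by
        rw [hs]; field_simp; ring
      rw [h3] at h2
      rwa [← sub_eq_add_neg] at h2
    have h4 : (1 - s) ^ D < t ^ D := pow_lt_pow_left₀ hcon (by linarith) hD.ne'
    linarith

/-- an integral polynomial of bounded degree, not divisible by `p` -/
lemma exists_primitive {u : ℂ} (halg : IsAlgebraic ℚ u) : ∃ P : Polynomial ℤ, P.IsPrimitive ∧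
    P.natDegree ≤ (minpoly ℚ u).natDegree ∧ Polynomial.aeval u P = 0 := by
  set Q := IsLocalization.integerNormalization (nonZeroDivisors ℤ) (minpoly ℚ u) with hQ
  have hQ0 : Q ≠ 0 := by
    rw [hQ, Ne, IsFractionRing.integerNormalization_eq_zero_iff]
    exact minpoly.ne_zero halg.isIntegral
  have h1 : Polynomial.aeval u Q = 0 :=
    IsLocalization.integerNormalization_aeval_eq_zero (nonZeroDivisors ℤ) _ (minpoly.aeval ℚ u)
  refine ⟨Q.primPart, Q.isPrimitive_primPart, ?_, Polynomial.aeval_primPart_eq_zero hQ0 h1⟩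
  rw [Polynomial.natDegree_primPart]
  refine Polynomial.natDegree_le_natDegree (Polynomial.degree_mono ?_)
  exact IsLocalization.integerNormalization_support _ _

/-- an element algebraic of degree at most `E` over `ZMod p` is a root of unity of bounded order -/
lemma pow_eq_one_of_root {k : Type*} [Field k] {p : ℕ} [hp : Fact p.Prime] [Algebra (ZMod p) k] {u : k}
    (hu : u ≠ 0) {P : Polynomial (ZMod p)} (hP : P ≠ 0) (h : Polynomial.aeval u P = 0) {E : ℕ}
    (hE : P.natDegree ≤ E) : u ^ (∏ f ∈ Finset.Icc 1 E, (p ^ f - 1)) = 1 := by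
  classical
  have halg : IsAlgebraic (ZMod p) u := ⟨P, hP, h⟩
  have hint : IsIntegral (ZMod p) u := halg.isIntegral
  let F := IntermediateField.adjoin (ZMod p) ({u} : Set k)
  have hfin : FiniteDimensional (ZMod p) F := IntermediateField.adjoin.finiteDimensional hint
  have hFfin : Finite F := Module.finite_of_finite (ZMod p)
  have : Fintype F := Fintype.ofFinite F
  have hfr : Module.finrank (ZMod p) F = (minpoly (ZMod p) u).natDegree := IntermediateField.adjoin.finrank hint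
  have hcard : Fintype.card F = p ^ (minpoly (ZMod p) u).natDegree := by
    rw [← hfr, Module.card_eq_pow_finrank (K := ZMod p) (V := F), ZMod.card]
  have hdeg : (minpoly (ZMod p) u).natDegree ≤ E :=
    (Polynomial.natDegree_le_of_dvd (minpoly.dvd _ _ h) hP).trans hE
  have hpos : 0 < (minpoly (ZMod p) u).natDegree := minpoly.natDegree_pos hint
  let u' : F := ⟨u, IntermediateField.mem_adjoin_simple_self _ _⟩
  have hu' : u' ≠ 0 := fun h0 => hu (congrArg Subtype.val h0)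
  have h1 := FiniteField.pow_card_sub_one_eq_one u' hu'
  rw [hcard] at h1
  have h2 : u ^ (p ^ (minpoly (ZMod p) u).natDegree - 1) = 1 := congrArg Subtype.val h1
  obtain ⟨c, hc⟩ := Finset.dvd_prod_of_mem (fun f => p ^ f - 1)
    (Finset.mem_Icc.2 ⟨hpos, hdeg⟩ : (minpoly (ZMod p) u).natDegree ∈ Finset.Icc 1 E)
  rw [hc, pow_mul, h2, one_pow]

/-- **residues of algebraic numbers of bounded degree** -/
theorem residue_bound (hv : IsNonarchimedean v) {p : ℕ} (hp : p.Prime) (hvp : v (p : ℂ) < 1) {u : ℂ}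
    (halg : IsAlgebraic ℚ u) {E : ℕ} (hE : (minpoly ℚ u).natDegree ≤ E) (hu : v u = 1) :
    v (u ^ (∏ f ∈ Finset.Icc 1 E, (p ^ f - 1)) - 1) < 1 := by
  have := Fact.mk hp
  set O := vring v hv with hO
  let k := IsLocalRing.ResidueField O
  have hmem : ∀ {x : ℂ} (hx : x ∈ O), IsLocalRing.residue O ⟨x, hx⟩ = 0 ↔ v x < 1 := by
    intro x hx
    rw [IsLocalRing.residue_eq_zero_iff, ← ValuationSubring.coe_mem_nonunits_iff]
    change x ∈ O.nonunits ↔ _
    rw [val_non]
    by_cases hx0 : x = 0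
    · rw [hx0]; simp
    have h1 : O.valuation x < 1 ↔ x⁻¹ ∉ O := by
      rw [val_mem, map_inv₀, not_le, one_lt_inv₀ (zero_lt_iff.2 ((Valuation.ne_zero_iff _).2 hx0))]
    rw [h1, hO, mem_vring, map_inv₀, not_le, one_lt_inv₀ ((AbsoluteValue.pos_iff v).2 hx0)]
  have hpk : (p : k) = 0 := by
    have h1 : ((p : ℕ) : k) = IsLocalRing.residue O ⟨(p : ℂ), natCast_mem O p⟩ := by
      rw [show (⟨(p : ℂ), natCast_mem O p⟩ : O) = ((p : ℕ) : O) from rfl, map_natCast]
    rw [h1, hmem]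
    exact hvp
  have hchar : CharP k p := (CharP.charP_iff_prime_eq_zero hp).2 hpk
  let alg : Algebra (ZMod p) k := ZMod.algebra k p
  obtain ⟨P, hP, hdeg, hroot⟩ := exists_primitive halg
  have huO : u ∈ O := hu.le
  set w : k := IsLocalRing.residue O ⟨u, huO⟩ with hw
  have hw0 : w ≠ 0 := by
    rw [Ne, hw, hmem]
    exact not_lt.2 hu.ge
  have hPb : P.map (Int.castRingHom (ZMod p)) ≠ 0 := by
    intro h0
    have h1 : (Polynomial.C (p : ℤ)) ∣ P := by
      rw [Polynomial.C_dvd_iff_dvd_coeff]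
      intro i
      have h2 := congrArg (fun q => Polynomial.coeff q i) h0
      simp only [Polynomial.coeff_map, Polynomial.coeff_zero, eq_intCast] at h2
      exact (ZMod.intCast_zmod_eq_zero_iff_dvd _ _).1 h2
    have h3 := hP (p : ℤ) h1
    rw [Int.isUnit_iff] at h3
    have := hp.one_lt
    omega
  have hroot' : Polynomial.aeval w (P.map (Int.castRingHom (ZMod p))) = 0 := by
    have h1 : Polynomial.aeval (⟨u, huO⟩ : O) P = 0 := by
      have h2 : ((Polynomial.aeval (⟨u, huO⟩ : O) P : O) : ℂ) = Polynomial.aeval u P := by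
        rw [Polynomial.aeval_def, Polynomial.aeval_def, Polynomial.eval₂_eq_sum_range,
          Polynomial.eval₂_eq_sum_range]
        push_cast
        simp
      apply Subtype.coe_injective
      exact h2.trans hroot
    have h3 := congrArg (IsLocalRing.residue O) h1
    rw [map_zero, Polynomial.aeval_def, Polynomial.hom_eval₂] at h3
    rw [Polynomial.aeval_def, Polynomial.eval₂_map]
    rw [← h3]
    congr 1
    exact RingHom.ext_int _ _
  have hfin := pow_eq_one_of_root hw0 hPb hroot' (E := E)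
    ((Polynomial.natDegree_map_le).trans (hdeg.trans hE))
  set q := ∏ f ∈ Finset.Icc 1 E, (p ^ f - 1) with hq
  have hO1 : u ^ q - 1 ∈ O := sub_mem (pow_mem huO _) (one_mem O)
  rw [← hmem hO1]
  have h5 : (⟨u ^ q - 1, hO1⟩ : O) = (⟨u, huO⟩ : O) ^ q - 1 := Subtype.coe_injective (by simp)
  rw [h5, map_sub, map_pow, map_one, ← hw, hfin, sub_self]

/-- two elements of degree at most `D` generate an extension of degree at most `D * D` -/
lemma degree_sup {x y : ℂ} (hx : IsAlgebraic ℚ x) (hy : IsAlgebraic ℚ y) {D : ℕ}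
    (hDx : (minpoly ℚ x).natDegree ≤ D) (hDy : (minpoly ℚ y).natDegree ≤ D) {u : ℂ}
    (hu : u ∈ IntermediateField.adjoin ℚ {x} ⊔ IntermediateField.adjoin ℚ {y}) :
    IsAlgebraic ℚ u ∧ (minpoly ℚ u).natDegree ≤ D * D := by
  have h1 : FiniteDimensional ℚ (IntermediateField.adjoin ℚ {x}) :=
    IntermediateField.adjoin.finiteDimensional hx.isIntegral
  have h2 : FiniteDimensional ℚ (IntermediateField.adjoin ℚ {y}) :=
    IntermediateField.adjoin.finiteDimensional hy.isIntegral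
  set L := IntermediateField.adjoin ℚ {x} ⊔ IntermediateField.adjoin ℚ {y} with hL
  have h3 : FiniteDimensional ℚ L := IntermediateField.finiteDimensional_sup _ _
  have h4 : Module.finrank ℚ L ≤ D * D := by
    refine (IntermediateField.finrank_sup_le _ _).trans ?_
    rw [IntermediateField.adjoin.finrank hx.isIntegral, IntermediateField.adjoin.finrank hy.isIntegral]
    exact Nat.mul_le_mul hDx hDy
  have h5 : IsIntegral ℚ (⟨u, hu⟩ : L) := IsIntegral.of_finite ℚ _
  have h6 : minpoly ℚ u = minpoly ℚ (⟨u, hu⟩ : L) := by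
    rw [← minpoly.algebraMap_eq (algebraMap L ℂ).injective (⟨u, hu⟩ : L)]
    rfl
  refine ⟨(h5.map (IsScalarTower.toAlgHom ℚ L ℂ)).isAlgebraic, ?_⟩
  rw [h6]
  exact (minpoly.natDegree_le _).trans h4

/-- the exponent of a number greater than one is positive -/
lemma exp_nat {c t : ℝ} (hc0 : 0 < c) (hc : c < 1) (ht : 1 < t) {a : ℤ} (h : t = c ^ a) :
    ∃ m : ℕ, 0 < m ∧ t = c⁻¹ ^ m := by
  have ha : a < 0 := by
    by_contra hcon
    push Not at hcon
    obtain ⟨m, hm⟩ := Int.eq_ofNat_of_zero_le hcon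
    rw [hm, zpow_natCast] at h
    have h1 : c ^ m ≤ 1 := pow_le_one₀ hc0.le hc.le
    linarith
  obtain ⟨m, hm⟩ := Int.eq_ofNat_of_zero_le (neg_nonneg.2 ha.le)
  refine ⟨m, by omega, ?_⟩
  rw [h, show a = -(m : ℤ) by omega, zpow_neg, zpow_natCast, inv_pow]

/-- **the exponents are bounded** -/
lemma exp_bound {p : ℕ} (hvp0 : 0 < v (p : ℂ)) (hvp : v (p : ℂ) < 1) {D : ℕ} {R : ℝ} {A : ℕ}
    (hA : ∀ k : ℕ, k ≤ D → R ^ k < (v (p : ℂ))⁻¹ ^ A) {x y : ℂ} (hx1 : 1 < v x) (hy1 : 1 < v y)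
    (hyR : v y ≤ R) {e f : ℕ} (hcop : Nat.Coprime e f)
    (hef : v x ^ f = v y ^ e) {k l : ℕ} (hk : 0 < k) (hkD : k ≤ D)
    {a b : ℤ} (ha : v x ^ k = v (p : ℂ) ^ a) (hl : 0 < l) (hlD : l ≤ D) (hb : v y ^ l = v (p : ℂ) ^ b) :
    f ≤ A * D := by
  obtain ⟨a', ha', hxa⟩ := exp_nat hvp0 hvp (one_lt_pow₀ hx1 hk.ne') ha
  obtain ⟨b', hb', hyb⟩ := exp_nat hvp0 hvp (one_lt_pow₀ hy1 hl.ne') hb
  have hP : 1 < (v (p : ℂ))⁻¹ := (one_lt_inv₀ hvp0).2 hvp
  have h1 : (v (p : ℂ))⁻¹ ^ (a' * (f * l)) = (v (p : ℂ))⁻¹ ^ (b' * (e * k)) := by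
    rw [pow_mul, ← hxa, pow_mul _ b', ← hyb, ← pow_mul, ← pow_mul,
      show k * (f * l) = f * (k * l) by ring, show l * (e * k) = e * (k * l) by ring, pow_mul, hef, ← pow_mul]
  have h2 : a' * (f * l) = b' * (e * k) := pow_right_injective₀ (zero_lt_one.trans hP) hP.ne' h1
  have h3' : f ∣ e * (b' * k) := ⟨a' * l, by
    rw [show e * (b' * k) = b' * (e * k) by ring, ← h2]
    ring⟩
  have h3 : f ∣ b' * k := hcop.symm.dvd_of_dvd_mul_left h3'
  have h4 : b' < A := by
    have h5 : (v (p : ℂ))⁻¹ ^ b' < (v (p : ℂ))⁻¹ ^ A := by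
      rw [← hyb]
      exact (pow_le_pow_left₀ (zero_lt_one.trans hy1).le hyR l).trans_lt (hA l hlD)
    exact (pow_lt_pow_iff_right₀ hP).1 h5
  exact (Nat.le_of_dvd (Nat.mul_pos hb' hk) h3).trans (Nat.mul_le_mul h4.le hkD)

/-- **algebraic numbers of bounded degree near the cusp are isogeny-bounded** -/
theorem isogenyBounded_deg (v : AbsoluteValue ℂ ℝ) (hv : IsNonarchimedean v) {p : ℕ} (hp : p.Prime)
    (hvp : v (p : ℂ) < 1) (D : ℕ) (R : ℝ) :
    IsogenyBounded {x : ℂ | IsAlgebraic ℚ x ∧ (minpoly ℚ x).natDegree ≤ D ∧ 1 < v x ∧ v x ≤ R} := by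
  constructor
  · rintro x ⟨-, -, hx, -⟩ hsp
    have h1 : x ∈ vring v hv := mem_of_isIntegral_int _ hsp.isIntegral
    rw [mem_vring] at h1
    linarith
  have hp0 : 0 < v (p : ℂ) := (AbsoluteValue.pos_iff v).2 (by exact_mod_cast hp.ne_zero)
  have hP : 1 < (v (p : ℂ))⁻¹ := (one_lt_inv₀ hp0).2 hvp
  obtain ⟨A, hA⟩ : ∃ A : ℕ, ∀ k : ℕ, k ≤ D → R ^ k < (v (p : ℂ))⁻¹ ^ A := by
    obtain ⟨A, hA⟩ := pow_unbounded_of_one_lt (max 1 |R| ^ D) hP
    refine ⟨A, fun k hk => lt_of_le_of_lt ?_ hA⟩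
    calc R ^ k ≤ |R ^ k| := le_abs_self _
      _ = |R| ^ k := abs_pow _ _
      _ ≤ max 1 |R| ^ k := pow_le_pow_left₀ (abs_nonneg _) (le_max_right _ _) _
      _ ≤ max 1 |R| ^ D := pow_le_pow_right₀ (le_max_left _ _) hk
  obtain ⟨ρ₀, hρ₀0, hρ₀1, hρ₀⟩ := exists_rho hp0.le hvp D
  obtain ⟨ρ₁, hρ₁0, hρ₁1, hρ₁⟩ := exists_rho hp0.le hvp (D * D)
  obtain ⟨H, hH⟩ := order_bound_one v hv (max_lt hρ₀1 hρ₁1)
  set q := ∏ f ∈ Finset.Icc 1 (D * D), (p ^ f - 1) with hq
  have hqpos : 0 < q := by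
    refine Finset.prod_pos fun f hf => ?_
    have h1 : 1 < p ^ f := Nat.one_lt_pow (by have := (Finset.mem_Icc.1 hf).1; omega) hp.one_lt
    omega
  refine ⟨(A * D) * (A * D) * (q * H) ^ 2, ?_⟩
  rintro x ⟨hxa, hxD, hx1, hxR⟩ y ⟨hya, hyD, hy1, hyR⟩ N h
  rcases Nat.eq_zero_or_pos N with hN | hN
  · rw [hN]; exact Nat.zero_le _
  obtain ⟨e, f, g, ζ, he, hf, hcop, hg, hef, hNe, hζ, hnear⟩ :=
    pair_shape (ρ := 0) hv zero_lt_one hx1 hy1 hN (by simp) (by simp) h
  have hx0 : x ≠ 0 := by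
    rintro rfl
    rw [map_zero] at hx1
    exact absurd hx1 (not_lt.2 zero_le_one)
  have hy0 : y ≠ 0 := by
    rintro rfl
    rw [map_zero] at hy1
    exact absurd hy1 (not_lt.2 zero_le_one)
  obtain ⟨k, a, hk, hkD, hka⟩ := v_alg hv hp hvp hx0 hxa hxD
  obtain ⟨l, b, hl, hlD, hlb⟩ := v_alg hv hp hvp hy0 hya hyD
  have hfle : f ≤ A * D := exp_bound hp0 hvp hA hx1 hy1 hyR hcop hef hk hkD hka hl hlD hlb
  have hele : e ≤ A * D := exp_bound hp0 hvp hA hy1 hx1 hxR hcop.symm hef.symm hl hlD hlb hk hkD hka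
  -- the root of unity
  set u := x ^ f / y ^ e with hu
  have hvu : v u = 1 := by
    rw [hu, map_div₀, map_pow, map_pow, hef, div_self]
    exact pow_ne_zero _ ((AbsoluteValue.ne_zero_iff v).2 hy0)
  have hxm : x ∈ IntermediateField.adjoin ℚ {x} ⊔ IntermediateField.adjoin ℚ {y} :=
    (le_sup_left : IntermediateField.adjoin ℚ {x} ≤ _) (IntermediateField.mem_adjoin_simple_self _ _)
  have hym : y ∈ IntermediateField.adjoin ℚ {x} ⊔ IntermediateField.adjoin ℚ {y} :=
    (le_sup_right : IntermediateField.adjoin ℚ {y} ≤ _) (IntermediateField.mem_adjoin_simple_self _ _)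
  have hum : u ∈ IntermediateField.adjoin ℚ {x} ⊔ IntermediateField.adjoin ℚ {y} :=
    div_mem (pow_mem hxm _) (pow_mem hym _)
  obtain ⟨hua, huD⟩ := degree_sup hxa hya hxD hyD hum
  obtain ⟨hwa, hwD⟩ := degree_sup hxa hya hxD hyD (sub_mem (pow_mem hum q) (one_mem _))
  have h1 : v (u ^ q - 1) ≤ ρ₁ :=
    hρ₁ _ (AbsoluteValue.nonneg v _) (v_alg_gap hv hp hvp hwa hwD (residue_bound hv hp hvp hua huD hvu))
  have hinv : ∀ {z : ℂ}, IsAlgebraic ℚ z → (minpoly ℚ z).natDegree ≤ D → 1 < v z → (v z)⁻¹ ≤ ρ₀ := by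
    intro z hz hzD hz1
    have h2 : v z⁻¹ ≤ ρ₀ := by
      refine hρ₀ _ (AbsoluteValue.nonneg v _) (v_alg_gap hv hp hvp hz.inv ?_ ?_)
      · have h3 : IntermediateField.adjoin ℚ {z⁻¹} ≤ IntermediateField.adjoin ℚ {z} := by
          rw [IntermediateField.adjoin_simple_le_iff]
          exact inv_mem (IntermediateField.mem_adjoin_simple_self _ _)
        have h4 : FiniteDimensional ℚ (IntermediateField.adjoin ℚ {z}) :=
          IntermediateField.adjoin.finiteDimensional hz.isIntegral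
        have h5 := LinearMap.finrank_le_finrank_of_injective
          (f := (IntermediateField.inclusion h3).toLinearMap) (IntermediateField.inclusion_injective h3)
        rw [IntermediateField.adjoin.finrank hz.isIntegral,
          IntermediateField.adjoin.finrank hz.inv.isIntegral] at h5
        exact h5.trans hzD
      · rw [map_inv₀]
        exact inv_lt_one_of_one_lt₀ hz1
    rwa [map_inv₀] at h2
  have h2 : v (ζ - u) ≤ ρ₀ := by
    refine hnear.trans (max_le hρ₀0 (max_le (hinv hxa hxD hx1) (hinv hya hyD hy1)))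
  have hu0 : u ≠ 0 := by
    intro h0
    rw [h0, map_zero] at hvu
    exact zero_ne_one hvu
  have hvζ : v ζ = 1 := val_root hg hζ.pow_eq_one
  have h3 : v ((ζ / u) ^ q - 1) ≤ ρ₀ := by
    refine (val_pow_sub_one hv (by rw [map_div₀, hvζ, hvu, div_one]) q).trans ?_
    rw [show ζ / u - 1 = (ζ - u) / u by field_simp, map_div₀, hvu, div_one]
    exact h2
  have h4 : v (ζ ^ q - 1) ≤ max ρ₀ ρ₁ := by
    have h5 : ζ ^ q - 1 = ((ζ / u) ^ q - 1) * u ^ q + (u ^ q - 1) := by
      rw [div_pow]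
      field_simp
      ring
    rw [h5]
    refine (hv _ _).trans (max_le_max ?_ h1)
    rw [map_mul, map_pow, hvu, one_pow, mul_one]
    exact h3
  have h5 : ζ ^ q ≠ 0 := pow_ne_zero _ (hζ.ne_zero hg.ne')
  have h6 : IsOfFinOrder (ζ ^ q) := by
    rw [isOfFinOrder_iff_pow_eq_one]
    exact ⟨g, hg, by rw [← pow_mul, mul_comm, pow_mul, hζ.pow_eq_one, one_pow]⟩
  have h7 := hH (ζ ^ q) (orderOf (ζ ^ q)) h6.orderOf_pos (IsPrimitiveRoot.orderOf _) h4
  have h8 : g ≤ q * H := by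
    have h9 : g ∣ q * orderOf (ζ ^ q) := by
      refine hζ.dvd_of_pow_eq_one _ ?_
      rw [pow_mul, pow_orderOf_eq_one]
    exact (Nat.le_of_dvd (Nat.mul_pos hqpos h6.orderOf_pos) h9).trans (Nat.mul_le_mul le_rfl h7)
  rw [hNe]
  exact Nat.mul_le_mul (Nat.mul_le_mul hele hfle) (Nat.pow_le_pow_left h8 2)

end Pool.Agent.Helper11.LC
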