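import Pool.Agent.Helper11.LC.Arch
import Pool.Agent.Helper11.ZT.ExCurve

/-! # The places theorem: final form -/

open MvPolynomial Finset

namespace Pool.Agent.Helper11.LC
open Pool.Agent.Helper11.ZP Pool.Agent.Helper11.ZU Pool.Agent.Helper20.ZD Pool.Agent.Helper20.ZT Pool.Agent

variable {n : ℕ}

/-- a curve in general position at the cusps without constant coordinates is not contained in a proper
special subvariety -/
theorem not_special_of_pos {C : Set (Fin n → ℂ)} (hC : IsSubvariety C) (h1 : dim C = 1)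
    (hconst : ∀ (i : Fin n) (c : ℂ), ∃ x ∈ C, x i ≠ c) {K : Set ℂ} (hK : ∀ x ∈ K, IsAlgebraic ℚ x)
    (hCK : PairPos K C) (S : SpecialData n) (hS : dim S.carrier < n) : ¬ C ⊆ S.carrier := by
  classical
  intro hCS
  obtain ⟨A, hA, hden⟩ := exists_den hK hCK
  have hcls : ∀ i, ∃ s, S.cls i = some s := by
    intro i
    rcases h : S.cls i with _ | s
    · obtain ⟨x, hx, hx2⟩ := hconst i (S.c i)
      exact absurd ((hCS hx).1 i h) hx2
    · exact ⟨s, rfl⟩
  choose s hs using hcls
  have hr := S.le_dim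
  obtain ⟨i, -, j, -, hij, hsij⟩ := Finset.exists_ne_map_eq_of_card_lt_of_maps_to
    (s := (univ : Finset (Fin n))) (t := (univ : Finset (Fin S.r)))
    (by rw [card_univ, card_univ, Fintype.card_fin, Fintype.card_fin]; omega)
    (f := s) (fun i _ => mem_coe.2 (mem_univ _))
  obtain ⟨N, hN, h⟩ := class_isog S (hs i) (by rw [hsij]; exact hs j)
  obtain ⟨N', hN', h'⟩ := class_isog S (i := j) (j := i) (hs j) (by rw [← hsij]; exact hs i)
  obtain ⟨p, hpA, hp⟩ := Nat.exists_infinite_primes (A + 1)
  obtain ⟨O, hpO⟩ := Helper11.ZT.exists_place_above hp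
  have vp := (val_non O).1 hpO
  have hp0 : (p : ℂ) ≠ 0 := by exact_mod_cast hp.ne_zero
  have vp0 : 0 < O.valuation (p : ℂ) := zero_lt_iff.2 ((Valuation.ne_zero_iff _).2 hp0)
  have hD : (Set.range fun m : ℕ => ((p : ℂ) ^ (m + 1))⁻¹).Infinite := by
    refine Set.infinite_range_of_injective fun a b hab => ?_
    have h2 : (p : ℂ) ^ (a + 1) = (p : ℂ) ^ (b + 1) := inv_injective hab
    have h3 : p ^ (a + 1) = p ^ (b + 1) := by exact_mod_cast h2
    have := Nat.pow_right_injective hp.two_le h3
    omega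
  obtain ⟨x, hx, hxi⟩ := exists_spec' hC hD {i} (by rw [card_singleton, h1])
    (fun f hf hf2 => transc_of_nonconst hC (hconst i) hf hf2)
  obtain ⟨m, hm⟩ := hxi i (mem_singleton_self i)
  have hiO : x i ∉ O := by
    rw [← hm, val_mem, map_inv₀, map_pow, not_le]
    exact (one_lt_inv₀ (pow_pos vp0 _)).2 (pow_lt_one₀ vp0.le vp (Nat.succ_ne_zero m))
  have hjO : x j ∉ O := fun hj => hiO (Related.mem ⟨N', hN', h' x (hCS hx)⟩ hj)
  have hAu : O.valuation (A : ℂ) = 1 := by
    have h2 := int_unit O hp hpO (u := (A : ℤ)) (fun h => by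
      have h3 := Nat.le_of_dvd hA (Int.natCast_dvd_natCast.1 h)
      omega)
    rwa [Int.cast_natCast] at h2
  rcases hden O x hx i j hij with h2 | h2
  · rw [val_mem, map_mul, hAu, one_mul, ← val_mem] at h2
    exact hiO h2
  · rw [val_mem, map_mul, hAu, one_mul, ← val_mem] at h2
    exact hjO h2

/-- a special subvariety all of whose classes have at least three coordinates -/
theorem linked_of_special (S : SpecialData n) {z : Fin n → ℂ} (hz : z ∈ S.carrier)
    (hbig : ∀ s : Fin S.r, 3 ≤ (univ.filter fun i => S.cls i = some s).card) : Linked univ z := by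
  classical
  intro i _
  rcases h : S.cls i with _ | s
  · left
    rw [hz.1 i h]
    exact S.hc i h
  · refine Or.inr ⟨univ.filter fun i => S.cls i = some s, subset_univ _, mem_filter.2 ⟨mem_univ _, h⟩,
      hbig s, fun a ha b hb _ => ?_⟩
    obtain ⟨N, hN, h2⟩ := class_isog S (mem_filter.1 ha).2 (mem_filter.1 hb).2
    exact ⟨N, hN, h2 z hz⟩

/-- the curve `z_i = s / (1 - i s)` is in general position over `ℚ` -/
theorem pairPos_curve : PairPos ((⊥ : IntermediateField ℚ ℂ) : Set ℂ) (Helper11.ZT.curve n) := by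
  classical
  intro i j hij
  set c : ℤ := (j : ℤ) - i with hc
  have hc0' : c ≠ 0 := by
    intro h
    apply hij
    apply Fin.ext
    omega
  have hc0 : (c : ℂ) ≠ 0 := by exact_mod_cast hc0'
  obtain ⟨mi, hmi⟩ : ∃ m : Fin n →₀ ℕ, m = Finsupp.single i 1 := ⟨_, rfl⟩
  obtain ⟨mj, hmj⟩ : ∃ m : Fin n →₀ ℕ, m = Finsupp.single j 1 := ⟨_, rfl⟩
  obtain ⟨m0, hm0⟩ : ∃ m : Fin n →₀ ℕ, m = mi + mj := ⟨_, rfl⟩
  set f : MvPolynomial (Fin n) ℂ := monomial m0 (c : ℂ) + monomial mi 1 - monomial mj 1 with hf
  have hcoe : ∀ m, f.coeff m = (((if m0 = m then c else 0) + (if mi = m then 1 else 0) -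
      (if mj = m then 1 else 0) : ℤ) : ℂ) := by
    intro m
    rw [hf, coeff_sub, coeff_add, coeff_monomial, coeff_monomial, coeff_monomial]
    push_cast
    rfl
  have hi0 : mi ≠ m0 := by
    intro h
    have := DFunLike.congr_fun h j
    simp [hm0, hmj] at this
  have hj0 : mj ≠ m0 := by
    intro h
    have := DFunLike.congr_fun h i
    simp [hm0, hmi] at this
  have hc1 : f.coeff m0 = c := by
    rw [hcoe, if_pos rfl, if_neg hi0, if_neg hj0]
    push_cast; ring
  have hsup : ∀ m ∈ f.support, m ≤ m0 := by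
    intro m hm
    rw [mem_support_iff, hcoe] at hm
    by_cases h0 : m0 = m
    · rw [h0]
    · by_cases h1 : mi = m
      · rw [← h1, hm0]; exact le_self_add
      · by_cases h2 : mj = m
        · rw [← h2, hm0]; exact le_add_self
        · rw [if_neg h0, if_neg h1, if_neg h2] at hm
          exact absurd (by push_cast; ring) hm
  have htop : (Finsupp.equivFunOnFinite.symm fun k => f.degreeOf k) = m0 := by
    ext k
    change f.degreeOf k = m0 k
    apply le_antisymm
    · rw [degreeOf_le_iff]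
      intro m hm
      exact hsup m hm k
    · apply monomial_le_degreeOf
      rw [mem_support_iff, hc1]
      exact hc0
  refine ⟨f, ?_, fun m => ?_, ?_, ?_⟩
  · intro k hk
    rw [mem_vars_iff_mem_support] at hk
    obtain ⟨m, hm, hmk⟩ := hk
    have h1 := hsup m hm k
    rw [Finsupp.mem_support_iff] at hmk
    by_contra hcon
    simp only [Finset.mem_insert, Finset.mem_singleton, not_or] at hcon
    apply hmk
    have h2 : m0 k = 0 := by
      simp [hm0, hmi, hmj, Ne.symm hcon.1, Ne.symm hcon.2]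
    omega
  · rw [hcoe]
    exact intCast_mem (⊥ : IntermediateField ℚ ℂ) _
  · rw [htop, hc1]
    exact hc0
  · rintro z ⟨t, ht⟩
    have hti := (ht i).1
    have htj := (ht j).1
    rw [hf, map_sub, map_add, eval_monomial, eval_monomial, eval_monomial]
    rw [hm0, Finsupp.prod_add_index' (by simp) (by intros; rw [pow_add])]
    rw [hmi, hmj]
    rw [Finsupp.prod_single_index (by simp), Finsupp.prod_single_index (by simp), (ht i).2, (ht j).2]
    have : (c : ℂ) = (j : ℂ) - i := by rw [hc]; push_cast; rfl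
    rw [this]
    field_simp
    ring

/-- a coordinate is not constant on the curve -/
theorem nonconst_curve (i : Fin n) (c : ℂ) : ∃ x ∈ Helper11.ZT.curve n, x i ≠ c := by
  by_cases hc : c = 0
  · -- the point `s = -1`
    refine ⟨fun k => -1 / (1 - (k : ℂ) * (-1)), ⟨-1, fun k => ⟨?_, rfl⟩⟩, ?_⟩
    · have h : (1 - (k : ℂ) * (-1)) = (((k : ℕ) + 1 : ℕ) : ℂ) := by push_cast; ring
      rw [h]
      exact Nat.cast_ne_zero.2 (Nat.succ_ne_zero _)
    · have h : (1 - (i : ℂ) * (-1)) = (((i : ℕ) + 1 : ℕ) : ℂ) := by push_cast; ring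
      have h2 : (1 - (i : ℂ) * (-1)) ≠ 0 := by
        rw [h]; exact Nat.cast_ne_zero.2 (Nat.succ_ne_zero _)
      rw [hc]
      exact div_ne_zero (by norm_num) h2
  · refine ⟨fun _ => 0, ⟨0, fun k => ⟨by simp, by simp⟩⟩, fun h => hc h.symm⟩

/-- a field of degree at most `2` has at most two archimedean places -/
theorem card_places_le {L : IntermediateField ℚ ℂ} (hL : FiniteDimensional ℚ L) :
    Nat.card (NumberField.InfinitePlace L) ≤ Module.finrank ℚ L := by
  have hNF : NumberField L := ⟨⟩
  have h2 := NumberField.InfinitePlace.card_add_two_mul_card_eq_rank L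
  have h3 := NumberField.InfinitePlace.card_eq_nrRealPlaces_add_nrComplexPlaces L
  rw [Nat.card_eq_fintype_card]
  omega

end Pool.Agent.Helper11.LC
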