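import Pool.Agent.Helper20.ZT.PrimRigS

/-! # Rigidity of Tate parameters, arbitrary valuations -/

open UpperHalfPlane ModularForm Complex Filter Function
open scoped Real MatrixGroups Topology Manifold

namespace Pool.Agent.Helper11.LC
open Pool.Agent.Helper11.ZP Pool.Agent.Helper11.ZU Pool.Agent.Helper20.ZT Pool.Agent.Helper20.ZT.Prim

/-- `u` is congruent to `1` modulo `P` -/
def Near {K : Type*} [Field K] (O : ValuationSubring K) (P u : K) : Prop := ∃ w ∈ O, u = 1 + P * w

section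
variable {K : Type*} [Field K] {O : ValuationSubring K} {P : K}

lemma Near.one : Near O P 1 := ⟨0, zero_mem O, by ring⟩

lemma Near.mul (hP : P ∈ O) {u v : K} (hu : Near O P u) (hv : Near O P v) : Near O P (u * v) := by
  obtain ⟨a, ha, rfl⟩ := hu
  obtain ⟨b, hb, rfl⟩ := hv
  refine ⟨a + b + P * a * b, ?_, by ring⟩
  exact O.add_mem _ _ (O.add_mem _ _ ha hb) (O.mul_mem _ _ (O.mul_mem _ _ hP ha) hb)

lemma Near.pow (hP : P ∈ O) {u : K} (hu : Near O P u) (k : ℕ) : Near O P (u ^ k) := by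
  induction k with
  | zero => rw [pow_zero]; exact Near.one
  | succ k ih => rw [pow_succ]; exact ih.mul hP hu

lemma Near.val (hP : P ∈ O.nonunits) {u : K} (hu : Near O P u) : O.valuation u = 1 := by
  obtain ⟨a, ha, rfl⟩ := hu
  exact unit_of_sub O (lt_one_mul O ((val_non O).1 hP) ha)

lemma Near.inv (hP : P ∈ O.nonunits) {u : K} (hu : Near O P u) : Near O P u⁻¹ := by
  have hv := hu.val hP
  obtain ⟨a, ha, rfl⟩ := hu
  have h0 : (1 + P * a) ≠ 0 := by
    intro h; rw [h, map_zero] at hv; exact zero_ne_one hv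
  refine ⟨-(a * (1 + P * a)⁻¹), ?_, by field_simp; ring⟩
  refine O.neg_mem _ (O.mul_mem _ _ ha ?_)
  rw [val_mem, map_inv₀, hv, inv_one]

lemma Near.div (hP : P ∈ O.nonunits) {u v : K} (hu : Near O P u) (hv : Near O P v) :
    Near O P (u / v) := by
  rw [div_eq_mul_inv]
  exact hu.mul ((val_mem O).2 ((val_non O).1 hP).le) (hv.inv hP)

end

section core
variable {m : ℤ} [hm : Fact (0 < m)] {T : Finset (Orb m)} (hT : Stable m T)
variable {K : Type*} [Field K] [Algebra ℂ K] (O : ValuationSubring K)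

include hT in
/-- **rigidity over the orbits in `T`, arbitrary valuations** -/
theorem rig_core [IsAlgClosed K] {x y P : K} (hP : P ∈ O.nonunits) (hP0 : P ≠ 0) (hx0 : x ≠ 0) (hy0 : y ≠ 0)
    (vPe : O.valuation x⁻¹ ≤ O.valuation P) (vPf : O.valuation y⁻¹ ≤ O.valuation P)
    (hrel : ∑ i ∈ Finset.range (T.card + 1), (ppT hT i).eval₂ (ph K) x * y ^ i = 0) :
    ∃ o ∈ T, ∃ t : K, t ≠ 0 ∧ Near O P (x * t ^ m.toNat) ∧
      Near O P (y * (ph K (zo m o) * t ^ ko m o)) := by
  have vP1 := (val_non O).1 hP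
  set s := x⁻¹ with hs
  set w := y⁻¹ with hw
  have hs0 : s ≠ 0 := inv_ne_zero hx0
  have hw0 : w ≠ 0 := inv_ne_zero hy0
  have vs1 : O.valuation s < 1 := vPe.trans_lt vP1
  have vw1 : O.valuation w < 1 := vPf.trans_lt vP1
  have hm' := mtoNat_pos m
  set n := m.toNat with hn
  set L := n ^ 2 + 3 * n with hL
  obtain ⟨q, hq, hqe⟩ := exists_param O (T.card * L) ((val_non O).2 vs1) hs0
  have vq1 := (val_non O).1 hq
  have hqO : q ∈ O := (val_mem O).2 vq1.le
  obtain ⟨e, he, hE⟩ := tr_E O (T.card * L) hqO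
  obtain ⟨d, hd, hD⟩ := tr_D O (T.card * L) hqO
  have m24 : (24 : K) ∈ O := by exact_mod_cast mem_ofNat O 24
  have m720 : (720 : K) ∈ O := by exact_mod_cast mem_ofNat O 720
  have m744 : (744 : K) ∈ O := by exact_mod_cast mem_ofNat O 744
  -- units
  have uE : ∀ r e : K, O.valuation r < 1 → e ∈ O → O.valuation (1 + 720 * r + r ^ 2 * e) = 1 := by
    intro r e hr he
    have hrO : r ∈ O := (val_mem O).2 hr.le
    rw [show 1 + 720 * r + r ^ 2 * e = 1 + r * (720 + r * e) by ring]
    exact unit_of_sub O (lt_one_mul O hr (mem_add O m720 (mem_mul O hrO he)))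
  have uD : ∀ r e : K, O.valuation r < 1 → e ∈ O → O.valuation (1 - 24 * r + r ^ 2 * e) = 1 := by
    intro r e hr he
    have hrO : r ∈ O := (val_mem O).2 hr.le
    rw [show 1 - 24 * r + r ^ 2 * e = 1 + r * (r * e - 24) by ring]
    exact unit_of_sub O (lt_one_mul O hr (mem_sub O (mem_mul O hrO he) m24))
  have vE := uE q e vq1 he
  have vD := uD q d vq1 hd
  rw [hE, hD] at hqe
  have vq : O.valuation q = O.valuation s := by
    have h1 : q * (1 - 24 * q + q ^ 2 * d) = s * (1 + 720 * q + q ^ 2 * e) := by rw [← hqe]; ring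
    have h2 := congrArg O.valuation h1
    rwa [val_mul_unit O vD, val_mul_unit O vE] at h2
  have vs0 : O.valuation s ≠ 0 := (Valuation.ne_zero_iff _).2 hs0
  have hq0 : q ≠ 0 := by
    intro h
    rw [h, map_zero] at vq
    exact vs0 vq.symm
  obtain ⟨t, ht⟩ := IsAlgClosed.exists_pow_nat_eq q hm'
  have ht0 : t ≠ 0 := by
    rintro rfl
    rw [zero_pow hm'.ne'] at ht
    exact hq0 ht.symm
  have vt1 : O.valuation t < 1 := by
    by_contra hcon
    push Not at hcon
    have h1 : 1 ≤ O.valuation t ^ n := one_le_pow₀ hcon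
    rw [← map_pow, ht] at h1
    exact absurd vq1 (not_lt.2 h1)
  have vt0 : 0 < O.valuation t := zero_lt_iff.2 (by rwa [ne_eq, Valuation.zero_iff])
  have htO : t ∈ O := (val_mem O).2 vt1.le
  have hwO : w ∈ O := (val_mem O).2 vw1.le
  -- the product
  have hLz : (LHT hT (T.card * L + 3)).eval₂ (Polynomial.eval₂RingHom (ph K) t) w⁻¹ = 0 := by
    apply LHT_zero hT (T.card * L + 3) (x := x)
    · rw [ht, hE, hD, hqe, hs]
      field_simp
    · rw [hw, inv_inv]; exact hrel
  have hsm := small_prodT hT O (T.card * L + 3) htO hwO hw0 hLz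
  have hmono : ∀ {a b : ℕ}, a ≤ b → O.valuation t ^ b ≤ O.valuation t ^ a := fun h =>
    pow_le_pow_right_of_le_one' vt1.le h
  have hex : ∃ o ∈ T, O.valuation ((tr dS qexp_disc_mem 1 1 (T.card * L + 3)).eval₂ (ph K)
      (ph K (zo m o) * t ^ ko m o) - (tr eS qexp_Ecube_mem 1 1 (T.card * L + 3)).eval₂ (ph K)
      (ph K (zo m o) * t ^ ko m o) * w) ≤ O.valuation t ^ L := by
    by_contra hcon
    push Not at hcon
    rcases T.eq_empty_or_nonempty with hem | hne
    · rw [hem, Finset.prod_empty, map_one] at hsm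
      exact absurd (pow_lt_one₀ zero_le vt1 (by omega)) (not_lt.2 hsm)
    · have h1 := val_prod T _ (pow_pos vt0 L) hne (fun o ho => hcon o ho)
      rw [← map_prod, ← pow_mul, mul_comm] at h1
      exact absurd (hsm.trans (hmono (Nat.le_add_right _ _))) (not_le.2 h1)
  obtain ⟨o, hoT, ho⟩ := hex
  set z := ph K (zo m o) with hz
  set k := ko m o with hk
  set r := z * t ^ k with hr
  have hkpos : 0 < k := ko_pos m o
  obtain ⟨N, hN, hzN⟩ := zo_pow m o
  have hzN' : z ^ N = 1 := by rw [hz, ← map_pow, hzN, map_one]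
  have vz : O.valuation z = 1 := val_root_one O hN hzN'
  have hz0 : z ≠ 0 := by
    intro h
    rw [h, map_zero] at vz
    exact zero_ne_one vz
  have hzO : z ∈ O := (val_mem O).2 vz.le
  have vr : O.valuation r = O.valuation t ^ k := by rw [hr, map_mul, vz, one_mul, map_pow]
  have vr1 : O.valuation r < 1 := by rw [vr]; exact pow_lt_one₀ zero_le vt1 hkpos.ne'
  have hrO : r ∈ O := (val_mem O).2 vr1.le
  have hr0 : r ≠ 0 := by rw [hr]; exact mul_ne_zero hz0 (pow_ne_zero _ ht0)
  obtain ⟨e', he', hE'⟩ := tr_E O (T.card * L) hrO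
  obtain ⟨d', hd', hD'⟩ := tr_D O (T.card * L) hrO
  have vE' := uE r e' vr1 he'
  have vD' := uD r d' vr1 hd'
  rw [hE', hD'] at ho
  set ε := (r - 24 * r ^ 2 + r ^ 3 * d') - (1 + 720 * r + r ^ 2 * e') * w with hε
  have hkle : k ≤ n ^ 2 := ko_le m o
  have hkL : k < L := by rw [hL]; omega
  have hlt : O.valuation ε < O.valuation r := by
    rw [vr]
    refine lt_of_le_of_lt ho ?_
    exact pow_lt_pow_right_of_lt_one₀ vt0 vt1 hkL
  have vDr : O.valuation (r - 24 * r ^ 2 + r ^ 3 * d') = O.valuation r := by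
    rw [show r - 24 * r ^ 2 + r ^ 3 * d' = r * (1 - 24 * r + r ^ 2 * d') by ring, val_mul_unit O vD']
  have vw2 : O.valuation w = O.valuation r := by
    have h1 : w * (1 + 720 * r + r ^ 2 * e') = (r - 24 * r ^ 2 + r ^ 3 * d') + (-ε) := by rw [hε]; ring
    have h2 := congrArg O.valuation h1
    rwa [val_mul_unit O vE', val_add_of_lt O (by rwa [Valuation.map_neg, vDr]), vDr] at h2
  have hdiv : ∀ a b : K, a ∈ O → O.valuation b = 1 → a / b ∈ O := by
    intro a b ha hb
    rw [val_mem, map_div₀, hb, div_one]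
    exact (val_mem O).1 ha
  have hqp : q / P ∈ O := by
    rw [val_mem, map_div₀, vq]
    exact div_le_one_of_le₀ vPe zero_le
  have hrp : r / P ∈ O := by
    rw [val_mem, map_div₀, ← vw2]
    exact div_le_one_of_le₀ vPf zero_le
  have hεp : ε / (r * P) ∈ O := by
    rw [val_mem, map_div₀, map_mul, vr]
    have h1 : O.valuation ε ≤ O.valuation t ^ k * O.valuation P := by
      refine ho.trans ?_
      have h2 : O.valuation t ^ L ≤ O.valuation t ^ (k + n) := hmono (by rw [hL]; omega)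
      refine h2.trans ?_
      rw [pow_add]
      refine mul_le_mul_right ?_ _
      have h0 : O.valuation t ^ n = O.valuation s := by rw [← map_pow, ht, vq]
      rw [h0]
      exact vPe
    exact div_le_one_of_le₀ h1 zero_le
  have hDne : (1 - 24 * q + q ^ 2 * d) ≠ 0 := by
    intro h; rw [h, map_zero] at vD; exact zero_ne_one vD
  have hxq : x * (q * (1 - 24 * q + q ^ 2 * d)) = 1 + 720 * q + q ^ 2 * e := by
    rw [show q * (1 - 24 * q + q ^ 2 * d) = q - 24 * q ^ 2 + q ^ 3 * d by ring, hqe, hs]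
    field_simp
  refine ⟨o, hoT, t, ht0, ?_, ?_⟩
  · rw [ht]
    refine ⟨(q / P) * ((744 + q * e - q * d) / (1 - 24 * q + q ^ 2 * d)), ?_, ?_⟩
    · exact mem_mul O hqp (hdiv _ _ (mem_sub O (mem_add O m744 (mem_mul O hqO he)) (mem_mul O hqO hd)) vD)
    · have h1 : P * (q / P * ((744 + q * e - q * d) / (1 - 24 * q + q ^ 2 * d))) =
          q * ((744 + q * e - q * d) / (1 - 24 * q + q ^ 2 * d)) := by field_simp
      rw [h1]
      apply mul_right_cancel₀ hDne
      have h2 : (744 + q * e - q * d) / (1 - 24 * q + q ^ 2 * d) * (1 - 24 * q + q ^ 2 * d) =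
        744 + q * e - q * d := div_mul_cancel₀ _ hDne
      linear_combination hxq - q * h2
  · have vB : O.valuation (1 - 24 * r + r ^ 2 * d' - P * (ε / (r * P))) = 1 := by
      rw [sub_eq_add_neg, val_add_of_lt O, vD']
      rw [vD', Valuation.map_neg]
      exact lt_one_mul O vP1 hεp
    have hBne : (1 - 24 * r + r ^ 2 * d' - P * (ε / (r * P))) ≠ 0 := by
      intro h; rw [h, map_zero] at vB; exact zero_ne_one vB
    have hεr : P * (ε / (r * P)) * r = ε := by field_simp
    have hyr : y * (r * (1 - 24 * r + r ^ 2 * d' - P * (ε / (r * P)))) = 1 + 720 * r + r ^ 2 * e' := by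
      have h1 : r * (1 - 24 * r + r ^ 2 * d' - P * (ε / (r * P))) = (1 + 720 * r + r ^ 2 * e') * w := by
        have h2 : (1 + 720 * r + r ^ 2 * e') * w = (r - 24 * r ^ 2 + r ^ 3 * d') - ε := by rw [hε]; ring
        rw [h2]
        linear_combination -hεr
      rw [h1, hw]
      field_simp
    refine ⟨((r / P) * (744 + r * e' - r * d') + ε / (r * P)) /
      (1 - 24 * r + r ^ 2 * d' - P * (ε / (r * P))), ?_, ?_⟩
    · exact hdiv _ _ (mem_add O (mem_mul O hrp (mem_sub O (mem_add O m744 (mem_mul O hrO he'))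
        (mem_mul O hrO hd'))) hεp) vB
    · apply mul_right_cancel₀ hBne
      have h2 : ((r / P) * (744 + r * e' - r * d') + ε / (r * P)) /
        (1 - 24 * r + r ^ 2 * d' - P * (ε / (r * P))) * (1 - 24 * r + r ^ 2 * d' - P * (ε / (r * P))) =
        (r / P) * (744 + r * e' - r * d') + ε / (r * P) := div_mul_cancel₀ _ hBne
      have h3 : P * (r / P) = r := by field_simp
      linear_combination hyr - P * h2 - (744 + r * e' - r * d') * h3

end core

/-- **the relation between isogenous non-integral numbers**: the level is `a b g ^ 2` with coprime `a`,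
`b`, and `x ^ a = ζ y ^ b` modulo `P`, for a primitive `g`-th root of unity `ζ` -/
theorem primPoly_rig (m : ℤ) [hm : Fact (0 < m)] (K : Type) [Field K] [IsAlgClosed K] [Algebra ℂ K]
    (O : ValuationSubring K) {x y P : K} (hP : P ∈ O.nonunits) (hP0 : P ≠ 0) (hx0 : x ≠ 0) (hy0 : y ≠ 0)
    (vx : O.valuation x⁻¹ ≤ O.valuation P) (vy : O.valuation y⁻¹ ≤ O.valuation P)
    (h : (primPoly m).eval₂ (Polynomial.eval₂RingHom ((algebraMap ℂ K).comp (algebraMap OO ℂ)) x) y = 0) :
    ∃ (a b g : ℕ) (ζ : ℂ) (w : K), 0 < a ∧ 0 < b ∧ a.Coprime b ∧ 0 < g ∧ m = a * b * g ^ 2 ∧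
      IsPrimitiveRoot ζ g ∧ w ∈ O ∧ x ^ a = algebraMap ℂ K ζ * y ^ b * (1 + P * w) := by
  obtain ⟨o, ho, t, ht0, c1, c2⟩ := rig_core (TP_stable m) O hP hP0 hx0 hy0 vx vy
    (primPoly_sum m h)
  -- the shape of the orbit
  have ha := U00 m o
  have hd := d_pos (U m o) (U10 m o) (U00 m o)
  have had := ad_eq (U m o) (U10 m o)
  obtain ⟨a, hae⟩ := Int.eq_ofNat_of_zero_le ha.le
  obtain ⟨d, hde⟩ := Int.eq_ofNat_of_zero_le hd.le
  have ha0 : 0 < a := by
    rw [hae] at ha
    exact_mod_cast ha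
  have hd0 : 0 < d := by
    rw [hde] at hd
    exact_mod_cast hd
  have hmad : m = ((a * d : ℕ) : ℤ) := by rw [← had, hae, hde]; push_cast; rfl
  have hmn : m.toNat = a * d := by rw [hmad, Int.toNat_natCast]
  have hko : ko m o = a ^ 2 := by
    unfold ko
    rw [hae, Int.toNat_natCast]
  set h' := Nat.gcd a d with hh
  have hh0 : 0 < h' := Nat.gcd_pos_of_pos_left _ ha0
  obtain ⟨a', ha'⟩ : h' ∣ a := Nat.gcd_dvd_left _ _
  obtain ⟨d', hd'⟩ : h' ∣ d := Nat.gcd_dvd_right _ _
  have e1 : a / h' = a' := by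
    conv_lhs => rw [ha']
    exact Nat.mul_div_cancel_left _ hh0
  have f1 : d / h' = d' := by
    conv_lhs => rw [hd']
    exact Nat.mul_div_cancel_left _ hh0
  have hcop : Nat.Coprime a' d' := by
    have := Nat.coprime_div_gcd_div_gcd (m := a) (n := d) hh0
    rwa [← hh, e1, f1] at this
  have ha'0 : 0 < a' := by
    rcases Nat.eq_zero_or_pos a' with h0 | h0
    · rw [h0, mul_zero] at ha'; omega
    · exact h0
  have hd'0 : 0 < d' := by
    rcases Nat.eq_zero_or_pos d' with h0 | h0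
    · rw [h0, mul_zero] at hd'; omega
    · exact h0
  have hk : m.toNat * a' = ko m o * d' := by
    rw [hmn, hko]
    calc a * d * a' = a * (h' * d') * a' := by rw [← hd']
      _ = a * (h' * a') * d' := by ring
      _ = a ^ 2 * d' := by rw [← ha']; ring
  obtain ⟨g, hg, hgm, hexp, hroot⟩ := TP_rootG m ho hd'0 hk
  have hgcd : Nat.gcd d' a' = 1 := hcop.symm
  rw [hgcd, Nat.div_one, Nat.div_one] at hexp
  rw [hgcd, Nat.div_one] at hroot
  rw [hgcd] at hgm
  have hPO : P ∈ O := (val_mem O).2 ((val_non O).1 hP).le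
  obtain ⟨w, hw, hwe⟩ := (c1.pow hPO a').div hP (c2.pow hPO d')
  refine ⟨a', d', g, ((zo m o : OO) : ℂ) ^ d', w, ha'0, hd'0, hcop, hg, ?_, hroot, hw, ?_⟩
  · have h5 : m = d' * a' * g ^ 2 := by simpa using hgm
    rw [h5]; ring
  · rw [← hwe]
    have hc2 := (c2.pow hPO d').val hP
    have hc20 : (y * (ph K (zo m o) * t ^ ko m o)) ^ d' ≠ 0 := by
      intro h0
      rw [h0, map_zero] at hc2
      exact zero_ne_one hc2
    have ht : (t ^ m.toNat) ^ a' = (t ^ ko m o) ^ d' := by
      rw [← pow_mul, ← pow_mul, hexp]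
    have hph : algebraMap ℂ K (((zo m o : OO) : ℂ) ^ d') = ph K (zo m o) ^ d' := by
      rw [map_pow]
      rfl
    rw [hph, mul_div_assoc', eq_div_iff hc20]
    rw [mul_pow, mul_pow, mul_pow, ht]
    ring

end Pool.Agent.Helper11.LC
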