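import Pool.Agent.Helper36.ZU.Alg

/-! # Roots of unity close to a given number -/

namespace Pool.Agent.Helper11.LC
open Finset Pool.Agent.Helper11.ZP Pool.Agent.Helper20.ZT Pool.Agent Pool.Agent.Helper36.ZU

/-- the value at `1` of the cyclotomic polynomial of a prime power -/
lemma prod_primitive {p : ℕ} (hp : p.Prime) {k : ℕ} {η : ℂ} (h : IsPrimitiveRoot η (p ^ (k + 1))) :
    (p : ℂ) = ∏ μ ∈ primitiveRoots (p ^ (k + 1)) ℂ, (1 - μ) := by
  have h2 := Polynomial.cyclotomic_eq_prod_X_sub_primitiveRoots h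
  have h3 := congrArg (Polynomial.eval 1) h2
  have := Fact.mk hp
  rw [Polynomial.eval_one_cyclotomic_prime_pow, Polynomial.eval_prod] at h3
  rw [h3]
  refine prod_congr rfl fun μ _ => by simp

/-- the distance of a root of unity of order `p ^ (k + 1)` from `1` -/
lemma val_prod (O : ValuationSubring ℂ) {p : ℕ} (hp : p.Prime) {k : ℕ} {η : ℂ}
    (h : IsPrimitiveRoot η (p ^ (k + 1))) :
    O.valuation (p : ℂ) ≤ O.valuation (1 - η) ^ (Nat.totient (p ^ (k + 1))) := by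
  have hpos : 0 < p ^ (k + 1) := pow_pos hp.pos _
  have hle : ∀ μ ∈ primitiveRoots (p ^ (k + 1)) ℂ, O.valuation (1 - μ) ≤ O.valuation (1 - η) := by
    intro μ hμ
    rw [mem_primitiveRoots hpos] at hμ
    have := NeZero.mk hpos.ne'
    obtain ⟨i, -, rfl⟩ := h.eq_pow_of_pow_eq_one hμ.pow_eq_one
    exact one_sub_pow_val O hpos h.pow_eq_one _
  conv_lhs => rw [prod_primitive hp h]
  rw [map_prod, ← h.card_primitiveRoots]
  exact prod_le_pow_card _ _ _ hle

/-- **the order of a root of unity close to `1`** -/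
theorem order_le (O : ValuationSubring ℂ) {p : ℕ} (hp : p.Prime) (hpO : (p : ℂ) ∈ O.nonunits) {e : ℕ}
    (he : 0 < e) {η : ℂ} {N : ℕ} (hN : 0 < N) (hη : η ^ N = 1)
    (h : O.valuation (1 - η) ^ e ≤ O.valuation (p : ℂ)) : orderOf η ≤ 2 * e := by
  have vp := (val_non O).1 hpO
  have v1 : O.valuation (1 - η) < 1 := by
    by_contra hcon
    exact absurd (h.trans_lt vp) (not_lt.2 (one_le_pow₀ (not_lt.1 hcon)))
  have hord : 0 < orderOf η := orderOf_pos_iff.2 (isOfFinOrder_iff_pow_eq_one.2 ⟨N, hN, hη⟩)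
  by_cases h1 : orderOf η = 1
  · omega
  have huni : ∀ {ℓ : ℕ}, ℓ.Prime → ℓ ∣ orderOf η → ℓ = p := by
    intro ℓ hℓ hd
    by_contra hlp
    obtain ⟨k, hk⟩ := hd
    have hprim : IsPrimitiveRoot (η ^ k) (ℓ ^ (0 + 1)) := by
      rw [zero_add, pow_one]
      exact (IsPrimitiveRoot.orderOf η).pow hord (by rw [hk, mul_comm])
    have h2 := val_prod O hℓ hprim
    have h3 : ¬ (p : ℤ) ∣ (ℓ : ℤ) := by
      intro h
      exact hlp ((Nat.prime_dvd_prime_iff_eq hp hℓ).1 (Int.natCast_dvd_natCast.1 h)).symm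
    have h4 := int_unit O hp hpO h3
    rw [Int.cast_natCast] at h4
    rw [h4] at h2
    have h5 : O.valuation (1 - η ^ k) < 1 := (one_sub_pow_val O hN hη k).trans_lt v1
    exact absurd h2 (not_le.2 (pow_lt_one₀ zero_le h5
      (Nat.totient_pos.2 (pow_pos hℓ.pos _)).ne'))
  have hpow := Nat.eq_prime_pow_of_unique_prime_dvd (p := p) hord.ne' huni
  set k := (orderOf η).primeFactorsList.length with hk
  rcases Nat.eq_zero_or_pos k with h0 | h0
  · rw [h0, pow_zero] at hpow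
    exact absurd hpow h1
  obtain ⟨l, hl⟩ : ∃ l, k = l + 1 := ⟨k - 1, by omega⟩
  rw [hl] at hpow
  have hprim : IsPrimitiveRoot η (p ^ (l + 1)) := by
    rw [← hpow]
    exact IsPrimitiveRoot.orderOf η
  have h2 := val_prod O hp hprim
  have hne : η ≠ 1 := fun h => h1 (orderOf_eq_one_iff.2 h)
  have v0 : 0 < O.valuation (1 - η) :=
    zero_lt_iff.2 ((Valuation.ne_zero_iff _).2 (sub_ne_zero.2 hne.symm))
  have htot : Nat.totient (p ^ (l + 1)) ≤ e := by
    by_contra hcon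
    push Not at hcon
    exact absurd (h.trans h2) (not_le.2 (pow_lt_pow_right_of_lt_one₀ v0 v1 hcon))
  rw [Nat.totient_prime_pow_succ hp] at htot
  rw [hpow, pow_succ]
  calc p ^ l * p ≤ p ^ l * (2 * (p - 1)) := Nat.mul_le_mul_left _ (by have := hp.two_le; omega)
    _ = 2 * (p ^ l * (p - 1)) := by ring
    _ ≤ 2 * e := Nat.mul_le_mul_left _ htot

/-- **the orders of the roots of unity close to a given number are bounded** -/
theorem finite_orders (O : ValuationSubring ℂ) {p : ℕ} (hp : p.Prime) (hpO : (p : ℂ) ∈ O.nonunits) {e : ℕ}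
    (he : 0 < e) (δ : ℂ) :
    {g : ℕ | 0 < g ∧ ∃ ζ : ℂ, IsPrimitiveRoot ζ g ∧ O.valuation (ζ - δ) ^ e ≤ O.valuation (p : ℂ)}.Finite := by
  by_cases hne : {g : ℕ | 0 < g ∧ ∃ ζ : ℂ, IsPrimitiveRoot ζ g ∧
    O.valuation (ζ - δ) ^ e ≤ O.valuation (p : ℂ)}.Nonempty
  · obtain ⟨g₀, hg₀, ζ₀, hζ₀, hd₀⟩ := hne
    refine (Set.finite_Iic (g₀ * (2 * e))).subset ?_
    rintro g ⟨hg, ζ, hζ, hd⟩
    rw [Set.mem_Iic]
    have vζ₀ : O.valuation ζ₀ = 1 := val_root_one O hg₀ hζ₀.pow_eq_one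
    have h0 : ζ₀ ≠ 0 := by
      intro h
      rw [h, map_zero] at vζ₀
      exact zero_ne_one vζ₀
    set η := ζ / ζ₀ with hη
    have hηN : η ^ (g * g₀) = 1 := by
      rw [hη, div_pow, pow_mul, hζ.pow_eq_one, mul_comm g g₀, pow_mul ζ₀, hζ₀.pow_eq_one, one_pow, one_pow, div_one]
    have hv : O.valuation (1 - η) ≤ max (O.valuation (ζ₀ - δ)) (O.valuation (ζ - δ)) := by
      have h1 : 1 - η = ((ζ₀ - δ) - (ζ - δ)) / ζ₀ := by
        rw [hη]
        field_simp
        ring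
      rw [h1, map_div₀, vζ₀, div_one]
      exact Valuation.map_sub _ _ _
    have hv2 : O.valuation (1 - η) ^ e ≤ O.valuation (p : ℂ) := by
      rcases le_total (O.valuation (ζ₀ - δ)) (O.valuation (ζ - δ)) with h1 | h1
      · rw [max_eq_right h1] at hv
        exact (pow_le_pow_left₀ zero_le hv e).trans hd
      · rw [max_eq_left h1] at hv
        exact (pow_le_pow_left₀ zero_le hv e).trans hd₀
    have hord := order_le O hp hpO he (Nat.mul_pos hg hg₀) hηN hv2
    have hordpos : 0 < orderOf η :=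
      orderOf_pos_iff.2 (isOfFinOrder_iff_pow_eq_one.2 ⟨_, Nat.mul_pos hg hg₀, hηN⟩)
    have h2 : ζ ^ (g₀ * orderOf η) = 1 := by
      have h3 : ζ = ζ₀ * η := by rw [hη]; field_simp
      rw [h3, mul_pow, pow_mul, hζ₀.pow_eq_one, one_pow, one_mul, mul_comm, pow_mul, pow_orderOf_eq_one, one_pow]
    have h3 := Nat.le_of_dvd (Nat.mul_pos hg₀ hordpos) (hζ.dvd_of_pow_eq_one _ h2)
    exact h3.trans (Nat.mul_le_mul_left _ hord)
  · rw [Set.not_nonempty_iff_eq_empty] at hne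
    rw [hne]
    exact Set.finite_empty

end Pool.Agent.Helper11.LC
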