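import Pool.Agent.Helper11.LC.Deg
import Pool.Agent.Helper11.LC.Rig
import Pool.Agent.Helper11.LC.Root

/-! # Isogenies between algebraic numbers of bounded degree, uniformly in the place -/

open UpperHalfPlane

namespace Pool.Agent.Helper11.LC
open Pool.Agent.Helper11.ZP Pool.Agent.Helper11.ZU Pool.Agent.Helper20.ZT Pool.Agent.Helper20.ZT.Prim
  Pool.Agent

section
variable {O : ValuationSubring ℂ}

/-- **the value of an algebraic number of bounded degree** -/
theorem val_alg {p : ℕ} (hp : p.Prime) (hpO : (p : ℂ) ∈ O.nonunits) {x : ℂ}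
    (hx : x ≠ 0) (halg : IsAlgebraic ℚ x) {D : ℕ} (hD : (minpoly ℚ x).natDegree ≤ D) :
    ∃ (k : ℕ) (l : ℤ), 0 < k ∧ k ≤ D ∧ O.valuation x ^ k = O.valuation (p : ℂ) ^ l := by
  have hint : IsIntegral ℚ x := halg.isIntegral
  have hroot := minpoly.aeval ℚ x
  rw [Polynomial.aeval_eq_sum_range] at hroot
  have hp0 : O.valuation (p : ℂ) ≠ 0 := (Valuation.ne_zero_iff _).2 (by exact_mod_cast hp.ne_zero)
  obtain ⟨i, hi, j, hj, hij, hval, hne⟩ := Helper36.ZU.exists_two O hroot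
    ⟨(minpoly ℚ x).natDegree, by simp, by
      rw [(minpoly.monic hint).coeff_natDegree, one_smul]
      exact pow_ne_zero _ hx⟩
  wlog hlt : i < j generalizing i j
  · refine this j hj i hi hij.symm hval.symm ?_ (by omega)
    rw [← Valuation.ne_zero_iff O.valuation, ← hval, Valuation.ne_zero_iff]
    exact hne
  have hnej : (minpoly ℚ x).coeff j • x ^ j ≠ 0 := by
    rw [← Valuation.ne_zero_iff O.valuation, ← hval, Valuation.ne_zero_iff]
    exact hne
  have hcoi : (minpoly ℚ x).coeff i ≠ 0 := fun h => hne (by rw [h, zero_smul])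
  have hcoj : (minpoly ℚ x).coeff j ≠ 0 := fun h => hnej (by rw [h, zero_smul])
  have h1 := hval
  rw [Rat.smul_def, Rat.smul_def, map_mul, map_mul, map_pow, map_pow] at h1
  obtain ⟨k, hk⟩ := Helper36.ZU.rat_val O hp hpO hcoi
  obtain ⟨l, hl⟩ := Helper36.ZU.rat_val O hp hpO hcoj
  rw [hk, hl] at h1
  have hv0 : O.valuation x ≠ 0 := (Valuation.ne_zero_iff _).2 hx
  have hjD : j ≤ (minpoly ℚ x).natDegree := by
    have := Finset.mem_range.1 hj
    omega
  refine ⟨j - i, k - l, by omega, by omega, ?_⟩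
  rw [zpow_sub₀ hp0, eq_div_iff (zpow_ne_zero _ hp0)]
  apply mul_left_cancel₀ (pow_ne_zero i hv0)
  rw [← mul_assoc, ← pow_add, show i + (j - i) = j by omega, mul_comm, ← h1, mul_comm]

/-- the exponent of a number less than one is positive -/
lemma exp_pos {Γ : Type*} [LinearOrderedCommGroupWithZero Γ] {c t : Γ} (hc0 : 0 < c) (hc : c < 1)
    (ht : t < 1) {a : ℤ} (h : t = c ^ a) : ∃ m : ℕ, 0 < m ∧ t = c ^ m := by
  have ha : 0 < a := by
    by_contra hcon
    push Not at hcon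
    obtain ⟨m, hm⟩ := Int.eq_ofNat_of_zero_le (neg_nonneg.2 hcon)
    rw [show a = -(m : ℤ) by omega, zpow_neg, zpow_natCast] at h
    have h1 : 1 ≤ (c ^ m)⁻¹ := (one_le_inv₀ (pow_pos hc0 _)).2 (pow_le_one₀ hc0.le hc.le)
    rw [h] at ht
    exact absurd ht (not_lt.2 h1)
  obtain ⟨m, hm⟩ := Int.eq_ofNat_of_zero_le ha.le
  refine ⟨m, by omega, ?_⟩
  rw [h, hm, zpow_natCast]

/-- algebraic numbers of degree at most `D` are not too close to the units -/
theorem val_alg_gap {p : ℕ} (hp : p.Prime) (hpO : (p : ℂ) ∈ O.nonunits) {x : ℂ}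
    (halg : IsAlgebraic ℚ x) {D : ℕ} (hD : (minpoly ℚ x).natDegree ≤ D) (hx : O.valuation x < 1) :
    O.valuation x ^ D ≤ O.valuation (p : ℂ) := by
  by_cases hx0 : x = 0
  · rw [hx0, map_zero]
    have hD0 : D ≠ 0 := by
      have := minpoly.natDegree_pos halg.isIntegral
      omega
    rw [zero_pow hD0]
    exact zero_le
  have hv0 : 0 < O.valuation x := zero_lt_iff.2 ((Valuation.ne_zero_iff _).2 hx0)
  have hp0 : 0 < O.valuation (p : ℂ) := zero_lt_iff.2 ((Valuation.ne_zero_iff _).2 (by exact_mod_cast hp.ne_zero))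
  have vp := (val_non O).1 hpO
  obtain ⟨k, l, hk, hkD, h⟩ := val_alg hp hpO hx0 halg hD
  obtain ⟨m, hm, h2⟩ := exp_pos hp0 vp (pow_lt_one₀ hv0.le hx hk.ne') h
  calc O.valuation x ^ D ≤ O.valuation x ^ k := pow_le_pow_of_le_one hv0.le hx.le hkD
    _ = O.valuation (p : ℂ) ^ m := h2
    _ ≤ O.valuation (p : ℂ) ^ 1 := pow_le_pow_of_le_one hp0.le vp.le (by omega)
    _ = O.valuation (p : ℂ) := pow_one _

/-- **residues of algebraic numbers of bounded degree** -/
theorem residue_boundO {p : ℕ} (hp : p.Prime) (hpO : (p : ℂ) ∈ O.nonunits) {u : ℂ}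
    (halg : IsAlgebraic ℚ u) {E : ℕ} (hE : (minpoly ℚ u).natDegree ≤ E) (hu : O.valuation u = 1) :
    O.valuation (u ^ (∏ f ∈ Finset.Icc 1 E, (p ^ f - 1)) - 1) < 1 := by
  have := Fact.mk hp
  let k := IsLocalRing.ResidueField O
  have hmem : ∀ {x : ℂ} (hx : x ∈ O), IsLocalRing.residue O ⟨x, hx⟩ = 0 ↔ O.valuation x < 1 := by
    intro x hx
    rw [IsLocalRing.residue_eq_zero_iff, ← ValuationSubring.coe_mem_nonunits_iff]
    change x ∈ O.nonunits ↔ _
    rw [val_non]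
  have hpk : (p : k) = 0 := by
    have h1 : ((p : ℕ) : k) = IsLocalRing.residue O ⟨(p : ℂ), natCast_mem O p⟩ := by
      rw [show (⟨(p : ℂ), natCast_mem O p⟩ : O) = ((p : ℕ) : O) from rfl, map_natCast]
    rw [h1, hmem]
    exact (val_non O).1 hpO
  have hchar : CharP k p := (CharP.charP_iff_prime_eq_zero hp).2 hpk
  let alg : Algebra (ZMod p) k := ZMod.algebra k p
  obtain ⟨P, hP, hdeg, hroot⟩ := exists_primitive halg
  have huO : u ∈ O := (val_mem O).2 hu.le
  set w : k := IsLocalRing.residue O ⟨u, huO⟩ with hw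
  have hw0 : w ≠ 0 := by
    rw [Ne, hw, hmem]
    exact not_lt.2 hu.ge
  have hPb : P.map (Int.castRingHom (ZMod p)) ≠ 0 := by
    intro h0
    have h1 : (Polynomial.C (p : ℤ)) ∣ P := by
      rw [Polynomial.C_dvd_iff_dvd_coeff]
      intro i
      have h2 := congrArg (fun q => Polynomial.coeff q i) h0
      simp only [Polynomial.coeff_map, Polynomial.coeff_zero, eq_intCast] at h2
      exact (ZMod.intCast_zmod_eq_zero_iff_dvd _ _).1 h2
    have h3 := hP (p : ℤ) h1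
    rw [Int.isUnit_iff] at h3
    have := hp.one_lt
    omega
  have hroot' : Polynomial.aeval w (P.map (Int.castRingHom (ZMod p))) = 0 := by
    have h1 : Polynomial.aeval (⟨u, huO⟩ : O) P = 0 := by
      have h2 : ((Polynomial.aeval (⟨u, huO⟩ : O) P : O) : ℂ) = Polynomial.aeval u P := by
        rw [Polynomial.aeval_def, Polynomial.aeval_def, Polynomial.eval₂_eq_sum_range,
          Polynomial.eval₂_eq_sum_range]
        push_cast
        simp
      apply Subtype.coe_injective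
      exact h2.trans hroot
    have h3 := congrArg (IsLocalRing.residue O) h1
    rw [map_zero, Polynomial.aeval_def, Polynomial.hom_eval₂] at h3
    rw [Polynomial.aeval_def, Polynomial.eval₂_map]
    rw [← h3]
    congr 1
    exact RingHom.ext_int _ _
  have hfin := pow_eq_one_of_root hw0 hPb hroot' (E := E)
    ((Polynomial.natDegree_map_le).trans (hdeg.trans hE))
  set q := ∏ f ∈ Finset.Icc 1 E, (p ^ f - 1) with hq
  have hO1 : u ^ q - 1 ∈ O := sub_mem (pow_mem huO _) (one_mem O)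
  rw [← hmem hO1]
  have h5 : (⟨u ^ q - 1, hO1⟩ : O) = (⟨u, huO⟩ : O) ^ q - 1 := Subtype.coe_injective (by simp)
  rw [h5, map_sub, map_pow, map_one, ← hw, hfin, sub_self]

/-- the exponents are bounded -/
lemma exp_boundO {Γ : Type*} [LinearOrderedCommGroupWithZero Γ] {c X Y : Γ} (hc0 : 0 < c) (hc : c < 1)
    {D B : ℕ} (hY : Y⁻¹ ≤ 1) (hYB : c ^ B ≤ Y⁻¹) (hX0 : 0 < X) (hY0 : 0 < Y) (hX1 : X⁻¹ < 1) (hY1 : Y⁻¹ < 1)
    {a b : ℕ} (hcop : Nat.Coprime a b) (hab : X ^ a = Y ^ b) {k l : ℕ} (hk : 0 < k) (hkD : k ≤ D)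
    {i j : ℤ} (hi : X⁻¹ ^ k = c ^ i) (hl : 0 < l) (hlD : l ≤ D) (hj : Y⁻¹ ^ l = c ^ j) :
    a ≤ B * D * D := by
  obtain ⟨i', hi', hxa⟩ := exp_pos hc0 hc (pow_lt_one₀ (inv_nonneg.2 hX0.le) hX1 hk.ne') hi
  obtain ⟨j', hj', hyb⟩ := exp_pos hc0 hc (pow_lt_one₀ (inv_nonneg.2 hY0.le) hY1 hl.ne') hj
  have hinj : ∀ {s t : ℕ}, c ^ s = c ^ t → s = t := by
    intro s t h
    rcases lt_trichotomy s t with h1 | h1 | h1
    · exact absurd h (pow_lt_pow_right_of_lt_one₀ hc0 hc h1).ne'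
    · exact h1
    · exact absurd h (pow_lt_pow_right_of_lt_one₀ hc0 hc h1).ne
  have h0 : X⁻¹ ^ a = Y⁻¹ ^ b := by rw [inv_pow, hab, inv_pow]
  have h1 : i' * (a * l) = j' * (b * k) := by
    apply hinj
    calc c ^ (i' * (a * l)) = (X⁻¹ ^ k) ^ (a * l) := by rw [pow_mul, hxa]
      _ = (X⁻¹ ^ a) ^ (k * l) := by rw [← pow_mul, ← pow_mul]; congr 1; ring
      _ = (Y⁻¹ ^ b) ^ (k * l) := by rw [h0]
      _ = (Y⁻¹ ^ l) ^ (b * k) := by rw [← pow_mul, ← pow_mul]; congr 1; ring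
      _ = c ^ (j' * (b * k)) := by rw [pow_mul c, hyb]
  have h3' : a ∣ b * (j' * k) := ⟨i' * l, by
    rw [show b * (j' * k) = j' * (b * k) by ring, ← h1]
    ring⟩
  have h3 : a ∣ j' * k := hcop.dvd_of_dvd_mul_left h3'
  have h4 : j' ≤ B * D := by
    by_contra hcon
    push Not at hcon
    have h5 : c ^ j' < c ^ (B * l) := pow_lt_pow_right_of_lt_one₀ hc0 hc
      (lt_of_le_of_lt (Nat.mul_le_mul le_rfl hlD) hcon)
    rw [← hyb, pow_mul] at h5
    exact absurd h5 (not_lt.2 (pow_le_pow_left₀ (pow_nonneg hc0.le _) hYB l))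
  exact (Nat.le_of_dvd (Nat.mul_pos hj' hk) h3).trans (Nat.mul_le_mul h4 hkD)

lemma natDegree_inv_le {z : ℂ} (hz : IsAlgebraic ℚ z) :
    (minpoly ℚ z⁻¹).natDegree ≤ (minpoly ℚ z).natDegree := by
  have h3 : IntermediateField.adjoin ℚ {z⁻¹} ≤ IntermediateField.adjoin ℚ {z} := by
    rw [IntermediateField.adjoin_simple_le_iff]
    exact inv_mem (IntermediateField.mem_adjoin_simple_self _ _)
  have h4 : FiniteDimensional ℚ (IntermediateField.adjoin ℚ {z}) :=
    IntermediateField.adjoin.finiteDimensional hz.isIntegral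
  have h5 := LinearMap.finrank_le_finrank_of_injective
    (f := (IntermediateField.inclusion h3).toLinearMap) (IntermediateField.inclusion_injective h3)
  rwa [IntermediateField.adjoin.finrank hz.isIntegral,
    IntermediateField.adjoin.finrank hz.inv.isIntegral] at h5

/-- **the isogenies between algebraic numbers of bounded degree, uniformly in the place** -/
theorem uniform_bound {p : ℕ} (hp : p.Prime) (D B : ℕ) : ∃ M : ℕ, ∀ O : ValuationSubring ℂ,
    (p : ℂ) ∈ O.nonunits → ∀ x y : ℂ, IsAlgebraic ℚ x → (minpoly ℚ x).natDegree ≤ D →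
      IsAlgebraic ℚ y → (minpoly ℚ y).natDegree ≤ D → x ∉ O → y ∉ O →
        O.valuation (p : ℂ) ^ B ≤ O.valuation x⁻¹ → O.valuation (p : ℂ) ^ B ≤ O.valuation y⁻¹ →
          ∀ N : ℕ, CyclicIsog N x y → N ≤ M := by
  set q := ∏ f ∈ Finset.Icc 1 (D * D), (p ^ f - 1) with hq
  have hqpos : 0 < q := by
    refine Finset.prod_pos fun f hf => ?_
    have h1 : 1 < p ^ f := Nat.one_lt_pow (by have := (Finset.mem_Icc.1 hf).1; omega) hp.one_lt
    omega
  refine ⟨(B * D * D) * (B * D * D) * (q * (2 * (D * D))) ^ 2, ?_⟩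
  intro O hpO x y hxa hxD hya hyD hxO hyO hxB hyB N h
  rcases Nat.eq_zero_or_pos N with hN | hN
  · rw [hN]; exact Nat.zero_le _
  have vp := (val_non O).1 hpO
  have hp0 : (p : ℂ) ≠ 0 := by exact_mod_cast hp.ne_zero
  have vp0 : 0 < O.valuation (p : ℂ) := zero_lt_iff.2 ((Valuation.ne_zero_iff _).2 hp0)
  have hx0 : x ≠ 0 := by rintro rfl; exact hxO (zero_mem O)
  have hy0 : y ≠ 0 := by rintro rfl; exact hyO (zero_mem O)
  have vx0 : 0 < O.valuation x := zero_lt_iff.2 ((Valuation.ne_zero_iff _).2 hx0)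
  have vy0 : 0 < O.valuation y := zero_lt_iff.2 ((Valuation.ne_zero_iff _).2 hy0)
  have vx1 : 1 < O.valuation x := not_le.1 fun h => hxO ((val_mem O).2 h)
  have vy1 : 1 < O.valuation y := not_le.1 fun h => hyO ((val_mem O).2 h)
  have vxi : O.valuation x⁻¹ < 1 := by rw [map_inv₀]; exact inv_lt_one_of_one_lt₀ vx1
  have vyi : O.valuation y⁻¹ < 1 := by rw [map_inv₀]; exact inv_lt_one_of_one_lt₀ vy1
  have hDpos : 0 < D := (minpoly.natDegree_pos hxa.isIntegral).trans_le hxD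
  have hDD : D ≤ D * D := Nat.le_mul_of_pos_left D hDpos
  -- the modulus
  obtain ⟨P, hP0, vP1, vxP, vyP, hPD⟩ : ∃ P : ℂ, P ≠ 0 ∧ O.valuation P < 1 ∧ O.valuation x⁻¹ ≤ O.valuation P ∧
      O.valuation y⁻¹ ≤ O.valuation P ∧ O.valuation P ^ (D * D) ≤ O.valuation (p : ℂ) := by
    have key : ∀ {z : ℂ}, IsAlgebraic ℚ z → (minpoly ℚ z).natDegree ≤ D → O.valuation z⁻¹ < 1 →
        O.valuation z⁻¹ ^ (D * D) ≤ O.valuation (p : ℂ) := fun hz hzD hz1 =>
      (pow_le_pow_of_le_one zero_le hz1.le hDD).trans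
        (val_alg_gap hp hpO hz.inv ((natDegree_inv_le hz).trans hzD) hz1)
    rcases le_total (O.valuation x⁻¹) (O.valuation y⁻¹) with h1 | h1
    · exact ⟨y⁻¹, inv_ne_zero hy0, vyi, h1, le_rfl, key hya hyD vyi⟩
    · exact ⟨x⁻¹, inv_ne_zero hx0, vxi, le_rfl, h1, key hxa hxD vxi⟩
  have hPn : P ∈ O.nonunits := (val_non O).2 vP1
  have hPO : P ∈ O := (val_mem O).2 vP1.le
  -- rigidity
  have hm : Fact (0 < (N : ℤ)) := ⟨by exact_mod_cast hN⟩
  have hrel := (cyclicIsog_iff hN).1 h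
  obtain ⟨a, b, g, ζ, w, ha, hb, hab, hg, hNabg, hζ, hw, heq⟩ :=
    primPoly_rig (N : ℤ) ℂ O hPn hP0 hx0 hy0 vxP vyP hrel
  have heq' : x ^ a = ζ * y ^ b * (1 + P * w) := heq
  have hNabg' : N = a * b * g ^ 2 := by exact_mod_cast hNabg
  have vw : O.valuation (1 + P * w) = 1 := unit_of_sub O (lt_one_mul O vP1 hw)
  have hw0 : 1 + P * w ≠ 0 := by
    intro h0; rw [h0, map_zero] at vw; exact zero_ne_one vw
  have hζ0 : ζ ≠ 0 := hζ.ne_zero hg.ne'
  have vζ : O.valuation ζ = 1 := val_root_one O hg hζ.pow_eq_one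
  have hval : O.valuation x ^ a = O.valuation y ^ b := by
    have h1 := congrArg O.valuation heq'
    rwa [map_pow, map_mul, map_mul, vζ, one_mul, vw, mul_one, map_pow] at h1
  -- the exponents
  obtain ⟨k, i, hk, hkD, hki⟩ := val_alg hp hpO (inv_ne_zero hx0) hxa.inv ((natDegree_inv_le hxa).trans hxD)
  obtain ⟨l, j, hl, hlD, hlj⟩ := val_alg hp hpO (inv_ne_zero hy0) hya.inv ((natDegree_inv_le hya).trans hyD)
  rw [map_inv₀] at hki hlj hxB hyB vxi vyi
  have hale : a ≤ B * D * D :=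
    exp_boundO vp0 vp vyi.le hyB vx0 vy0 vxi vyi hab hval hk hkD hki hl hlD hlj
  have hble : b ≤ B * D * D :=
    exp_boundO vp0 vp vxi.le hxB vy0 vx0 vyi vxi hab.symm hval.symm hl hlD hlj hk hkD hki
  -- the root of unity
  set u := x ^ a / y ^ b with hu
  have huw : u = ζ * (1 + P * w) := by
    rw [hu, heq']
    field_simp
  have vu : O.valuation u = 1 := by rw [huw, map_mul, vζ, vw, one_mul]
  have hxm : x ∈ IntermediateField.adjoin ℚ {x} ⊔ IntermediateField.adjoin ℚ {y} :=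
    (le_sup_left : IntermediateField.adjoin ℚ {x} ≤ _) (IntermediateField.mem_adjoin_simple_self _ _)
  have hym : y ∈ IntermediateField.adjoin ℚ {x} ⊔ IntermediateField.adjoin ℚ {y} :=
    (le_sup_right : IntermediateField.adjoin ℚ {y} ≤ _) (IntermediateField.mem_adjoin_simple_self _ _)
  have hum : u ∈ IntermediateField.adjoin ℚ {x} ⊔ IntermediateField.adjoin ℚ {y} :=
    div_mem (pow_mem hxm _) (pow_mem hym _)
  obtain ⟨hua, huD⟩ := degree_sup hxa hya hxD hyD hum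
  obtain ⟨hra, hrD⟩ := degree_sup hxa hya hxD hyD (sub_mem (pow_mem hum q) (one_mem _))
  have h1 : O.valuation (u ^ q - 1) ^ (D * D) ≤ O.valuation (p : ℂ) :=
    val_alg_gap hp hpO hra hrD (residue_boundO hp hpO hua huD vu)
  -- `1 - ζ ^ q`
  have h2 : O.valuation ((1 + P * w) ^ q - 1) ≤ O.valuation P := by
    have hnear : LC.Near O P (1 + P * w) := ⟨w, hw, rfl⟩
    obtain ⟨w', hw', hww⟩ := hnear.pow hPO q
    rw [hww, add_sub_cancel_left, map_mul]
    exact mul_le_of_le_one_right' ((val_mem O).1 hw')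
  have hζq : O.valuation (1 - ζ ^ q) ^ (D * D) ≤ O.valuation (p : ℂ) := by
    have h3 : 1 - ζ ^ q = ζ ^ q * ((1 + P * w) ^ q - 1) - (u ^ q - 1) := by
      rw [huw, mul_pow]; ring
    have h4 : O.valuation (1 - ζ ^ q) ≤ max (O.valuation P) (O.valuation (u ^ q - 1)) := by
      rw [h3]
      refine (Valuation.map_sub _ _ _).trans (max_le_max ?_ le_rfl)
      rw [map_mul, map_pow, vζ, one_pow, one_mul]
      exact h2
    rcases le_total (O.valuation P) (O.valuation (u ^ q - 1)) with h5 | h5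
    · rw [max_eq_right h5] at h4
      exact (pow_le_pow_left₀ zero_le h4 _).trans h1
    · rw [max_eq_left h5] at h4
      exact (pow_le_pow_left₀ zero_le h4 _).trans hPD
  have hζN : (ζ ^ q) ^ g = 1 := by rw [← pow_mul, mul_comm, pow_mul, hζ.pow_eq_one, one_pow]
  have hord := order_le O hp hpO (Nat.mul_pos hDpos hDpos) hg hζN hζq
  have hordpos : 0 < orderOf (ζ ^ q) :=
    orderOf_pos_iff.2 (isOfFinOrder_iff_pow_eq_one.2 ⟨g, hg, hζN⟩)
  have h8 : g ≤ q * (2 * (D * D)) := by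
    have h9 : g ∣ q * orderOf (ζ ^ q) := by
      refine hζ.dvd_of_pow_eq_one _ ?_
      rw [pow_mul, pow_orderOf_eq_one]
    exact (Nat.le_of_dvd (Nat.mul_pos hqpos hordpos) h9).trans (Nat.mul_le_mul le_rfl hord)
  rw [hNabg']
  exact Nat.mul_le_mul (Nat.mul_le_mul hale hble) (Nat.pow_le_pow_left h8 2)

end

end Pool.Agent.Helper11.LC
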