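import Pool.Agent.Helper11.LC.Dil
import Pool.Agent.Helper11.LC.Uni

/-! # Generic points of curves over `ℚ` -/

open MvPolynomial Finset

namespace Pool.Agent.Helper11.LC
open Pool.Agent.Helper11.ZP Pool.Agent.Helper11.ZU Pool.Agent.Helper20.ZD Pool.Agent.Helper20.ZT

variable {n : ℕ}

/-- a curve is uncountable -/
theorem not_countable {Z : Set (Fin n → ℂ)} (hZ : IsSubvariety Z) (h1 : dim Z = 1) : ¬ Z.Countable := by
  intro hcount
  obtain ⟨E, hE, hind⟩ := exists_basis hZ
  rw [h1] at hE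
  obtain ⟨i, rfl⟩ := card_eq_one.1 hE
  have hD : ((fun z : Fin n → ℂ => z i) '' Z)ᶜ.Infinite := by
    intro hfin
    have h2 : (Set.univ : Set ℂ).Countable := by
      rw [← Set.union_compl_self ((fun z : Fin n → ℂ => z i) '' Z)]
      exact (hcount.image _).union hfin.countable
    exact not_countable_complex h2
  obtain ⟨x, hx, hxi⟩ := exists_spec' hZ hD {i} (by rw [card_singleton, h1]) hind
  exact hxi i (mem_singleton_self i) ⟨x, hx, rfl⟩

/-- **a curve has a generic point over `ℚ`** -/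
theorem exists_generic {Z : Set (Fin n → ℂ)} (hZ : IsSubvariety Z) (h1 : dim Z = 1) :
    ∃ z ∈ Z, ∀ G : MvPolynomial (Fin n) ℤ, aeval z G = 0 → ∀ x ∈ Z, aeval x G = 0 := by
  by_contra hcon
  push Not at hcon
  apply not_countable hZ h1
  have hcnt : Countable (MvPolynomial (Fin n) ℤ) := by
    rw [← Cardinal.mk_le_aleph0_iff]
    refine (cardinalMk_le_max_lift (σ := Fin n) (R := ℤ)).trans ?_
    simp
  have hsub : Z ⊆ ⋃ G ∈ {G : MvPolynomial (Fin n) ℤ | ∃ x ∈ Z, aeval x G ≠ 0},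
      (Z ∩ {z | aeval z G = 0}) := by
    intro z hz
    obtain ⟨G, hG, x, hx, hGx⟩ := hcon z hz
    exact Set.mem_biUnion (show G ∈ {G : MvPolynomial (Fin n) ℤ | ∃ x ∈ Z, aeval x G ≠ 0} from ⟨x, hx, hGx⟩)
      ⟨hz, hG⟩
  refine Set.Countable.mono hsub (Set.Countable.biUnion (Set.to_countable _) fun G hG => ?_)
  obtain ⟨x, hx, hGx⟩ := hG
  have hev : ∀ y : Fin n → ℂ, eval y (map (algebraMap ℤ ℂ) G) = aeval y G := fun y => by
    rw [eval_map, aeval_def]
  have h2 := finite_section hZ h1.le (f := map (algebraMap ℤ ℂ) G) (fun hcon => hGx (by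
    rw [← hev]
    exact mem_van.1 hcon x hx))
  refine (h2.subset ?_).countable
  rintro y ⟨hy, hGy⟩
  exact ⟨hy, by
    change eval y _ = 0
    rw [hev]; exact hGy⟩

end Pool.Agent.Helper11.LC
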