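import Pool.Agent.Helper11.LC.Conj
import Pool.Agent.Helper36.DL.Place
import Pool.Agent.Helper69.DL.Gap

/-! # Monomials in the coordinates of a generic point -/

open MvPolynomial Finset

namespace Pool.Agent.Helper11.LC
open Pool.Agent.Helper11.ZP Pool.Agent.Helper11.ZU Pool.Agent.Helper20.ZD Pool.Agent.Helper20.ZT
  Pool.Agent.Helper20.DL Pool.Agent.Helper69.DL

variable {n : ℕ}

lemma mon_mul {x : Fin n → ℂ} {a : Fin n → ℤ} (hx : ∀ i, x i = 0 → 0 ≤ a i) :
    (∏ i, x i ^ a i) * ∏ i, x i ^ (-a i).toNat = ∏ i, x i ^ (a i).toNat := by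
  rw [← prod_mul_distrib]
  refine prod_congr rfl fun i _ => ?_
  rcases le_or_gt 0 (a i) with h | h
  · have h1 : ((a i).toNat : ℤ) = a i := Int.toNat_of_nonneg h
    have h2 : (-a i).toNat = 0 := Int.toNat_of_nonpos (by omega)
    rw [h2, pow_zero, mul_one]
    conv_lhs => rw [← h1, zpow_natCast]
  · have h1 : ((-a i).toNat : ℤ) = -a i := Int.toNat_of_nonneg (by omega)
    have h2 : (a i).toNat = 0 := Int.toNat_of_nonpos (by omega)
    have h0 : x i ≠ 0 := fun h0 => by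
      have := hx i h0
      omega
    rw [h2, pow_zero, ← zpow_natCast, h1, ← zpow_add₀ h0, add_neg_cancel, zpow_zero]

lemma mon_neg_ne {x : Fin n → ℂ} {a : Fin n → ℤ} (hx : ∀ i, x i = 0 → 0 ≤ a i) :
    ∏ i, x i ^ (-a i).toNat ≠ 0 := by
  refine prod_ne_zero_iff.2 fun i _ h => ?_
  obtain ⟨h1, h2⟩ := pow_eq_zero_iff'.1 h
  have := hx i h1
  exact h2 (Int.toNat_of_nonpos (by omega))

/-- clearing denominators -/
lemma exists_clear (H : MvPolynomial (Fin 2) ℤ) (a b : Fin n → ℤ) :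
    ∃ G : MvPolynomial (Fin n) ℤ, ∀ x : Fin n → ℂ, (∀ i, x i = 0 → 0 ≤ a i ∧ 0 ≤ b i) →
      aeval x G = (∏ i, x i ^ (-a i).toNat) ^ H.degreeOf 0 * (∏ i, x i ^ (-b i).toNat) ^ H.degreeOf 1 *
        ev H (∏ i, x i ^ a i) (∏ i, x i ^ b i) := by
  refine ⟨∑ m ∈ H.support, C (H.coeff m) * (∏ i, X i ^ (a i).toNat) ^ m 0 *
    (∏ i, X i ^ (-a i).toNat) ^ (H.degreeOf 0 - m 0) * ((∏ i, X i ^ (b i).toNat) ^ m 1 *
    (∏ i, X i ^ (-b i).toNat) ^ (H.degreeOf 1 - m 1)), fun x hx => ?_⟩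
  rw [map_sum, Helper20.DL.ev, mul_sum]
  refine sum_congr rfl fun m hm => ?_
  have h1 := monomial_le_degreeOf 0 hm
  have h2 := monomial_le_degreeOf 1 hm
  have h3 := mon_mul (x := x) (a := a) fun i hi => (hx i hi).1
  have h4 := mon_mul (x := x) (a := b) fun i hi => (hx i hi).2
  simp only [map_mul, map_pow, map_prod, aeval_X, aeval_C]
  rw [← h3, ← h4, mul_pow, mul_pow]
  obtain ⟨k, hk⟩ := Nat.exists_eq_add_of_le h1
  obtain ⟨l, hl⟩ := Nat.exists_eq_add_of_le h2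
  rw [hk, hl, Nat.add_sub_cancel_left, Nat.add_sub_cancel_left, pow_add, pow_add]
  have h5 : (algebraMap ℤ ℂ) (H.coeff m) = ((H.coeff m : ℤ) : ℂ) := rfl
  rw [h5]
  ring

/-- a relation between two monomials at a generic point holds on the curve -/
theorem holds_of_generic {Z : Set (Fin n → ℂ)} {z : Fin n → ℂ}
    (hgen : ∀ G : MvPolynomial (Fin n) ℤ, aeval z G = 0 → ∀ x ∈ Z, aeval x G = 0) (hz : ∀ i, z i ≠ 0)
    {H : MvPolynomial (Fin 2) ℤ} {a b : Fin n → ℤ} (h : ev H (∏ i, z i ^ a i) (∏ i, z i ^ b i) = 0) :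
    Holds H Z a b := by
  obtain ⟨G, hG⟩ := exists_clear H a b
  intro x hx hx0
  have h1 := hgen G (by rw [hG z fun i hi => absurd hi (hz i), h, mul_zero]) x hx
  rw [hG x hx0, mul_eq_zero, mul_eq_zero] at h1
  rcases h1 with (h1 | h1) | h1
  · exact absurd h1 (pow_ne_zero _ (mon_neg_ne fun i hi => (hx0 i hi).1))
  · exact absurd h1 (pow_ne_zero _ (mon_neg_ne fun i hi => (hx0 i hi).2))
  · exact h1

/-- the coordinates of a generic point are transcendental -/
theorem transc_coord {Z : Set (Fin n → ℂ)} (hZ : IsSubvariety Z) (h1 : dim Z = 1)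
    (hc : ∀ (i : Fin n) (c : ℂ), ∃ z ∈ Z, z i ≠ c) {z : Fin n → ℂ}
    (hgen : ∀ G : MvPolynomial (Fin n) ℤ, aeval z G = 0 → ∀ x ∈ Z, aeval x G = 0) (i : Fin n) :
    Transcendental ℤ (z i) := by
  rintro ⟨P, hP0, hP⟩
  have hinj : Function.Injective (algebraMap ℤ ℂ) := (algebraMap ℤ ℂ).injective_int
  have hD : ({y : ℂ | Polynomial.aeval y P = 0}ᶜ : Set ℂ).Infinite := by
    refine Set.Finite.infinite_compl ?_
    refine (P.rootSet_finite ℂ).subset fun y hy => ?_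
    rw [Polynomial.mem_rootSet']
    exact ⟨(Polynomial.map_ne_zero_iff hinj).2 hP0, hy⟩
  obtain ⟨x, hx, hxi⟩ := exists_spec' hZ hD {i} (by rw [card_singleton, h1])
    (fun f hf hf2 => transc_of_nonconst hZ (hc i) hf hf2)
  refine hxi i (mem_singleton_self i) ?_
  have h2 := hgen (Polynomial.aeval (X i) P) (by rw [← Polynomial.aeval_algHom_apply, aeval_X]; exact hP) x hx
  rwa [← Polynomial.aeval_algHom_apply, aeval_X] at h2

/-- the monomials are transcendental -/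
theorem transc_mon {Z : Set (Fin n → ℂ)} (hZ : IsSubvariety Z) (h1 : dim Z = 1)
    (hc : ∀ (i : Fin n) (c : ℂ), ∃ z ∈ Z, z i ≠ c) (hcor : CornerPos 1 Z) {z : Fin n → ℂ}
    (hgen : ∀ G : MvPolynomial (Fin n) ℤ, aeval z G = 0 → ∀ x ∈ Z, aeval x G = 0) {c : Fin n → ℤ}
    (hc0 : ∃ i, c i ≠ 0) : Transcendental ℤ (∏ i, z i ^ c i) := by
  classical
  have hz0 : ∀ i, z i ≠ 0 := fun i h => transc_coord hZ h1 hc hgen i (by rw [h]; exact isAlgebraic_zero)
  intro halg
  have hne : (∏ i, z i ^ c i) ≠ 0 := prod_ne_zero_iff.2 fun i _ => zpow_ne_zero _ (hz0 i)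
  obtain ⟨P, hP0, hP⟩ := halg.exists_nonzero_coeff_and_aeval_eq_zero (mem_nonZeroDivisors_of_ne_zero hne)
  have hPne : P ≠ 0 := by
    rintro rfl
    exact hP0 (Polynomial.coeff_zero 0)
  have hev : ∀ x y : ℂ, ev (Polynomial.aeval (X 0 : MvPolynomial (Fin 2) ℤ) P) x y = Polynomial.aeval x P := by
    intro x y
    rw [ev_eq_aeval, ← Polynomial.aeval_algHom_apply, aeval_X]
    rfl
  have hH : Holds (Polynomial.aeval (X 0 : MvPolynomial (Fin 2) ℤ) P) Z c 0 :=
    holds_of_generic hgen hz0 (by rw [hev]; exact hP)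
  obtain ⟨M, hM, hun⟩ := corners_unit hcor
  obtain ⟨p, hpM, hp⟩ := Nat.exists_infinite_primes (M + (P.coeff 0).natAbs + P.leadingCoeff.natAbs + 1)
  obtain ⟨v, hv, hvp⟩ := Helper36.DL.exists_place hp
  have hp1 : (1 : ℝ) < p := by exact_mod_cast hp.one_lt
  have hvp1 : v (p : ℂ) < 1 := by rw [hvp]; exact inv_lt_one_of_one_lt₀ hp1
  have hvp0 : 0 < v (p : ℂ) := by rw [hvp]; positivity
  have hvM : v (M : ℂ) = 1 := v_nat_eq_one hv hp hvp1 (Nat.not_dvd_of_pos_of_lt hM (by omega))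
  obtain ⟨i, hi⟩ := hc0
  have hD : (Set.range fun m : ℕ => (p : ℂ) ^ (m + 1)).Infinite := by
    refine Set.infinite_range_of_injective fun a b hab => ?_
    have h3 : p ^ (a + 1) = p ^ (b + 1) := by exact_mod_cast hab
    have := Nat.pow_right_injective hp.two_le h3
    omega
  obtain ⟨x, hx, hxi⟩ := exists_spec' hZ hD {i} (by rw [card_singleton, h1])
    (fun f hf hf2 => transc_of_nonconst hZ (hc i) hf hf2)
  obtain ⟨m, hm⟩ := hxi i (mem_singleton_self i)
  have hvi : v (x i) < 1 := by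
    rw [← hm]
    change v ((p : ℂ) ^ (m + 1)) < 1
    rw [map_pow]
    exact pow_lt_one₀ hvp0.le hvp1 (Nat.succ_ne_zero m)
  have hvi0 : 0 < v (x i) := by
    rw [← hm]
    change 0 < v ((p : ℂ) ^ (m + 1))
    rw [map_pow]
    exact pow_pos hvp0 _
  have hvj : ∀ j, j ≠ i → v (x j) = 1 := by
    intro j hj
    rcases hun v hv hvM x hx j i hj with h | h
    · exact h
    · exact absurd h hvi.ne
  have hx0 : ∀ j, x j ≠ 0 := by
    intro j hj
    by_cases hji : j = i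
    · rw [← hji, hj, map_zero] at hvi0
      exact lt_irrefl _ hvi0
    · have h2 := hvj j hji
      rw [hj, map_zero] at h2
      exact zero_ne_one h2
  have h2 := hH x hx fun j hj => absurd hj (hx0 j)
  rw [hev] at h2
  have hinj : Function.Injective (algebraMap ℤ ℂ) := (algebraMap ℤ ℂ).injective_int
  have hint : ∀ k : ℤ, k ≠ 0 → k.natAbs < p → v (k : ℂ) = 1 := by
    intro k hk hkp
    refine v_int_eq_one hv hp hvp1 fun h => ?_
    have h3 := Nat.le_of_dvd (Int.natAbs_pos.2 hk) (Int.natCast_dvd.1 h)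
    omega
  have h3 : v (∏ j, x j ^ c j) = 1 := by
    refine val_root_eq hv (P := P.map (algebraMap ℤ ℂ)) (fun k => ?_) ?_ ?_ _ ?_
    · rw [Polynomial.coeff_map]
      exact hv.apply_intCast_le_one
    · rw [Polynomial.leadingCoeff_map_of_injective hinj]
      exact hint _ (Polynomial.leadingCoeff_ne_zero.2 hPne) (by omega)
    · rw [Polynomial.coeff_map]
      exact hint _ hP0 (by omega)
    · rw [Polynomial.mem_roots (Polynomial.map_ne_zero_iff hinj |>.2 hPne), Polynomial.IsRoot.def,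
        Polynomial.eval_map]
      exact h2
  rw [map_prod, ← mul_prod_erase univ _ (mem_univ i), prod_eq_one (s := univ.erase i), mul_one, map_zpow₀,
    zpow_eq_one_iff_right₀ hvi0.le hvi.ne] at h3
  · exact hi h3
  · intro j hj
    rw [map_zpow₀, hvj j (mem_erase.1 hj).1, one_zpow]

end Pool.Agent.Helper11.LC
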