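import Pool.Agent.Helper11.LC.Uni
import Pool.Agent.Helper20.ZD.Main
import Pool.Agent.Helper11.ZV.Place
import Pool.Agent.Helper36.ZV.Dom

/-! # Isogenous coordinates of the points of a curve: integrality -/

open UpperHalfPlane MvPolynomial Finset

namespace Pool.Agent.Helper11.LC
open Pool.Agent.Helper11.ZP Pool.Agent.Helper11.ZU Pool.Agent.Helper11.ZV Pool.Agent.Helper20.ZT
  Pool.Agent.Helper20.ZT.Prim Pool.Agent.Helper20.ZD Pool.Agent

variable {n : ℕ}

/-- `x` and `y` are isogenous -/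
def Related (x y : ℂ) : Prop := ∃ N : ℕ, 0 < N ∧ CyclicIsog N x y

lemma Related.mem {O : ValuationSubring ℂ} {x y : ℂ} (h : Related x y) (hx : x ∈ O) : y ∈ O := by
  obtain ⟨N, hN, h⟩ := h
  have hm : Fact (0 < (N : ℤ)) := ⟨by exact_mod_cast hN⟩
  exact mem_of_rel (K := ℂ) O (primPoly_monic (N : ℤ)) hx ((cyclicIsog_iff hN).1 h)

/-- a multiple of an algebraic number is integral -/
lemma alg_den {c : ℂ} (halg : IsAlgebraic ℚ c) : ∃ m : ℕ, 0 < m ∧ IsIntegral ℤ ((m : ℂ) * c) := by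
  have h1 : IsAlgebraic ℤ c := (IsFractionRing.isAlgebraic_iff ℤ ℚ ℂ).2 halg
  obtain ⟨y, hy, hint⟩ := h1.exists_integral_multiple
  refine ⟨y.natAbs, Int.natAbs_pos.2 hy, ?_⟩
  rw [zsmul_eq_mul] at hint
  rcases Int.natAbs_eq y with h | h
  · rw [h, Int.cast_natCast] at hint
    exact hint
  · rw [h, Int.cast_neg, Int.cast_natCast, neg_mul] at hint
    exact neg_neg ((y.natAbs : ℂ) * c) ▸ hint.neg

/-- for every pair of coordinates some polynomial in them, with coefficients in `K`, which contains its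
top monomial, vanishes on `C` -/
def PairPos (K : Set ℂ) (C : Set (Fin n → ℂ)) : Prop :=
  ∀ i j : Fin n, i ≠ j → ∃ f : MvPolynomial (Fin n) ℂ, f.vars ⊆ {i, j} ∧ (∀ m, f.coeff m ∈ K) ∧
    f.coeff (Finsupp.equivFunOnFinite.symm fun i => f.degreeOf i) ≠ 0 ∧ ∀ z ∈ C, eval z f = 0

/-- one pair of coordinates -/
lemma exists_den_pair {V : Set (Fin n → ℂ)} {i j : Fin n} {f : MvPolynomial (Fin n) ℂ}
    (hf1 : f.vars ⊆ {i, j}) (hf2 : ∀ m, IsAlgebraic ℚ (f.coeff m))
    (hf3 : f.coeff (Finsupp.equivFunOnFinite.symm fun i => f.degreeOf i) ≠ 0) (hf4 : ∀ z ∈ V, eval z f = 0) :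
    ∃ A : ℕ, 0 < A ∧ ∀ O : ValuationSubring ℂ, ∀ z ∈ V, (A : ℂ) * z i ∈ O ∨ (A : ℂ) * z j ∈ O := by
  classical
  set c := f.coeff (Finsupp.equivFunOnFinite.symm fun i => f.degreeOf i) with hc
  set g := C c⁻¹ * f with hg
  have hgc : ∀ m, g.coeff m = c⁻¹ * f.coeff m := fun m => by rw [hg, coeff_C_mul]
  have hdeg : ∀ k, g.degreeOf k = f.degreeOf k := fun k => by
    rw [hg, degreeOf_C_mul' (inv_ne_zero hf3)]
  choose N hN0 hN using fun m : Fin n →₀ ℕ => alg_den ((hf2 _).inv.mul (hf2 m) : IsAlgebraic ℚ (c⁻¹ * f.coeff m))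
  refine ⟨∏ m ∈ f.support, N m, prod_pos fun m _ => hN0 m, fun O z hz => ?_⟩
  have hA0 : ((∏ m ∈ f.support, N m : ℕ) : ℂ) ≠ 0 := by
    exact_mod_cast (prod_pos fun m _ => hN0 m : 0 < ∏ m ∈ f.support, N m).ne'
  have hcoef : ∀ m, algebraMap ℂ ℂ (((∏ m ∈ f.support, N m : ℕ) : ℂ) * g.coeff m) ∈ O := by
    intro m
    change ((∏ m ∈ f.support, N m : ℕ) : ℂ) * g.coeff m ∈ O
    rw [hgc]
    by_cases hm : m ∈ f.support
    · rw [← mul_prod_erase _ _ hm, Nat.cast_mul, mul_comm (N m : ℂ), mul_assoc]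
      exact mul_mem (natCast_mem O _) (mem_of_isIntegral_int O (hN m))
    · rw [notMem_support_iff.1 hm, mul_zero, mul_zero]
      exact zero_mem O
  obtain ⟨k, hk, hkO⟩ := dominM (K := ℂ) O hA0 (J := {i, j}) (f := g) (x := z)
    ((vars_mul _ _).trans (by rw [vars_C, empty_union]; exact hf1)) hcoef (by
      rw [show (Finsupp.equivFunOnFinite.symm fun i => g.degreeOf i : Fin n →₀ ℕ) =
        Finsupp.equivFunOnFinite.symm fun i => f.degreeOf i by congr 1; funext k; exact hdeg k, hgc,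
        inv_mul_cancel₀ hf3]) (by
      rw [aeval_eq_eval, hg, map_mul, hf4 z hz, mul_zero])
  rcases mem_insert.1 hk with rfl | hk
  · exact Or.inl hkO
  · rw [mem_singleton] at hk
    subst hk
    exact Or.inr hkO

/-- **a common denominator**: for every valuation ring and every point of `C` at most one coordinate has
a large denominator -/
theorem exists_den {C : Set (Fin n → ℂ)} {K : Set ℂ} (hK : ∀ x ∈ K, IsAlgebraic ℚ x) (hC : PairPos K C) :
    ∃ A : ℕ, 0 < A ∧ ∀ O : ValuationSubring ℂ, ∀ z ∈ C, ∀ i j : Fin n, i ≠ j →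
      (A : ℂ) * z i ∈ O ∨ (A : ℂ) * z j ∈ O := by
  classical
  have h1 : ∀ ij : Fin n × Fin n, ∃ A : ℕ, 0 < A ∧ (ij.1 ≠ ij.2 → ∀ O : ValuationSubring ℂ, ∀ z ∈ C,
      (A : ℂ) * z ij.1 ∈ O ∨ (A : ℂ) * z ij.2 ∈ O) := by
    rintro ⟨i, j⟩
    by_cases hij : i = j
    · exact ⟨1, one_pos, fun h => absurd hij h⟩
    · obtain ⟨f, hf1, hf2, hf3, hf4⟩ := hC i j hij
      obtain ⟨A, hA, h⟩ := exists_den_pair hf1 (fun m => hK _ (hf2 m)) hf3 hf4
      exact ⟨A, hA, fun _ => h⟩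
  choose A hA0 hA using h1
  refine ⟨∏ ij : Fin n × Fin n, A ij, prod_pos fun ij _ => hA0 ij, fun O z hz i j hij => ?_⟩
  rw [← mul_prod_erase _ _ (mem_univ (i, j)), Nat.cast_mul, mul_comm (A (i, j) : ℂ), mul_assoc, mul_assoc]
  rcases hA (i, j) hij O z hz with h | h
  · exact Or.inl (mul_mem (natCast_mem O _) h)
  · exact Or.inr (mul_mem (natCast_mem O _) h)

/-- the valuation of a natural number -/
lemma val_nat_eq {O : ValuationSubring ℂ} {p : ℕ} (hp : p.Prime) (hpO : (p : ℂ) ∈ O.nonunits) {A : ℕ}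
    (hA : 0 < A) : O.valuation (A : ℂ) = O.valuation (p : ℂ) ^ A.factorization p := by
  obtain ⟨e, q, hq, he⟩ := Nat.exists_eq_pow_mul_and_not_dvd hA.ne' p hp.ne_one
  have h2 := int_unit O hp hpO (u := (q : ℤ)) (fun h => hq (Int.natCast_dvd_natCast.1 h))
  rw [Int.cast_natCast] at h2
  have h3 : A.factorization p = e := by
    rw [he, Nat.factorization_mul (pow_pos hp.pos e).ne' (by rintro rfl; exact hq (dvd_zero _)),
      Nat.Prime.factorization_pow hp]
    simp [Nat.factorization_eq_zero_of_not_dvd hq]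
  rw [h3, he]
  push_cast
  rw [map_mul, map_pow, h2, mul_one]

/-- **integrality of the isogenous coordinates**: all but finitely many points of `C` at which at least
three coordinates are pairwise isogenous and algebraic of degree at most `D` have the property that
these coordinates are integral -/
theorem finite_nonintegral {C : Set (Fin n → ℂ)} (hC : IsSubvariety C) (h1 : dim C = 1)
    (hCS : ∀ S : SpecialData n, dim S.carrier < n → ¬ C ⊆ S.carrier)
    {K : Set ℂ} (hK : ∀ x ∈ K, IsAlgebraic ℚ x) (hCK : PairPos K C) (D : ℕ) :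
    {z ∈ C | ∃ T : Finset (Fin n), 3 ≤ T.card ∧ (∀ a ∈ T, ∀ b ∈ T, a ≠ b → Related (z a) (z b)) ∧
      (∀ a ∈ T, IsAlgebraic ℚ (z a) ∧ (minpoly ℚ (z a)).natDegree ≤ D) ∧
      ∃ a ∈ T, ¬ IsIntegral ℤ (z a)}.Finite := by
  classical
  obtain ⟨A, hA, hden⟩ := exists_den hK hCK
  choose M hM using fun p : A.primeFactors => uniform_bound (Nat.prime_of_mem_primeFactors p.2) D
    (A.factorization p)
  set B : ℕ := univ.sup M with hB
  have hf : levelPoly n B ∉ vanishingIdeal ℂ C := by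
    intro hcon
    obtain ⟨i, j, N, hij, hN, -, h⟩ := exists_of_levelPoly (M := B) hC hcon
    exact hCS _ (dim_hypData hN hij) fun x hx => (mem_hypData hN hij x).2 (h x hx)
  refine (finite_section hC h1.le hf).subset ?_
  rintro z ⟨hz, T, hT, hrel, halg, c, hc, hcint⟩
  refine ⟨hz, ?_⟩
  obtain ⟨p, O, hp, hpO, hcO⟩ := Helper36.ZV.exists_pole (halg c hc).1 hcint
  have hout : ∀ a ∈ T, z a ∉ O := by
    intro a ha hmem
    by_cases hac : a = c
    · exact hcO (hac ▸ hmem)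
    · exact hcO ((hrel a ha c hc hac).mem hmem)
  -- two coordinates with small denominators
  obtain ⟨a, b, ha, hb, hab, haA, hbA⟩ : ∃ a b : Fin n, a ∈ T ∧ b ∈ T ∧ a ≠ b ∧ (A : ℂ) * z a ∈ O ∧
      (A : ℂ) * z b ∈ O := by
    set T' := T.filter fun a => (A : ℂ) * z a ∈ O with hT'
    have h2 : (T \ T').card ≤ 1 := by
      rw [card_le_one]
      intro a ha b hb
      by_contra hab
      rw [mem_sdiff] at ha hb
      rcases hden O z hz a b hab with h | h
      · exact ha.2 (mem_filter.2 ⟨ha.1, h⟩)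
      · exact hb.2 (mem_filter.2 ⟨hb.1, h⟩)
    have h3 : T'.card + (T \ T').card = T.card := by
      rw [add_comm]
      exact card_sdiff_add_card_eq_card (filter_subset _ _)
    obtain ⟨a, ha, b, hb, hab⟩ := one_lt_card.1 (show 1 < T'.card by omega)
    exact ⟨a, b, (mem_filter.1 ha).1, (mem_filter.1 hb).1, hab, (mem_filter.1 ha).2, (mem_filter.1 hb).2⟩
  have hpA : p ∣ A := by
    by_contra hpA
    have h2 := int_unit O hp hpO (u := (A : ℤ)) (fun h => hpA (Int.natCast_dvd_natCast.1 h))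
    rw [Int.cast_natCast] at h2
    rw [val_mem, map_mul, h2, one_mul, ← val_mem] at haA
    exact hout a ha haA
  have hpA' : p ∈ A.primeFactors := Nat.mem_primeFactors.2 ⟨hp, hpA, hA.ne'⟩
  obtain ⟨N, hN, hiso⟩ := hrel a ha b hb hab
  have hval : ∀ {x : ℂ}, x ∉ O → (A : ℂ) * x ∈ O → O.valuation (p : ℂ) ^ A.factorization p ≤ O.valuation x⁻¹ := by
    intro x hx hAx
    have hx0 : x ≠ 0 := by rintro rfl; exact hx (zero_mem O)
    have vx0 : 0 < O.valuation x := zero_lt_iff.2 ((Valuation.ne_zero_iff _).2 hx0)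
    rw [val_mem, map_mul, val_nat_eq hp hpO hA] at hAx
    rw [map_inv₀, ← one_div, le_div_iff₀ vx0]
    exact hAx
  have hNM := hM ⟨p, hpA'⟩ O hpO (z a) (z b) (halg a ha).1 (halg a ha).2 (halg b hb).1 (halg b hb).2
    (hout a ha) (hout b hb) (hval (hout a ha) haA) (hval (hout b hb) hbA) N hiso
  exact eval_levelPoly hab hN (hNM.trans (Finset.le_sup (f := M) (mem_univ (⟨p, hpA'⟩ : A.primeFactors)))) hiso

end Pool.Agent.Helper11.LC
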