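import Pool.Agent.Helper11.LC.Small
import Pool.Agent.Helper20.ZD.Main
import Pool.Agent.Helper20.ZD.Splits

/-! # Points over local fields on special subvarieties -/

open UpperHalfPlane MvPolynomial Finset

namespace Pool.Agent.Helper11.LC
open Pool.Agent.Helper11.ZP Pool.Agent.Helper11.ZU Pool.Agent.Helper20.ZT Pool.Agent.Helper20.ZT.Prim
  Pool.Agent.Helper20.ZD

variable {n : ℕ} {v : AbsoluteValue ℂ ℝ}

/-- two coordinates which are not special are in the same class -/
theorem exists_pair_pt (S : SpecialData n) {x : Fin n → ℂ} (hx : x ∈ S.carrier) {I : Finset (Fin n)}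
    (hI : S.r < I.card) (hns : ∀ i ∈ I, ¬ IsSpecialPoint (x i)) :
    ∃ (i j : Fin n) (s : Fin S.r), i ∈ I ∧ j ∈ I ∧ i ≠ j ∧ S.cls i = some s ∧ S.cls j = some s := by
  classical
  have hcls : ∀ i : I, ∃ s, S.cls i.1 = some s := by
    rintro ⟨i, hi⟩
    rcases h : S.cls i with _ | s
    · exfalso
      apply hns i hi
      rw [hx.1 i h]
      exact S.hc i h
    · exact ⟨s, rfl⟩
  choose f hf using hcls
  obtain ⟨i, -, j, -, hij, hfij⟩ := Finset.exists_ne_map_eq_of_card_lt_of_maps_to (s := (univ : Finset I))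
    (t := (univ : Finset (Fin S.r))) (by rw [card_univ, card_univ, Fintype.card_coe, Fintype.card_fin]; exact hI)
    (f := f) (fun i _ => mem_coe.2 (mem_univ _))
  exact ⟨i.1, j.1, f i, i.2, j.2, fun h => hij (Subtype.ext h), hf i, by rw [hfij]; exact hf j⟩

/-- **every subvariety**: the points of `V` on the special subvarieties of codimension greater than
`dim V`, at most `dim V` coordinates of which are not in `Δ`, are not Zariski dense in `V` -/
theorem points_notDense {Δ : Set ℂ} (hΔ : IsogenyBounded Δ) {V : Set (Fin n → ℂ)} (hV : IsSubvariety V)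
    (hVS : ∀ S : SpecialData n, dim S.carrier < n → ¬ V ⊆ S.carrier) :
    ∃ f : MvPolynomial (Fin n) ℂ, (∃ x ∈ V, eval x f ≠ 0) ∧ ∀ x ∈ V,
      (∃ S : SpecialData n, dim V + dim S.carrier < n ∧ x ∈ S.carrier) →
      (∀ J : Finset (Fin n), (∀ i ∈ J, x i ∉ Δ) → J.card ≤ dim V) → eval x f = 0 := by
  classical
  obtain ⟨M, hM⟩ := hΔ.bounded
  refine ⟨levelPoly n M, ?_, ?_⟩
  · by_contra hcon
    push Not at hcon
    obtain ⟨i, j, N, hij, hN, -, h⟩ := exists_of_levelPoly (M := M) hV (mem_van.2 hcon)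
    exact hVS _ (dim_hypData hN hij) fun x hx => (mem_hypData hN hij x).2 (h x hx)
  · rintro x hx ⟨S, hS, hxS⟩ hJ
    have hr := S.le_dim
    have h1 := hJ (univ.filter fun i => x i ∉ Δ) fun i hi => (mem_filter.1 hi).2
    have h2 := Finset.card_filter_add_card_filter_not (s := (univ : Finset (Fin n))) (fun i => x i ∈ Δ)
    rw [card_univ, Fintype.card_fin] at h2
    obtain ⟨i, j, s, hi, hj, hij, hsi, hsj⟩ := exists_pair_pt S hxS (I := univ.filter fun i => x i ∈ Δ)
      (by omega) fun i hi => hΔ.special _ (mem_filter.1 hi).2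
    obtain ⟨N, hN, h⟩ := class_isog S hsi hsj
    exact eval_levelPoly hij hN (hM _ (mem_filter.1 hi).2 _ (mem_filter.1 hj).2 _ (h x hxS)) (h x hxS)

/-- **every curve** -/
theorem points_finite {Δ : Set ℂ} (hΔ : IsogenyBounded Δ) {C : Set (Fin n → ℂ)} (hC : IsSubvariety C)
    (h1 : dim C = 1) (hCS : ∀ S : SpecialData n, dim S.carrier < n → ¬ C ⊆ S.carrier) :
    {x ∈ C | (∃ S : SpecialData n, dim S.carrier + 2 ≤ n ∧ x ∈ S.carrier) ∧
      ∀ J : Finset (Fin n), (∀ i ∈ J, x i ∉ Δ) → J.card ≤ 1}.Finite := by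
  refine (finite_points hΔ hC h1 hCS).subset ?_
  rintro x ⟨hx, hS, hJ⟩
  refine ⟨hx, hS, fun i j hi hj => ?_⟩
  classical
  by_contra hij
  have h2 := hJ {i, j} (by
    intro k hk
    rw [mem_insert, mem_singleton] at hk
    rcases hk with rfl | rfl
    · exact hi
    · exact hj)
  rw [card_pair hij] at h2
  omega

/-- the exponent of the monomial `∏_{i ∈ I} T_i ^ (deg_i f)` -/
noncomputable def corner (f : MvPolynomial (Fin n) ℂ) (I : Finset (Fin n)) : Fin n →₀ ℕ :=
  open Classical in Finsupp.equivFunOnFinite.symm fun i => if i ∈ I then f.degreeOf i else 0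

/-- `f` is a polynomial in the variables `T_i`, `i ∈ J`, with `v`-integral coefficients, whose corner
coefficients are units -/
def UnitCorners (v : AbsoluteValue ℂ ℝ) (J : Finset (Fin n)) (f : MvPolynomial (Fin n) ℂ) : Prop :=
  f.vars ⊆ J ∧ (∀ m, v (f.coeff m) ≤ 1) ∧ ∀ I ⊆ J, v (f.coeff (corner f I)) = 1

/-- a zero of a polynomial with unit corners has a unit coordinate -/
theorem exists_unit_coord (hv : IsNonarchimedean v) {J : Finset (Fin n)} {f : MvPolynomial (Fin n) ℂ}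
    (hf : UnitCorners v J f) {z : Fin n → ℂ} (hz : eval z f = 0) : ∃ i ∈ J, v (z i) = 1 := by
  classical
  by_contra hcon
  push Not at hcon
  obtain ⟨hvars, hint, hcor⟩ := hf
  set I : Finset (Fin n) := J.filter fun i => 1 < v (z i) with hI
  set t : Fin n →₀ ℕ := corner f I with ht
  have hIJ : I ⊆ J := filter_subset _ _
  have hc := hcor I hIJ
  have hti : ∀ i, t i = if i ∈ I then f.degreeOf i else 0 := fun i => rfl
  have hdeg : ∀ i ∉ J, ∀ m ∈ f.support, m i = 0 := fun i hi m hm => by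
    by_contra h
    exact hi (hvars ((mem_vars_iff_mem_support i).2 ⟨m, hm, Finsupp.mem_support_iff.2 h⟩))
  have hnn : ∀ i, 0 ≤ v (z i) := fun i => AbsoluteValue.nonneg v _
  have hle : ∀ m ∈ f.support, ∀ i, v (z i) ^ m i ≤ v (z i) ^ t i := by
    intro m hm i
    rw [hti]
    by_cases hiI : i ∈ I
    · rw [if_pos hiI]
      exact pow_le_pow_right₀ (mem_filter.1 hiI).2.le (monomial_le_degreeOf i hm)
    · rw [if_neg hiI, pow_zero]
      by_cases hiJ : i ∈ J
      · refine pow_le_one₀ (hnn i) ?_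
        by_contra h
        exact hiI (mem_filter.2 ⟨hiJ, not_le.1 h⟩)
      · rw [hdeg i hiJ m hm, pow_zero]
  have hlt : ∀ m ∈ f.support, ∀ j, m j ≠ t j → v (z j) ^ m j < v (z j) ^ t j := by
    intro m hm j hj
    rw [hti] at hj ⊢
    by_cases hjI : j ∈ I
    · rw [if_pos hjI] at hj ⊢
      have h1 := monomial_le_degreeOf j hm
      exact pow_lt_pow_right₀ (mem_filter.1 hjI).2 (lt_of_le_of_ne h1 hj)
    · rw [if_neg hjI] at hj ⊢
      rw [pow_zero]
      by_cases hjJ : j ∈ J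
      · refine pow_lt_one₀ (hnn j) (lt_of_le_of_ne ?_ (hcon j hjJ)) hj
        by_contra h
        exact hjI (mem_filter.2 ⟨hjJ, not_le.1 h⟩)
      · exact absurd (hdeg j hjJ m hm) hj
  have hpos : ∀ i, 0 < v (z i) ^ t i := by
    intro i
    rw [hti]
    by_cases hiI : i ∈ I
    · rw [if_pos hiI]
      exact pow_pos (zero_lt_one.trans (mem_filter.1 hiI).2) _
    · rw [if_neg hiI, pow_zero]
      exact one_pos
  have hsmall : ∀ m ∈ f.support.erase t, v (f.coeff m * ∏ i, z i ^ m i) < v (f.coeff t * ∏ i, z i ^ t i) := by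
    intro m hm
    obtain ⟨hmt, hms⟩ := mem_erase.1 hm
    obtain ⟨j, hj⟩ : ∃ j, m j ≠ t j := by
      by_contra h
      push Not at h
      exact hmt (Finsupp.ext h)
    rw [map_mul, map_mul, map_prod, map_prod, hc, one_mul]
    simp only [map_pow]
    calc v (f.coeff m) * ∏ i, v (z i) ^ m i ≤ 1 * ∏ i, v (z i) ^ m i :=
          mul_le_mul_of_nonneg_right (hint m) (prod_nonneg fun i _ => pow_nonneg (hnn i) _)
      _ = v (z j) ^ m j * ∏ i ∈ univ.erase j, v (z i) ^ m i := by
          rw [one_mul, mul_prod_erase univ (fun i => v (z i) ^ m i) (mem_univ j)]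
      _ ≤ v (z j) ^ m j * ∏ i ∈ univ.erase j, v (z i) ^ t i :=
          mul_le_mul_of_nonneg_left (prod_le_prod (fun i _ => pow_nonneg (hnn i) _) fun i _ => hle m hms i)
            (pow_nonneg (hnn j) _)
      _ < v (z j) ^ t j * ∏ i ∈ univ.erase j, v (z i) ^ t i :=
          mul_lt_mul_of_pos_right (hlt m hms j hj) (prod_pos fun i _ => hpos i)
      _ = ∏ i, v (z i) ^ t i := mul_prod_erase univ (fun i => v (z i) ^ t i) (mem_univ j)
  have htm : t ∈ f.support := mem_support_iff.2 fun h => by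
    rw [h, map_zero] at hc
    exact zero_ne_one hc
  have hsum : f.coeff t * ∏ i, z i ^ t i + ∑ m ∈ f.support.erase t, f.coeff m * ∏ i, z i ^ m i = 0 := by
    rw [eval_eq'] at hz
    rw [← hz]
    exact add_sum_erase f.support (fun m => f.coeff m * ∏ i, z i ^ m i) htm
  have hpos' : 0 < v (f.coeff t * ∏ i, z i ^ t i) := by
    rw [map_mul, map_prod, hc, one_mul]
    simp only [map_pow]
    exact prod_pos fun i _ => hpos i
  have hlt' : v (∑ m ∈ f.support.erase t, f.coeff m * ∏ i, z i ^ m i) < v (f.coeff t * ∏ i, z i ^ t i) := by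
    rcases (f.support.erase t).eq_empty_or_nonempty with h0 | hne
    · rw [h0, sum_empty, map_zero]; exact hpos'
    · obtain ⟨m₀, hm₀, hmax⟩ := exists_max_image (f.support.erase t)
        (fun m => v (f.coeff m * ∏ i, z i ^ m i)) hne
      exact (val_sum_le hv _ _ (AbsoluteValue.nonneg v _) fun m hm => hmax m hm).trans_lt (hsmall m₀ hm₀)
  have h1 := v_add_eq hv hlt'
  rw [hsum, map_zero] at h1
  exact hpos'.ne h1

/-- for all `d + 1` coordinates some polynomial in the `x_i / s_i` with unit corners vanishes on `V` -/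
def Corners (v : AbsoluteValue ℂ ℝ) (d : ℕ) (s : Fin n → ℂ) (V : Set (Fin n → ℂ)) : Prop :=
  ∀ J : Finset (Fin n), J.card = d + 1 →
    ∃ f, UnitCorners v J f ∧ ∀ x ∈ V, eval (fun i => x i / s i) f = 0

theorem card_le_of_corners (hv : IsNonarchimedean v) {d : ℕ} {s : Fin n → ℂ} {V : Set (Fin n → ℂ)}
    (h : Corners v d s V) {x : Fin n → ℂ} (hx : x ∈ V) {J : Finset (Fin n)}
    (hJ : ∀ i ∈ J, v (x i) ≠ v (s i)) : J.card ≤ d := by
  by_contra hcon
  push Not at hcon
  obtain ⟨J', hJ'J, hJ'⟩ := exists_subset_card_eq (show d + 1 ≤ J.card from hcon)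
  obtain ⟨f, hf, hfV⟩ := h J' hJ'
  obtain ⟨i, hi, hi1⟩ := exists_unit_coord hv hf (hfV x hx)
  apply hJ i (hJ'J hi)
  simp only [map_div₀] at hi1
  have h0 : v (s i) ≠ 0 := by
    intro h0
    rw [h0, div_zero] at hi1
    exact zero_ne_one hi1
  exact (div_eq_one_iff_eq h0).1 hi1

/-- **levels**: special subvarieties of dimension less than `n - d` which contain a point of `V` with
coordinates in `X` -/
theorem level_of_corners (hv : IsNonarchimedean v) (r : ℝ) (q : ℕ) :
    ∃ G : ℕ, ∀ X : Set ℂ, Small v r q X → ∀ (n d : ℕ) (V : Set (Fin n → ℂ)) (s : Fin n → ℂ),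
      (∀ i, 1 < v (s i)) → Corners v d s V → ∀ S : SpecialData n, d + dim S.carrier < n →
        ∀ x ∈ V, x ∈ S.carrier → (∀ i, x i ∈ X) →
          ∃ (i j : Fin n) (e f g : ℕ), i ≠ j ∧ 0 < e ∧ 0 < f ∧ 0 < g ∧ Nat.Coprime e f ∧
            v (s i) ^ f = v (s j) ^ e ∧ g ≤ G ∧ ((∀ p : ℕ, p.Prime → r ^ (p - 1) < v (p : ℂ)) → g ∣ q) ∧
            ∀ z ∈ S.carrier, CyclicIsog (e * f * g ^ 2) (z i) (z j) := by
  obtain ⟨G, hG⟩ := pair_small hv r q
  refine ⟨G, fun X hX n d V s hs hV S hS x hx hxS hxX => ?_⟩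
  classical
  have hr := S.le_dim
  have h1 := card_le_of_corners hv hV hx (J := univ.filter fun i => ¬ v (x i) = v (s i))
    fun i hi => (mem_filter.1 hi).2
  have h2 := Finset.card_filter_add_card_filter_not (s := (univ : Finset (Fin n)))
    (fun i => v (x i) = v (s i))
  rw [card_univ, Fintype.card_fin] at h2
  obtain ⟨i, j, c, hi, hj, hij, hsi, hsj⟩ := exists_pair_pt S hxS
    (I := univ.filter fun i => v (x i) = v (s i)) (by omega) fun i hi hsp => by
      have h3 : x i ∈ vring v hv := mem_of_isIntegral_int _ hsp.isIntegral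
      rw [mem_vring, (mem_filter.1 hi).2] at h3
      exact absurd (hs i) (not_lt.2 h3)
  have hi' := (mem_filter.1 hi).2
  have hj' := (mem_filter.1 hj).2
  obtain ⟨N, hN, h⟩ := class_isog S hsi hsj
  obtain ⟨e, f, g, he, hf, hg, hcop, hef, hNe, hgG, hgq⟩ := hG X hX (x i) (hxX i) (x j) (hxX j)
    (by rw [hi']; exact hs i) (by rw [hj']; exact hs j) N hN (h x hxS)
  refine ⟨i, j, e, f, g, hij, he, hf, hg, hcop, ?_, hgG, hgq, fun z hz => ?_⟩
  · rw [← hi', ← hj']; exact hef
  · rw [← hNe]; exact h z hz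

/-- **nondensity** -/
theorem notDense_of_corners (hv : IsNonarchimedean v) {r : ℝ} {q : ℕ} {X : Set ℂ} (hX : Small v r q X)
    {V : Set (Fin n → ℂ)} (hV : IsSubvariety V) {s : Fin n → ℂ} (hs : ∀ i, 1 < v (s i))
    (hVc : Corners v (dim V) s V) (hVS : ∀ S : SpecialData n, dim S.carrier < n → ¬ V ⊆ S.carrier) :
    ∃ f : MvPolynomial (Fin n) ℂ, (∃ x ∈ V, eval x f ≠ 0) ∧ ∀ x ∈ V, (∀ i, x i ∈ X) →
      (∃ S : SpecialData n, dim V + dim S.carrier < n ∧ x ∈ S.carrier) → eval x f = 0 := by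
  classical
  set R : ℝ := ∑ i, v (s i) with hR
  obtain ⟨f, hf1, hf2⟩ := points_notDense (isogenyBounded_small hv hX R) hV hVS
  refine ⟨f, hf1, fun x hx hxX hS => hf2 x hx hS fun J hJ => card_le_of_corners hv hVc hx fun i hi hi2 => ?_⟩
  refine hJ i hi ⟨hxX i, by rw [hi2]; exact hs i, ?_⟩
  rw [hi2]
  exact single_le_sum (f := fun i => v (s i)) (fun i _ => AbsoluteValue.nonneg v _) (mem_univ i)

/-- **curves** -/
theorem finite_of_corners (hv : IsNonarchimedean v) {r : ℝ} {q : ℕ} {X : Set ℂ} (hX : Small v r q X)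
    {C : Set (Fin n → ℂ)} (hC : IsSubvariety C) (h1 : dim C = 1) {s : Fin n → ℂ} (hs : ∀ i, 1 < v (s i))
    (hCc : Corners v 1 s C) (hc : ∀ (i : Fin n) (c : ℂ), ∃ x ∈ C, x i ≠ c) :
    {x ∈ C | (∀ i, x i ∈ X) ∧ ∃ S : SpecialData n, dim S.carrier + 2 ≤ n ∧ x ∈ S.carrier}.Finite := by
  classical
  have hat : AtMost 1 {x : ℂ | 1 < v x} C := fun x hx J hJ =>
    card_le_of_corners hv hCc hx fun i hi hi2 => hJ i hi (by
      change 1 < v (x i)
      rw [hi2]; exact hs i)
  have hns : ∀ x ∈ {x : ℂ | 1 < v x}, ¬ IsSpecialPoint x := fun x hx hsp => by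
    have h3 : x ∈ vring v hv := mem_of_isIntegral_int _ hsp.isIntegral
    rw [mem_vring] at h3
    exact absurd (show 1 < v x from hx) (not_lt.2 h3)
  set R : ℝ := ∑ i, v (s i) with hR
  refine (points_finite (isogenyBounded_small hv hX R) hC h1 (not_special hns hC h1 hat hc)).subset ?_
  rintro x ⟨hx, hxX, hS⟩
  refine ⟨hx, hS, fun J hJ => card_le_of_corners hv hCc hx fun i hi hi2 => ?_⟩
  refine hJ i hi ⟨hxX i, by rw [hi2]; exact hs i, ?_⟩
  rw [hi2]
  exact single_le_sum (f := fun i => v (s i)) (fun i _ => AbsoluteValue.nonneg v _) (mem_univ i)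

end Pool.Agent.Helper11.LC
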