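import Pool.Agent.Helper11.LC.Mon

/-! # The relation between two monomials -/

open MvPolynomial Finset

namespace Pool.Agent.Helper11.LC
open Pool.Agent.Helper11.ZP Pool.Agent.Helper11.ZU Pool.Agent.Helper20.ZD Pool.Agent.Helper20.ZT
  Pool.Agent.Helper20.DL Pool.Agent.Helper69.DL

variable {n : ℕ}

lemma ev_eq (H : MvPolynomial (Fin 2) ℤ) (x y : ℂ) : Helper20.DL.ev H x y = aeval ![x, y] H :=
  ev_eq_aeval H x y

/-- the ideal of a zero of `H` with a transcendental coordinate is generated by `H` -/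
theorem dvd_of_zero {H G : MvPolynomial (Fin 2) ℤ} (hH : Irreducible H) {x y : ℂ}
    (ht : Transcendental ℤ x ∨ Transcendental ℤ y) (h0 : Helper20.DL.ev H x y = 0)
    (hG : Helper20.DL.ev G x y = 0) : H ∣ G := by
  rw [ev_eq] at h0 hG
  rcases ht with ht | ht
  · exact Two.dvd_of_vanish (k := 1) (x := ![x, y]) hH (by simpa using ht) h0 hG
  · exact Two.dvd_of_vanish (k := 0) (x := ![x, y]) hH (by simpa using ht) h0 hG

lemma zero_of_dvd {H G : MvPolynomial (Fin 2) ℤ} (h : H ∣ G) {x y : ℂ} (h0 : Helper20.DL.ev H x y = 0) :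
    Helper20.DL.ev G x y = 0 := by
  obtain ⟨c, rfl⟩ := h
  rw [ev_eq] at h0 ⊢
  rw [map_mul, h0, zero_mul]

/-- **the embedding trick**: two zeros of `H` with a transcendental coordinate are conjugate -/
theorem exists_embed {H : MvPolynomial (Fin 2) ℤ} (hH : Irreducible H) {x y X₀ Y₀ : ℂ}
    (hx : Transcendental ℤ x) (h0 : Helper20.DL.ev H x y = 0)
    (hX : Transcendental ℤ X₀ ∨ Transcendental ℤ Y₀) (h1 : Helper20.DL.ev H X₀ Y₀ = 0) :
    ∃ (A : Subring ℂ) (σ : A →+* ℂ), (∀ w, IsAlgebraic (Algebra.adjoin ℤ {x}) w → w ∈ A) ∧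
      (∀ w : A, (w : ℂ) = x → σ w = X₀) ∧ ∀ w : A, (w : ℂ) = y → σ w = Y₀ := by
  set f₁ : MvPolynomial (Fin 2) ℤ →ₐ[ℤ] ℂ := aeval ![x, y] with hf₁
  set f₂ : MvPolynomial (Fin 2) ℤ →ₐ[ℤ] ℂ := aeval ![X₀, Y₀] with hf₂
  have hker : ∀ G, f₁ G = 0 ↔ f₂ G = 0 := by
    intro G
    constructor
    · intro h
      have h2 := dvd_of_zero (G := G) hH (Or.inl hx) h0 (by rw [ev_eq]; exact h)
      have h3 := zero_of_dvd h2 h1
      rwa [ev_eq] at h3
    · intro h
      have h2 := dvd_of_zero (G := G) hH hX h1 (by rw [ev_eq]; exact h)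
      have h3 := zero_of_dvd h2 h0
      rwa [ev_eq] at h3
  set S : Subalgebra ℤ ℂ := f₁.range with hS
  let g : MvPolynomial (Fin 2) ℤ →+* S := f₁.rangeRestrict.toRingHom
  have hg : Function.Surjective g := f₁.rangeRestrict_surjective
  let ψ : S →+* ℂ := g.liftOfSurjective hg ⟨f₂.toRingHom, fun G hG => by
    rw [RingHom.mem_ker] at hG ⊢
    exact (hker G).1 (congrArg Subtype.val hG)⟩
  have hψ : ∀ G, ψ (g G) = f₂ G := fun G => g.liftOfRightInverse_comp_apply _ _ _ _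
  have hψi : Function.Injective ψ := by
    rw [injective_iff_map_eq_zero]
    intro s hs
    obtain ⟨G, rfl⟩ := hg s
    rw [hψ] at hs
    exact Subtype.ext ((hker G).2 hs)
  obtain ⟨σ, hσ⟩ := exists_lift (E := ℂ) ψ hψi
  have hxS : Algebra.adjoin ℤ {x} ≤ S := by
    rw [Algebra.adjoin_le_iff, Set.singleton_subset_iff]
    exact ⟨X 0, by simp [hf₁]⟩
  refine ⟨(Subalgebra.algebraicClosure S ℂ).toSubring, σ, fun w hw => ?_, fun w hw => ?_, fun w hw => ?_⟩
  · rw [Subalgebra.mem_toSubring, Subalgebra.mem_algebraicClosure]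
    letI := (Subalgebra.inclusion hxS).toRingHom.toAlgebra
    have : IsScalarTower (Algebra.adjoin ℤ {x}) S ℂ := IsScalarTower.of_algebraMap_eq fun _ => rfl
    exact hw.extendScalars (Subalgebra.inclusion_injective hxS)
  · have h2 : @Eq (Subalgebra.algebraicClosure S ℂ) w (algebraMap S _ (g (X 0))) := by
      apply Subtype.ext
      rw [hw]
      change x = f₁ (X 0)
      simp [hf₁]
    rw [h2, hσ, hψ]
    simp [hf₂]
  · have h2 : @Eq (Subalgebra.algebraicClosure S ℂ) w (algebraMap S _ (g (X 1))) := by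
      apply Subtype.ext
      rw [hw]
      change y = f₁ (X 1)
      simp [hf₁]
    rw [h2, hσ, hψ]
    simp [hf₂]

lemma prod_mem_alg (S : Subalgebra ℤ ℂ) {z : Fin n → ℂ} (hz : ∀ i, IsAlgebraic S (z i)) (a : Fin n → ℤ) :
    IsAlgebraic S (∏ i, z i ^ a i) := by
  rw [← Subalgebra.mem_algebraicClosure]
  refine prod_mem fun i _ => ?_
  have h1 : ∀ k : ℕ, z i ^ k ∈ Subalgebra.algebraicClosure S ℂ := fun k =>
    pow_mem ((Subalgebra.mem_algebraicClosure _ _).2 (hz i)) k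
  rcases le_total 0 (a i) with h | h
  · obtain ⟨k, hk⟩ := Int.eq_ofNat_of_zero_le h
    rw [hk, zpow_natCast]
    exact h1 k
  · obtain ⟨k, hk⟩ := Int.eq_ofNat_of_zero_le (neg_nonneg.2 h)
    have h2 : a i = -(k : ℤ) := by omega
    rw [h2, zpow_neg, zpow_natCast, Subalgebra.mem_algebraicClosure]
    exact IsAlgebraic.inv ((Subalgebra.mem_algebraicClosure _ _).1 (h1 k))

/-- all coordinates are algebraic over the field generated by a monomial -/
theorem alg_over_mon {Z : Set (Fin n → ℂ)} (hZ : IsSubvariety Z) (h1 : dim Z = 1)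
    (hc : ∀ (i : Fin n) (c : ℂ), ∃ z ∈ Z, z i ≠ c) (hcor : CornerPos 1 Z) {z : Fin n → ℂ} (hzZ : z ∈ Z)
    (hgen : ∀ G : MvPolynomial (Fin n) ℤ, aeval z G = 0 → ∀ x ∈ Z, aeval x G = 0) {a : Fin n → ℤ}
    (ha : ∃ i, a i ≠ 0) (i : Fin n) : IsAlgebraic (Algebra.adjoin ℤ {∏ i, z i ^ a i}) (z i) := by
  refine exchange (prod_mem_alg _ (fun j => ?_) a) (transc_mon hZ h1 hc hcor hgen ha)
  by_cases hij : i = j
  · rw [← hij]
    exact isAlgebraic_algebraMap (⟨z i, Algebra.subset_adjoin rfl⟩ : Algebra.adjoin ℤ {z i})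
  · obtain ⟨f, hf1, hf2, hf3, hf4⟩ := hcor {i, j} (card_pair hij)
    exact alg_of_pair hij hf1 hf2 (hf3 _ subset_rfl) (hf4 z hzZ) (transc_coord hZ h1 hc hgen i)

/-- the relation -/
theorem exists_irr {x y : ℂ} (hx : Transcendental ℤ x) (hy : IsAlgebraic (Algebra.adjoin ℤ {x}) y) :
    ∃ H : MvPolynomial (Fin 2) ℤ, Irreducible H ∧ Helper20.DL.ev H x y = 0 := by
  set f : MvPolynomial (Fin 2) ℤ →ₐ[ℤ] ℂ := aeval ![x, y] with hf
  have hprime : (RingHom.ker f).IsPrime := RingHom.ker_isPrime f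
  have hne : RingHom.ker f ≠ ⊥ := by
    intro hbot
    have h1 : AlgebraicIndependent ℤ ![x, y] := by
      rw [AlgebraicIndependent, injective_iff_map_eq_zero]
      intro G hG
      have h2 : G ∈ RingHom.ker f := hG
      rwa [hbot, Ideal.mem_bot] at h2
    have h2 := h1.transcendental_adjoin (s := {0}) (i := 1) (by simp)
    rw [show ![x, y] '' ({0} : Set (Fin 2)) = {x} from by simp] at h2
    exact h2 hy
  obtain ⟨H, hH, hP⟩ := hprime.exists_mem_prime_of_ne_bot hne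
  exact ⟨H, hP.irreducible, by rw [ev_eq]; exact hH⟩

end Pool.Agent.Helper11.LC
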