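import Pool.Agent.Helper11.LC.Rel

/-! # The relation between two monomials: the data for the coset lemma -/

open MvPolynomial Finset

namespace Pool.Agent.Helper11.LC
open Pool.Agent.Helper11.ZP Pool.Agent.Helper11.ZU Pool.Agent.Helper20.ZD Pool.Agent.Helper20.ZT
  Pool.Agent.Helper20.DL Pool.Agent.Helper69.DL

variable {n : ℕ}

lemma map_mon {A : Subring ℂ} (σ : A →+* ℂ) {z : Fin n → ℂ} (hzA : ∀ i, z i ∈ A) (hz0 : ∀ i, z i ≠ 0)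
    (hz' : ∀ i, σ ⟨z i, hzA i⟩ ≠ 0) {a : Fin n → ℤ} {X₀ : ℂ} (hxA : (∏ i, z i ^ a i) ∈ A)
    (hX : ∀ w : A, (w : ℂ) = (∏ i, z i ^ a i) → σ w = X₀) : ∏ i, σ ⟨z i, hzA i⟩ ^ a i = X₀ := by
  have h1 : (⟨_, hxA⟩ : A) * ∏ i, (⟨z i, hzA i⟩ : A) ^ (-a i).toNat =
      ∏ i, (⟨z i, hzA i⟩ : A) ^ (a i).toNat := by
    apply Subtype.ext
    push_cast
    exact mon_mul fun i hi => absurd hi (hz0 i)
  have h2 := congrArg σ h1
  rw [map_mul, map_prod, map_prod, hX _ rfl] at h2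
  simp only [map_pow] at h2
  rw [← mon_mul (x := fun i => σ ⟨z i, hzA i⟩) (a := a) fun i hi => absurd hi (hz' i)] at h2
  exact (mul_right_cancel₀ (mon_neg_ne (x := fun i => σ ⟨z i, hzA i⟩) (a := a)
    fun i hi => absurd hi (hz' i)) h2).symm

/-- the relation between the monomials `z ^ a` and `z ^ b` at a generic point of `Z` -/
theorem exists_rel_data {Z : Set (Fin n → ℂ)} (hZ : IsSubvariety Z) (h1 : dim Z = 1)
    (hc : ∀ (i : Fin n) (c : ℂ), ∃ z ∈ Z, z i ≠ c) (hcor : CornerPos 1 Z) (a b : Fin n → ℤ)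
    (hab : ∀ s t : ℤ, (∀ i, s * a i + t * b i = 0) → s = 0 ∧ t = 0) :
    ∃ (H : MvPolynomial (Fin 2) ℤ) (M : ℕ) (x y : ℂ), 0 < M ∧ Irreducible H ∧ Holds H Z a b ∧
      x ≠ 0 ∧ y ≠ 0 ∧ Helper20.DL.ev H x y = 0 ∧
      (∀ s t : ℤ, ¬ (s = 0 ∧ t = 0) → Transcendental ℤ (x ^ s * y ^ t)) ∧
      (∀ v : AbsoluteValue ℂ ℝ, IsNonarchimedean v → v (M : ℂ) = 1 → ∀ X₀ Y₀ : ℂ,
        (Transcendental ℤ X₀ ∨ Transcendental ℤ Y₀) → Helper20.DL.ev H X₀ Y₀ = 0 →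
        ∃ z : Fin n → ℂ, (∀ i, z i ≠ 0) ∧ ∏ i, z i ^ a i = X₀ ∧ ∏ i, z i ^ b i = Y₀ ∧
          ∀ i j, i ≠ j → v (z i) = 1 ∨ v (z j) = 1) ∧
      ∀ p : ℕ, p.Prime → ¬ p ∣ M → ∀ v : AbsoluteValue ℂ ℝ, Helper20.DL.NoCoset v H → GoodRel v p H := by
  classical
  obtain ⟨z, hzZ, hgen⟩ := exists_generic hZ h1
  have hz0 : ∀ i, z i ≠ 0 := fun i h => transc_coord hZ h1 hc hgen i (by rw [h]; exact isAlgebraic_zero)
  set x := ∏ i, z i ^ a i with hx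
  set y := ∏ i, z i ^ b i with hy
  have hx0 : x ≠ 0 := prod_ne_zero_iff.2 fun i _ => zpow_ne_zero _ (hz0 i)
  have hy0 : y ≠ 0 := prod_ne_zero_iff.2 fun i _ => zpow_ne_zero _ (hz0 i)
  have htr : ∀ s t : ℤ, ¬ (s = 0 ∧ t = 0) → Transcendental ℤ (x ^ s * y ^ t) := by
    intro s t hst
    have h2 : x ^ s * y ^ t = ∏ i, z i ^ (s * a i + t * b i) := by
      rw [hx, hy, ← prod_zpow, ← prod_zpow, ← prod_mul_distrib]
      refine prod_congr rfl fun i _ => ?_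
      rw [zpow_add₀ (hz0 i), mul_comm s, mul_comm t, zpow_mul, zpow_mul]
    rw [h2]
    refine transc_mon hZ h1 hc hcor hgen ?_
    by_contra hcon
    push Not at hcon
    exact hst (hab s t hcon)
  have hxt : Transcendental ℤ x := by simpa using htr 1 0 (by simp)
  have hyt : Transcendental ℤ y := by simpa using htr 0 1 (by simp)
  have ha : ∃ i, a i ≠ 0 := by
    by_contra hcon
    push Not at hcon
    have := (hab 1 0 fun i => by simp [hcon i]).1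
    omega
  have halg : ∀ i, IsAlgebraic (Algebra.adjoin ℤ {x}) (z i) := alg_over_mon hZ h1 hc hcor hzZ hgen ha
  obtain ⟨H, hH, hev⟩ := exists_irr hxt (prod_mem_alg _ halg b)
  have hHolds : Holds H Z a b := holds_of_generic hgen hz0 hev
  obtain ⟨M₁, hM₁, hun⟩ := corners_conj hcor
  have hev' : aeval ![x, y] H = 0 := by rw [← ev_eq]; exact hev
  obtain ⟨m₁, hm₁, hm₁'⟩ := Two.exists_bot (x := ![x, y]) hH hev' (k := 0) (by simpa using hx0)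
  obtain ⟨m₂, hm₂, hm₂'⟩ := Two.exists_bot (x := ![x, y]) hH hev' (k := 1) (by simpa using hy0)
  obtain ⟨m₃, hm₃, hm₃'⟩ := Two.exists_top hH.ne_zero 0
  obtain ⟨m₄, hm₄, hm₄'⟩ := Two.exists_top hH.ne_zero 1
  obtain ⟨U₀, V₀, d₀, hd₀, hUV₀⟩ := Two.exists_disc (k := 0) (x := ![x, y]) hH (by simpa using hyt) hev'
  obtain ⟨U₁, V₁, d₁, hd₁, hUV₁⟩ := Two.exists_disc (k := 1) (x := ![x, y]) hH (by simpa using hxt) hev'
  have hpos : ∀ {k : ℤ}, k ≠ 0 → 0 < k.natAbs := fun h => Int.natAbs_pos.2 h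
  have hl₀ := hpos (Polynomial.leadingCoeff_ne_zero.2 hd₀)
  have hl₁ := hpos (Polynomial.leadingCoeff_ne_zero.2 hd₁)
  refine ⟨H, M₁ * ((H.coeff m₁).natAbs * (H.coeff m₂).natAbs * (H.coeff m₃).natAbs * (H.coeff m₄).natAbs *
    d₀.leadingCoeff.natAbs * d₁.leadingCoeff.natAbs * (64 * (H.totalDegree + 1) ^ 2).factorial), x, y, ?_,
    hH, hHolds, hx0, hy0, hev, htr, ?_, ?_⟩
  · have := hpos hm₁'
    have := hpos hm₂'
    have := hpos hm₃'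
    have := hpos hm₄'
    have := Nat.factorial_pos (64 * (H.totalDegree + 1) ^ 2)
    positivity
  · intro v hv hvM X₀ Y₀ hT hE
    obtain ⟨hvM₁, -⟩ := v_nat_factor hv hvM
    obtain ⟨A, σ, hA, hσx, hσy⟩ := exists_embed hH hxt hev hT hE
    have hzA : ∀ i, z i ∈ A := fun i => hA _ (halg i)
    have hz' : ∀ i, σ ⟨z i, hzA i⟩ ≠ 0 := by
      intro i h
      have h2 : (z i)⁻¹ ∈ A := hA _ (halg i).inv
      have h3 : (⟨z i, hzA i⟩ : A) * ⟨(z i)⁻¹, h2⟩ = 1 := Subtype.ext (mul_inv_cancel₀ (hz0 i))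
      have h4 := congrArg σ h3
      rw [map_mul, h, zero_mul, map_one] at h4
      exact zero_ne_one h4
    have hcA : ∀ c, IsAlgebraic ℚ c → c ∈ A := fun c hc => hA c (alg_over hc _)
    refine ⟨fun i => σ ⟨z i, hzA i⟩, hz', ?_, ?_, fun i j hij => hun v hv hvM₁ A σ hcA z hzZ hzA i j hij⟩
    · exact map_mon σ hzA hz0 hz' (hA _ (prod_mem_alg _ halg a)) hσx
    · exact map_mon σ hzA hz0 hz' (hA _ (prod_mem_alg _ halg b)) hσy
  · intro p hp hpM v hNC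
    have hnd : ∀ {k : ℤ}, ¬ p ∣ k.natAbs → ¬ (p : ℤ) ∣ k := fun h h2 => h (Int.natCast_dvd.1 h2)
    simp only [hp.dvd_mul, not_or] at hpM
    obtain ⟨-, ⟨⟨⟨⟨⟨h1, h2⟩, h3⟩, h4⟩, h5⟩, h6⟩, h7⟩ := hpM
    refine ⟨hNC, ⟨m₁, hm₁, hnd h1⟩, ⟨m₂, hm₂, hnd h2⟩, ⟨m₃, hm₃, hnd h3⟩, ⟨m₄, hm₄, hnd h4⟩,
      ⟨U₀, V₀, d₀, hUV₀, _, hnd h5⟩, ⟨U₁, V₁, d₁, hUV₁, _, hnd h6⟩, ?_⟩
    by_contra hcon
    push Not at hcon
    exact h7 (hp.dvd_factorial.2 hcon.le)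

end Pool.Agent.Helper11.LC
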