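import Pool.Agent.Helper11.LC.Deg

/-! # Local fields: isogenies between numbers outside the valuation ring -/

open UpperHalfPlane

namespace Pool.Agent.Helper11.LC
open Pool.Agent.Helper11.ZP Pool.Agent.Helper11.ZU Pool.Agent.Helper20.ZT Pool.Agent.Helper20.ZT.Prim
  Pool.Agent.Helper20.ZD

variable {v : AbsoluteValue ℂ ℝ}

/-- on the field `K` there is no value in `(r, 1)`, and the orders of the elements of the residue field
divide `q` -/
def Gap (v : AbsoluteValue ℂ ℝ) (r : ℝ) (q : ℕ) (K : Set ℂ) : Prop :=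
  ∀ u ∈ K, (v u < 1 → v u ≤ r) ∧ (v u = 1 → v (u ^ q - 1) < 1)

/-- an element of the field whose value is the root of the value of `x` -/
lemma exists_gen {K : Subfield ℂ} {x y : ℂ} (hx : x ∈ K) (hy : y ∈ K) (hx1 : 1 < v x) (hy1 : 1 < v y)
    {e f : ℕ} (he : 0 < e) (hf : 0 < f) (hcop : Nat.Coprime e f) (h : v x ^ f = v y ^ e) :
    ∃ z ∈ K, 1 < v z ∧ v z ^ e = v x ∧ v z ^ f = v y := by
  have hv0x : 0 < v x := zero_lt_one.trans hx1
  have hv0y : 0 < v y := zero_lt_one.trans hy1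
  -- `s * e + t * f = 1`
  set s : ℤ := Nat.gcdA e f with hs
  set t : ℤ := Nat.gcdB e f with ht
  have hst : (e : ℤ) * s + (f : ℤ) * t = 1 := by
    have h1 := Nat.gcd_eq_gcd_ab e f
    rw [hcop.gcd_eq_one] at h1
    exact_mod_cast h1.symm
  refine ⟨x ^ s * y ^ t, K.mul_mem (K.zpow_mem hx s) (K.zpow_mem hy t), ?_, ?_, ?_⟩
  · have h1 : v (x ^ s * y ^ t) ^ e = v x := by
      rw [map_mul, map_zpow₀, map_zpow₀, mul_pow, ← zpow_natCast (v x ^ s), ← zpow_natCast (v y ^ t),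
        ← zpow_mul, ← zpow_mul, mul_comm t, zpow_mul (v y), zpow_natCast, ← h, ← zpow_natCast (v x) f, ← zpow_mul,
        ← zpow_add₀ hv0x.ne', mul_comm s, hst, zpow_one]
    by_contra hcon
    push Not at hcon
    have h2 := pow_le_one₀ (n := e) (AbsoluteValue.nonneg v (x ^ s * y ^ t)) hcon
    rw [h1] at h2
    exact absurd hx1 (not_lt.2 h2)
  · rw [map_mul, map_zpow₀, map_zpow₀, mul_pow, ← zpow_natCast (v x ^ s), ← zpow_natCast (v y ^ t),
      ← zpow_mul, ← zpow_mul, mul_comm t, zpow_mul (v y), zpow_natCast, ← h, ← zpow_natCast (v x) f, ← zpow_mul,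
      ← zpow_add₀ hv0x.ne', mul_comm s, hst, zpow_one]
  · rw [map_mul, map_zpow₀, map_zpow₀, mul_pow, ← zpow_natCast (v x ^ s), ← zpow_natCast (v y ^ t),
      ← zpow_mul, ← zpow_mul, mul_comm s, zpow_mul (v x), zpow_natCast, h, ← zpow_natCast (v y) e, ← zpow_mul,
      ← zpow_add₀ hv0y.ne', mul_comm t, hst, zpow_one]

/-- **isogenies over a local field**: `N = e f g²`, `v(x)^f = v(y)^e`, and `g` is bounded -/
theorem pair_local (hv : IsNonarchimedean v) {r : ℝ} (hr0 : 0 ≤ r) (hr : r < 1) {q : ℕ} (hq : 0 < q) :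
    ∃ G : ℕ, ∀ (K : Subfield ℂ), Gap v r q K → ∀ x ∈ K, ∀ y ∈ K, 1 < v x → 1 < v y → ∀ N : ℕ, 0 < N →
      CyclicIsog N x y → ∃ e f g : ℕ, 0 < e ∧ 0 < f ∧ 0 < g ∧ Nat.Coprime e f ∧ v x ^ f = v y ^ e ∧
        N = e * f * g ^ 2 ∧ g ≤ G ∧ ((∀ p : ℕ, p.Prime → r ^ (p - 1) < v (p : ℂ)) → g ∣ q) := by
  obtain ⟨H, hH⟩ := order_bound_one v hv hr
  refine ⟨q * H, ?_⟩
  intro K hK x hx y hy hx1 hy1 N hN h
  have hx0 : x ≠ 0 := by
    rintro rfl
    rw [map_zero] at hx1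
    exact absurd hx1 (not_lt.2 zero_le_one)
  have hy0 : y ≠ 0 := by
    rintro rfl
    rw [map_zero] at hy1
    exact absurd hy1 (not_lt.2 zero_le_one)
  obtain ⟨e, f, g, ζ, he, hf, hcop, hg, hef, hNe, hζ, hnear⟩ :=
    pair_shape (ρ := 0) hv zero_lt_one hx1 hy1 hN (by simp) (by simp) h
  refine ⟨e, f, g, he, hf, hg, hcop, hef, hNe, ?_⟩
  set u := x ^ f / y ^ e with hu
  have hvu : v u = 1 := by
    rw [hu, map_div₀, map_pow, map_pow, hef, div_self]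
    exact pow_ne_zero _ ((AbsoluteValue.ne_zero_iff v).2 hy0)
  have hum : u ∈ K := K.div_mem (K.pow_mem hx _) (K.pow_mem hy _)
  have h0 := (hK u hum).2 hvu
  have h1 : v (u ^ q - 1) ≤ r := (hK _ (K.sub_mem (K.pow_mem hum q) K.one_mem)).1 h0
  have hinv : ∀ {z : ℂ}, z ∈ K → 1 < v z → (v z)⁻¹ ≤ r := by
    intro z hz hz1
    have h2 := (hK _ (K.inv_mem hz)).1 (by rw [map_inv₀]; exact inv_lt_one_of_one_lt₀ hz1)
    rwa [map_inv₀] at h2
  have h2 : v (ζ - u) ≤ r := hnear.trans (max_le hr0 (max_le (hinv hx hx1) (hinv hy hy1)))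
  have hu0 : u ≠ 0 := by
    intro h0
    rw [h0, map_zero] at hvu
    exact zero_ne_one hvu
  have hvζ : v ζ = 1 := val_root hg hζ.pow_eq_one
  have h3 : v ((ζ / u) ^ q - 1) ≤ r := by
    refine (val_pow_sub_one hv (by rw [map_div₀, hvζ, hvu, div_one]) q).trans ?_
    rw [show ζ / u - 1 = (ζ - u) / u by field_simp, map_div₀, hvu, div_one]
    exact h2
  have h4 : v (ζ ^ q - 1) ≤ r := by
    have h5 : ζ ^ q - 1 = ((ζ / u) ^ q - 1) * u ^ q + (u ^ q - 1) := by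
      rw [div_pow]
      field_simp
      ring
    rw [h5]
    refine (hv _ _).trans (max_le ?_ h1)
    rw [map_mul, map_pow, hvu, one_pow, mul_one]
    exact h3
  have h6 : IsOfFinOrder (ζ ^ q) := by
    rw [isOfFinOrder_iff_pow_eq_one]
    exact ⟨g, hg, by rw [← pow_mul, mul_comm, pow_mul, hζ.pow_eq_one, one_pow]⟩
  have h7 := hH (ζ ^ q) (orderOf (ζ ^ q)) h6.orderOf_pos (IsPrimitiveRoot.orderOf _) h4
  have h9 : g ∣ q * orderOf (ζ ^ q) := by
    refine hζ.dvd_of_pow_eq_one _ ?_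
    rw [pow_mul, pow_orderOf_eq_one]
  refine ⟨(Nat.le_of_dvd (Nat.mul_pos hq h6.orderOf_pos) h9).trans (Nat.mul_le_mul le_rfl h7), fun hp => ?_⟩
  refine hζ.dvd_of_pow_eq_one _ ?_
  by_contra hne
  have h10 : orderOf (ζ ^ q) ≠ 1 := fun h => hne (orderOf_eq_one_iff.1 h)
  obtain ⟨p, hpp, hpd⟩ := Nat.exists_prime_and_dvd h10
  obtain ⟨m, hm⟩ := hpd
  have h11 : IsPrimitiveRoot ((ζ ^ q) ^ m) p :=
    (IsPrimitiveRoot.orderOf (ζ ^ q)).pow h6.orderOf_pos (by rw [hm, mul_comm])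
  have h12 : IsPrimitiveRoot ((ζ ^ q) ^ m) (p ^ (0 + 1)) := by simpa using h11
  have h13 := val_prime_le hv hpp h12
  have h14 : v ((ζ ^ q) ^ m - 1) ≤ r :=
    (val_pow_sub_one hv (by rw [map_pow, hvζ, one_pow]) m).trans h4
  have h15 : Nat.totient (p ^ (0 + 1)) = p - 1 := by simp [Nat.totient_prime hpp]
  rw [h15] at h13
  exact absurd (hp p hpp) (not_lt.2 (h13.trans (pow_le_pow_left₀ (AbsoluteValue.nonneg v _) h14 _)))

/-- any two elements of `X` lie in a subfield of `ℂ` on which `v` has no value in `(r, 1)` and the order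
of every nonzero element of the residue field divides `q` -/
def Small (v : AbsoluteValue ℂ ℝ) (r : ℝ) (q : ℕ) (X : Set ℂ) : Prop :=
  0 ≤ r ∧ r < 1 ∧ 0 < q ∧ ∀ x ∈ X, ∀ y ∈ X, ∀ u ∈ Subfield.closure {x, y},
    (v u < 1 → v u ≤ r) ∧ (v u = 1 → v (u ^ q - 1) < 1)

theorem pair_small (hv : IsNonarchimedean v) (r : ℝ) (q : ℕ) :
    ∃ G : ℕ, ∀ X : Set ℂ, Small v r q X → ∀ x ∈ X, ∀ y ∈ X, 1 < v x → 1 < v y → ∀ N : ℕ, 0 < N →
      CyclicIsog N x y → ∃ e f g : ℕ, 0 < e ∧ 0 < f ∧ 0 < g ∧ Nat.Coprime e f ∧ v x ^ f = v y ^ e ∧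
        N = e * f * g ^ 2 ∧ g ≤ G ∧ ((∀ p : ℕ, p.Prime → r ^ (p - 1) < v (p : ℂ)) → g ∣ q) := by
  by_cases hrq : 0 ≤ r ∧ r < 1 ∧ 0 < q
  swap
  · exact ⟨0, fun X hX => absurd ⟨hX.1, hX.2.1, hX.2.2.1⟩ hrq⟩
  obtain ⟨hr0, hr, hq⟩ := hrq
  obtain ⟨G, hG⟩ := pair_local hv hr0 hr hq
  refine ⟨G, fun X hX x hx y hy hx1 hy1 N hN hN2 => ?_⟩
  have h := hX.2.2.2
  exact hG (Subfield.closure {x, y}) (h x hx y hy) x (Subfield.subset_closure (by simp)) y
    (Subfield.subset_closure (by simp)) hx1 hy1 N hN hN2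

/-- **local fields**: the numbers `x ∈ X`, `1 < v(x) ≤ R` are isogeny-bounded -/
theorem isogenyBounded_small (hv : IsNonarchimedean v) {r : ℝ} {q : ℕ} {X : Set ℂ} (hX : Small v r q X) (R : ℝ) :
    IsogenyBounded {x : ℂ | x ∈ X ∧ 1 < v x ∧ v x ≤ R} := by
  constructor
  · rintro x ⟨-, hx, -⟩ hsp
    have h1 : x ∈ vring v hv := mem_of_isIntegral_int _ hsp.isIntegral
    rw [mem_vring] at h1
    linarith
  obtain ⟨G, hG⟩ := pair_small hv r q
  obtain ⟨hr0, hr, hq, h⟩ := id hX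
  obtain ⟨A, hA⟩ : ∃ A : ℕ, ∀ (z : ℂ) (k : ℕ), 1 < v z → (v z)⁻¹ ≤ r → v z ^ k ≤ R → k ≤ A := by
    by_cases hr0 : 0 < r
    · obtain ⟨A, hA⟩ := pow_unbounded_of_one_lt R ((one_lt_inv₀ hr0).2 hr)
      refine ⟨A, fun z k hz hzr hzk => ?_⟩
      by_contra hcon
      push Not at hcon
      have h0 : 0 < v z := zero_lt_one.trans hz
      have h1 : r⁻¹ ≤ v z := by rwa [inv_le_comm₀ hr0 h0]
      have h2 : r⁻¹ ^ A ≤ v z ^ A := pow_le_pow_left₀ (inv_nonneg.2 hr0.le) h1 A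
      have h3 : v z ^ A ≤ v z ^ k := pow_le_pow_right₀ hz.le hcon.le
      linarith
    · refine ⟨0, fun z k hz hzr _ => ?_⟩
      have h0 : 0 < (v z)⁻¹ := inv_pos.2 (zero_lt_one.trans hz)
      linarith
  refine ⟨A * A * G ^ 2, ?_⟩
  rintro x ⟨hx, hx1, hxR⟩ y ⟨hy, hy1, hyR⟩ N hN
  rcases Nat.eq_zero_or_pos N with hN0 | hN0
  · rw [hN0]; exact Nat.zero_le _
  obtain ⟨e, f, g, he, hf, hg, hcop, hef, hNe, hgG, -⟩ := hG X hX x hx y hy hx1 hy1 N hN0 hN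
  obtain ⟨z, hz, hz1, hze, hzf⟩ := exists_gen (K := Subfield.closure {x, y})
    (Subfield.subset_closure (by simp)) (Subfield.subset_closure (by simp)) hx1 hy1 he hf hcop hef
  have hzr : (v z)⁻¹ ≤ r := by
    have h2 := (h x hx y hy _ (Subfield.inv_mem _ hz)).1 (by rw [map_inv₀]; exact inv_lt_one_of_one_lt₀ hz1)
    rwa [map_inv₀] at h2
  rw [hNe]
  exact Nat.mul_le_mul (Nat.mul_le_mul (hA z e hz1 hzr (by rw [hze]; exact hxR))
    (hA z f hz1 hzr (by rw [hzf]; exact hyR))) (Nat.pow_le_pow_left hgG 2)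

/-- a subfield on which `v` is discrete with finite residue field -/
theorem small_of_discrete {K : Subfield ℂ} {π : ℂ} (hπ : v π < 1)
    (hdisc : ∀ x ∈ K, x ≠ 0 → ∃ k : ℤ, v x = v π ^ k) {q : ℕ} (hq : 0 < q)
    (hres : ∀ u ∈ K, v u = 1 → v (u ^ q - 1) < 1) : Small v (v π) q K := by
  refine ⟨AbsoluteValue.nonneg v π, hπ, hq, fun x hx y hy u hu => ?_⟩
  have huK : u ∈ K := by
    have h1 : Subfield.closure {x, y} ≤ K := Subfield.closure_le.2 (by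
      intro z hz
      rcases hz with rfl | rfl
      · exact hx
      · exact hy)
    exact h1 hu
  refine ⟨fun hu1 => ?_, hres u huK⟩
  by_cases hu0 : u = 0
  · rw [hu0, map_zero]; exact AbsoluteValue.nonneg v _
  obtain ⟨k, hk⟩ := hdisc u huK hu0
  have hup : 0 < v u := (AbsoluteValue.pos_iff v).2 hu0
  rcases (AbsoluteValue.nonneg v π).eq_or_lt with h0 | h0
  · rw [← h0] at hk
    rcases eq_or_ne k 0 with hk0 | hk0
    · rw [hk, hk0, zpow_zero] at hu1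
      exact absurd hu1 (lt_irrefl _)
    · rw [hk, zero_zpow k hk0] at hup
      exact absurd hup (lt_irrefl _)
  have hkpos : 0 < k := by
    by_contra hcon
    push Not at hcon
    obtain ⟨m, hm⟩ := Int.eq_ofNat_of_zero_le (neg_nonneg.2 hcon)
    rw [hk, show k = -(m : ℤ) by omega, zpow_neg, zpow_natCast] at hu1
    have h2 : 1 ≤ (v π ^ m)⁻¹ := (one_le_inv₀ (pow_pos h0 _)).2 (pow_le_one₀ h0.le hπ.le)
    exact absurd hu1 (not_lt.2 h2)
  obtain ⟨m, hm⟩ := Int.eq_ofNat_of_zero_le hkpos.le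
  rw [hk, hm, zpow_natCast]
  calc v π ^ m ≤ v π ^ 1 := pow_le_pow_of_le_one h0.le hπ.le (by omega)
    _ = v π := pow_one _

/-- **numbers of bounded degree** -/
theorem small_deg (hv : IsNonarchimedean v) {p : ℕ} (hp : p.Prime) (hvp : v (p : ℂ) < 1) (D : ℕ) :
    ∃ (r : ℝ) (q : ℕ), Small v r q {x : ℂ | IsAlgebraic ℚ x ∧ (minpoly ℚ x).natDegree ≤ D} := by
  obtain ⟨r, hr0, hr1, hr⟩ := exists_rho (AbsoluteValue.nonneg v (p : ℂ)) hvp (D * D)
  refine ⟨r, ∏ f ∈ Finset.Icc 1 (D * D), (p ^ f - 1), hr0, hr1, ?_, ?_⟩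
  · refine Finset.prod_pos fun f hf => ?_
    have h1 : 1 < p ^ f := Nat.one_lt_pow (by have := (Finset.mem_Icc.1 hf).1; omega) hp.one_lt
    omega
  rintro x ⟨hxa, hxD⟩ y ⟨hya, hyD⟩ u hu
  have h1 : Subfield.closure {x, y} ≤
      (IntermediateField.adjoin ℚ {x} ⊔ IntermediateField.adjoin ℚ {y}).toSubfield := by
    rw [Subfield.closure_le]
    intro z hz
    rcases hz with rfl | rfl
    · exact (le_sup_left : IntermediateField.adjoin ℚ {z} ≤ _) (IntermediateField.mem_adjoin_simple_self _ _)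
    · exact (le_sup_right : IntermediateField.adjoin ℚ {z} ≤ _) (IntermediateField.mem_adjoin_simple_self _ _)
  obtain ⟨hua, huD⟩ := degree_sup hxa hya hxD hyD (h1 hu)
  exact ⟨fun hu1 => hr _ (AbsoluteValue.nonneg v _) (v_alg_gap hv hp hvp hua huD hu1),
    fun hu1 => residue_bound hv hp hvp hua huD hu1⟩

end Pool.Agent.Helper11.LC
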